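import Pool.Agent.Work.MP_92f640_nt.HS.Defs

/-! # Explicit weights for `θ = 5/6`: definitions

`s = log d / log x`, `κ = log 4 / log x`. See the note of helper55 (10:15) on MP_92f640_nt. -/

namespace Pool.Agent.HS

open Finset

noncomputable section

/-- the weight of an integer with `j` prime factors and logarithmic size `s` -/
def gE (κ : ℝ) (j : ℕ) (s : ℝ) : ℝ :=
  if j = 0 then 1
  else if j = 1 then (if s ≤ 5 / 12 ∨ (1 / 2 - κ < s ∧ s ≤ 7 / 12) then -1 else 0)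
  else if j = 2 then (if s < 19 / 50 ∨ (1 / 2 < s ∧ s ≤ 7 / 12 - 2 * κ) then 1 else 0)
  else if j = 3 then (if 1 / 2 - κ < s ∧ s ≤ 7 / 12 then -1 else 0)
  else 0

/-- sum of the weights over the subsets of a list of exponents -/
def Fr (κ : ℝ) : List ℝ → ℕ → ℝ → ℝ
  | [], j, s => gE κ j s
  | a :: l, j, s => Fr κ l j s + Fr κ l (j + 1) (s + a)

def kap (x : ℕ) : ℝ := Real.log 4 / Real.log x

/-- logarithmic size -/
def ex (x n : ℕ) : ℝ := Real.log n / Real.log x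

/-- squarefree `z`-rough integers -/
def Rough (z d : ℕ) : Prop := Squarefree d ∧ ∀ p : ℕ, p.Prime → p ∣ d → z ≤ p

open Classical in
/-- the weights -/
def cw (x d : ℕ) : ℝ :=
  if Rough (zx (5 / 6) x) d then gE (kap x) d.primeFactors.card (ex x d) else 0

open Classical in
/-- their interpolation -/
def Ew (x d t : ℕ) : ℝ :=
  if Rough (zx (5 / 6) x) d then gE (kap x) (d.primeFactors.card + 1) (ex x (d * t)) else 0

/-- primes `p ≤ x` with exponent in `[u, v]` -/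
def PS (x : ℕ) (u v : ℝ) : Finset ℕ :=
  (Icc 1 x).filter (fun p => p.Prime ∧ u ≤ ex x p ∧ ex x p ≤ v)

/-- the primes that occur -/
def PP (x : ℕ) : Finset ℕ := PS x (1 / 6) (5 / 6)

/-- small windows around the thresholds -/
def Win (κ a : ℝ) : Prop := |a - 5 / 12| ≤ 8 * κ ∨ |a - 1 / 2| ≤ 8 * κ ∨ |a - 7 / 12| ≤ 8 * κ

/-- pair sums where neither a pair nor its complement is counted -/
def QQ (κ s : ℝ) : Prop := (19 / 50 - 2 * κ ≤ s ∧ s ≤ 5 / 12 + 2 * κ) ∨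
  (7 / 12 - 4 * κ ≤ s ∧ s ≤ 31 / 50) ∨ |s - 1 / 2| ≤ 4 * κ

open Classical in
def w1 (κ a : ℝ) : ℝ := if Win κ a then 1 else 0

open Classical in
def w2 (κ a b : ℝ) : ℝ :=
  (if (b ≤ 5 / 12 + 2 * κ ∧ 7 / 12 - 4 * κ ≤ a + b) ∨ (5 / 12 - 2 * κ ≤ a + b ∧ a + b ≤ 1 / 2 + 2 * κ) ∨
    (1 / 2 - 2 * κ ≤ b ∧ b ≤ 7 / 12 + 2 * κ) then 2 else 0) +
  (if (19 / 50 - 2 * κ ≤ a + b ∧ a + b ≤ 5 / 12) ∨ (7 / 12 ≤ b ∧ b ≤ 31 / 50 + 2 * κ) then 1 else 0)

open Classical in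
def w3 (κ a b c : ℝ) : ℝ := w1 κ a + w1 κ b + w1 κ c + w1 κ (a + b + c) +
  ((if QQ κ (a + b) then 1 else 0) + (if QQ κ (a + c) then 1 else 0) + (if QQ κ (b + c) then 1 else 0))

/-- loss from two prime factors -/
def L1 (x : ℕ) : ℝ := ∑ p ∈ PP x, w1 (kap x) (ex x p) / p

/-- loss from three prime factors -/
def L2 (x : ℕ) : ℝ := ∑ p ∈ PP x, ∑ p' ∈ (PP x).filter (fun p' => p < p' ∧ ex x p + ex x p' ≤ 5 / 6),
  w2 (kap x) (ex x p) (ex x p') / (p * p')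

/-- loss from four prime factors -/
def L3 (x : ℕ) : ℝ := ∑ p ∈ PP x, ∑ p' ∈ (PP x).filter (fun p' => p < p'),
  ∑ p'' ∈ (PP x).filter (fun p'' => p' < p'' ∧ ex x p + ex x p' + ex x p'' ≤ 5 / 6),
    w3 (kap x) (ex x p) (ex x p') (ex x p'') / (p * p' * p'')

/-- measure of five prime factors -/
def L4 (x : ℕ) : ℝ := ∑ p ∈ PP x, ∑ p' ∈ (PP x).filter (fun p' => p < p'),
  ∑ p'' ∈ (PP x).filter (fun p'' => p' < p''),
    ∑ p₃ ∈ (PP x).filter (fun p₃ => p'' < p₃ ∧ ex x p + ex x p' + ex x p'' + ex x p₃ ≤ 5 / 6),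
      1 / ((p : ℝ) * p' * p'' * p₃)

end

end Pool.Agent.HS
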