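import Pool.Agent.Work.MP_92f640_nt.HS.W.Defs

/-! # Module W.LinU: upper bounds (linear arithmetic)

Put `S` for the sum. Group the subsets with their complements.
`F3`: `1 + ∑ h(a_i)`, `h(a) = g1 a + g2 (S - a)`: `h = -1` for `a ≤ 5/12`, `h ≤ 1` always.
`F4`: `g1 a + g3 (S - a) ≤ -1` (four times), `g2 s + g2 (S - s) ≤ 1` (three times), `g4 S = 0`.
`F5`: all exponents are `≤ 1/3 + ..`: five primes give `-5`; `g4 = 0` on sums `≥ 2/3`; a pair and its complementary triple give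
`≤ w s`, `w = 1` if `s < 19/50`, `0` in `[19/50, 5/12)`, `-1` if `s ≥ 5/12`. Sorted `a ≤ b ≤ c ≤ d ≤ e` (so `e` largest): if `e + b ≥ 5/12` or `d + c ≥ 5/12` then three of the ten
`w` are `-1`: sum `≤ 4`. Otherwise `e + b, d + c > 7/12 - 3/2 κ - a > 19/50` (`a ≤ 1/5`); then cases `e + d`, `e + c` `≥ 5/12` or not, as in the note (sum `≤ 4`). -/

namespace Pool.Agent.HS

private lemma g0 (κ s : ℝ) : gE κ 0 s = 1 := by simp [gE]

private lemma g1_def (κ s : ℝ) :
    gE κ 1 s = if s ≤ 5 / 12 ∨ (1 / 2 - κ < s ∧ s ≤ 7 / 12) then -1 else 0 := by simp [gE]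

private lemma g2_def (κ s : ℝ) :
    gE κ 2 s = if s < 19 / 50 ∨ (1 / 2 < s ∧ s ≤ 7 / 12 - 2 * κ) then 1 else 0 := by simp [gE]

private lemma g3_def (κ s : ℝ) :
    gE κ 3 s = if 1 / 2 - κ < s ∧ s ≤ 7 / 12 then -1 else 0 := by simp [gE]

private lemma g4 (κ s : ℝ) : gE κ 4 s = 0 := by simp [gE]

private lemma g5 (κ s : ℝ) : gE κ 5 s = 0 := by simp [gE]

private lemma g1_nonpos (κ s : ℝ) : gE κ 1 s ≤ 0 := by
  rw [g1_def]; split_ifs <;> norm_num

private lemma g2_le (κ s : ℝ) : gE κ 2 s ≤ 1 := by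
  rw [g2_def]; split_ifs <;> norm_num

private lemma g3_nonpos (κ s : ℝ) : gE κ 3 s ≤ 0 := by
  rw [g3_def]; split_ifs <;> norm_num

private lemma g1_small {κ s : ℝ} (h : s ≤ 5 / 12) : gE κ 1 s = -1 := by
  rw [g1_def, if_pos (Or.inl h)]

private lemma g1_mid {κ s : ℝ} (h : 1 / 2 - κ < s) (h' : s ≤ 7 / 12) : gE κ 1 s = -1 := by
  rw [g1_def, if_pos (Or.inr ⟨h, h'⟩)]

private lemma g2_big {κ s : ℝ} (h0 : 19 / 50 ≤ s) (h : 7 / 12 - 2 * κ < s) : gE κ 2 s = 0 := by
  rw [g2_def, if_neg]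
  rintro (h1 | h1)
  · linarith
  · linarith [h1.2]

private lemma g2_mid {κ s : ℝ} (h0 : 19 / 50 ≤ s) (h : s ≤ 1 / 2) : gE κ 2 s = 0 := by
  rw [g2_def, if_neg]
  rintro (h1 | h1)
  · linarith
  · linarith [h1.1]

private lemma g3_mid {κ s : ℝ} (h : 1 / 2 - κ < s) (h' : s ≤ 7 / 12) : gE κ 3 s = -1 := by
  rw [g3_def, if_pos ⟨h, h'⟩]

private lemma h13 {κ a t : ℝ} (h0 : 0 ≤ κ) (h1 : κ ≤ 1 / 1000) (ha : a ≤ 1 / 2)
    (hS : 1 - 3 / 2 * κ < a + t) (hS1 : a + t ≤ 1) : gE κ 1 a + gE κ 3 t ≤ -1 := by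
  by_cases h : a ≤ 5 / 12
  · rw [g1_small h]; linarith [g3_nonpos κ t]
  · push Not at h
    by_cases h2 : 1 / 2 - κ < t
    · rw [g3_mid h2 (by linarith)]; linarith [g1_nonpos κ a]
    · push Not at h2
      rw [g1_mid (κ := κ) (by linarith) (by linarith)]; linarith [g3_nonpos κ t]

private lemma h22 {κ s t : ℝ} (h0 : 0 ≤ κ) (h1 : κ ≤ 1 / 1000)
    (hS : 1 - 3 / 2 * κ < s + t) (hS1 : s + t ≤ 1) : gE κ 2 s + gE κ 2 t ≤ 1 := by
  rw [g2_def, g2_def]
  split_ifs with h2 h3 h3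
  · exfalso
    rcases h2 with h2 | h2 <;> rcases h3 with h3 | h3
    · linarith
    · linarith [h3.2]
    · linarith [h2.2]
    · linarith [h2.1, h3.1]
  · norm_num
  · norm_num
  · norm_num

private lemma h12 {κ a t : ℝ} (h0 : 0 ≤ κ) (h1 : κ ≤ 1 / 1000) (ha : a ≤ 5 / 12)
    (hS : 1 - 3 / 2 * κ < a + t) : gE κ 1 a + gE κ 2 t ≤ -1 := by
  rw [g1_small ha, g2_big (by linarith) (by linarith)]; norm_num

private lemma w_le {κ s t : ℝ} : gE κ 2 s + gE κ 3 t ≤ 1 := by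
  linarith [g2_le κ s, g3_nonpos κ t]

private lemma w_le0 {κ s t : ℝ} (hs : 19 / 50 ≤ s) (hs' : s ≤ 1 / 2) :
    gE κ 2 s + gE κ 3 t ≤ 0 := by
  rw [g2_mid hs hs']; linarith [g3_nonpos κ t]

private lemma w_le1 {κ s t : ℝ} (hs : 5 / 12 ≤ s) (hs' : s ≤ 1 / 2) (hκ : 0 < κ)
    (ht : 1 / 2 ≤ t) (hS1 : s + t ≤ 1) : gE κ 2 s + gE κ 3 t ≤ -1 := by
  rw [g2_mid (by linarith) hs', g3_mid (κ := κ) (by linarith) (by linarith)]; norm_num

theorem F2_le (κ a b : ℝ) (h0 : 0 ≤ κ) (h1 : κ ≤ 1 / 1000) (ha : 1 / 6 ≤ a) (hab : a ≤ b)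
    (hS : 1 - 3 / 2 * κ < a + b) (hS1 : a + b ≤ 1) : Fr κ [a, b] 0 0 ≤ 0 := by
  simp only [Fr, zero_add, g0, Nat.reduceAdd]
  rw [g2_big (κ := κ) (s := a + b) (by linarith) (by linarith)]
  by_cases h : a ≤ 5 / 12
  · rw [g1_small h]; linarith [g1_nonpos κ b]
  · push Not at h
    rw [g1_mid (κ := κ) (s := b) (by linarith) (by linarith)]; linarith [g1_nonpos κ a]

theorem F3_le (κ a b c : ℝ) (h0 : 0 ≤ κ) (h1 : κ ≤ 1 / 1000) (ha : 1 / 6 ≤ a) (hab : a ≤ b)
    (hbc : b ≤ c) (hS : 1 - 3 / 2 * κ < a + b + c) (hS1 : a + b + c ≤ 1) :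
    Fr κ [a, b, c] 0 0 ≤ 0 := by
  simp only [Fr, zero_add, g0, Nat.reduceAdd]
  have e1 := h12 (κ := κ) (a := a) (t := b + c) h0 h1 (by linarith) (by linarith)
  have e2 := h12 (κ := κ) (a := b) (t := a + c) h0 h1 (by linarith) (by linarith)
  have e3 := g1_nonpos κ c
  have e4 := g2_le κ (a + b)
  have e5 := g3_nonpos κ (a + b + c)
  linarith

theorem F4_le (κ a b c d : ℝ) (h0 : 0 ≤ κ) (h1 : κ ≤ 1 / 1000) (ha : 1 / 6 ≤ a) (hab : a ≤ b)
    (hbc : b ≤ c) (hcd : c ≤ d) (hS : 1 - 3 / 2 * κ < a + b + c + d) (hS1 : a + b + c + d ≤ 1) :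
    Fr κ [a, b, c, d] 0 0 ≤ 0 := by
  simp only [Fr, zero_add, g0, g4, Nat.reduceAdd]
  have e1 := h13 (κ := κ) (a := a) (t := b + c + d) h0 h1 (by linarith) (by linarith) (by linarith)
  have e2 := h13 (κ := κ) (a := b) (t := a + c + d) h0 h1 (by linarith) (by linarith) (by linarith)
  have e3 := h13 (κ := κ) (a := c) (t := a + b + d) h0 h1 (by linarith) (by linarith) (by linarith)
  have e4 := h13 (κ := κ) (a := d) (t := a + b + c) h0 h1 (by linarith) (by linarith) (by linarith)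
  have f1 := h22 (κ := κ) (s := a + b) (t := c + d) h0 h1 (by linarith) (by linarith)
  have f2 := h22 (κ := κ) (s := a + c) (t := b + d) h0 h1 (by linarith) (by linarith)
  have f3 := h22 (κ := κ) (s := a + d) (t := b + c) h0 h1 (by linarith) (by linarith)
  linarith

theorem F5_le (κ a b c d e : ℝ) (h0 : 0 ≤ κ) (h1 : κ ≤ 1 / 1000) (ha : 1 / 6 ≤ a) (hab : a ≤ b)
    (hbc : b ≤ c) (hcd : c ≤ d) (hde : d ≤ e) (hS : 1 - 3 / 2 * κ < a + b + c + d + e)
    (hS1 : a + b + c + d + e ≤ 1) : Fr κ [a, b, c, d, e] 0 0 ≤ 0 := by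
  have hκ : 0 < κ := by linarith
  simp only [Fr, zero_add, g0, g4, g5, Nat.reduceAdd]
  have p1 := g1_small (κ := κ) (s := a) (by linarith)
  have p2 := g1_small (κ := κ) (s := b) (by linarith)
  have p3 := g1_small (κ := κ) (s := c) (by linarith)
  have p4 := g1_small (κ := κ) (s := d) (by linarith)
  have p5 := g1_small (κ := κ) (s := e) (by linarith)
  have u1 := w_le (κ := κ) (s := a + b) (t := c + d + e)
  have u2 := w_le (κ := κ) (s := a + c) (t := b + d + e)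
  have u3 := w_le (κ := κ) (s := a + d) (t := b + c + e)
  have u4 := w_le (κ := κ) (s := a + e) (t := b + c + d)
  have u5 := w_le (κ := κ) (s := b + c) (t := a + d + e)
  have u6 := w_le (κ := κ) (s := b + d) (t := a + c + e)
  have u7 := w_le (κ := κ) (s := b + e) (t := a + c + d)
  have u8 := w_le (κ := κ) (s := c + d) (t := a + b + e)
  have u9 := w_le (κ := κ) (s := c + e) (t := a + b + d)
  have u10 := w_le (κ := κ) (s := d + e) (t := a + b + c)
  by_cases k1 : 5 / 12 ≤ b + e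
  · have v7 := w_le1 (κ := κ) (s := b + e) (t := a + c + d) k1 (by linarith) hκ (by linarith)
      (by linarith)
    have v9 := w_le1 (κ := κ) (s := c + e) (t := a + b + d) (by linarith) (by linarith) hκ
      (by linarith) (by linarith)
    have v10 := w_le1 (κ := κ) (s := d + e) (t := a + b + c) (by linarith) (by linarith) hκ
      (by linarith) (by linarith)
    linarith
  by_cases k2 : 5 / 12 ≤ c + d
  · have v8 := w_le1 (κ := κ) (s := c + d) (t := a + b + e) k2 (by linarith) hκ (by linarith)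
      (by linarith)
    have v9 := w_le1 (κ := κ) (s := c + e) (t := a + b + d) (by linarith) (by linarith) hκ
      (by linarith) (by linarith)
    have v10 := w_le1 (κ := κ) (s := d + e) (t := a + b + c) (by linarith) (by linarith) hκ
      (by linarith) (by linarith)
    linarith
  push Not at k1 k2
  have v7 := w_le0 (κ := κ) (s := b + e) (t := a + c + d) (by linarith) (by linarith)
  have v8 := w_le0 (κ := κ) (s := c + d) (t := a + b + e) (by linarith) (by linarith)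
  have v9 := w_le0 (κ := κ) (s := c + e) (t := a + b + d) (by linarith) (by linarith)
  have v10 := w_le0 (κ := κ) (s := d + e) (t := a + b + c) (by linarith) (by linarith)
  by_cases k3 : 5 / 12 ≤ d + e
  · have x10 := w_le1 (κ := κ) (s := d + e) (t := a + b + c) k3 (by linarith) hκ (by linarith)
      (by linarith)
    by_cases k4 : 5 / 12 ≤ c + e
    · have x9 := w_le1 (κ := κ) (s := c + e) (t := a + b + d) k4 (by linarith) hκ (by linarith)
        (by linarith)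
      linarith
    · push Not at k4
      have x6 := w_le0 (κ := κ) (s := b + d) (t := a + c + e) (by linarith) (by linarith)
      linarith
  · push Not at k3
    have x5 := w_le0 (κ := κ) (s := b + c) (t := a + d + e) (by linarith) (by linarith)
    have x6 := w_le0 (κ := κ) (s := b + d) (t := a + c + e) (by linarith) (by linarith)
    linarith

end Pool.Agent.HS
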