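import Pool.Agent.Work.MP_92f640_nt.HS.W.Defs

/-! # Module W.Wt

`wt`: `cw x d ≠ 0` gives `gE ≠ 0`, so `ex x d ≤ 7/12` (or `d = 1`).
`wte`: `ex x (d t)` is nondecreasing in `t` (also from `t = 0`, `log 0 = 0`); for `κ ≤ 1/100` `gE κ j` is a combination of at most three indicators of half-lines. -/

namespace Pool.Agent.HS

open Finset

theorem gE_abs (κ : ℝ) (j : ℕ) (s : ℝ) : |gE κ j s| ≤ 1 := by
  unfold gE
  split_ifs <;> norm_num

theorem gE_le (κ : ℝ) (hκ : 0 ≤ κ) (j : ℕ) (s : ℝ) (h : gE κ j s ≠ 0) : j = 0 ∨ s ≤ 7 / 12 := by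
  by_contra hc
  push Not at hc
  apply h
  unfold gE
  rw [if_neg hc.1]
  have h1 := hc.2
  split_ifs with h2 h3 h4 h5 h6 h7
  · rcases h3 with h3 | h3
    · linarith
    · linarith [h3.2]
  · rfl
  · rcases h5 with h5 | h5
    · linarith
    · linarith [h5.2]
  · rfl
  · linarith [h7.2]
  · rfl
  · rfl

theorem kap_nonneg {x : ℕ} : 0 ≤ kap x :=
  div_nonneg (Real.log_nonneg (by norm_num)) (Real.log_natCast_nonneg x)

theorem kap_le {x : ℕ} (hx : 4 ^ 100 ≤ x) : kap x ≤ 1 / 100 := by
  have h4 : 0 < Real.log 4 := Real.log_pos (by norm_num)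
  have h1 : (100 : ℝ) * Real.log 4 ≤ Real.log x := by
    have h2 : Real.log ((4 : ℝ) ^ 100) = 100 * Real.log 4 := by
      rw [Real.log_pow]
      norm_num
    rw [← h2]
    exact Real.log_le_log (by positivity) (by exact_mod_cast hx)
  unfold kap
  rw [div_le_div_iff₀ (by linarith) (by norm_num)]
  linarith

theorem cw_wt : ∃ x₁ : ℕ, ∀ x : ℕ, x₁ ≤ x →
    Wt (zx (5 / 6) x) ⌈(x : ℝ) ^ (1 - (5 / 6 : ℝ) / 2)⌉₊ (cw x) := by
  refine ⟨3, fun x hx => ⟨?_, ?_, ?_⟩⟩
  · intro d hd
    by_contra hc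
    apply hd
    unfold cw
    exact if_neg hc
  · intro d hd
    have hR : Rough (zx (5 / 6) x) d := by
      by_contra hc
      apply hd
      unfold cw
      rw [if_neg hc]
    unfold cw at hd
    rw [if_pos hR] at hd
    have hx1 : (1 : ℝ) ≤ x := by exact_mod_cast (by omega : 1 ≤ x)
    have hx0 : (0 : ℝ) < x := by linarith
    have hlx : 0 < Real.log x := Real.log_pos (by exact_mod_cast (by omega : 1 < x))
    have hd0 : d ≠ 0 := hR.1.ne_zero
    have hdpos : (0 : ℝ) < d := by exact_mod_cast Nat.pos_of_ne_zero hd0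
    have key : (d : ℝ) ≤ (x : ℝ) ^ (1 - (5 / 6 : ℝ) / 2) := by
      rcases gE_le _ kap_nonneg _ _ hd with h | h
      · rw [card_eq_zero, Nat.primeFactors_eq_empty] at h
        rcases h with h | h
        · exact absurd h hd0
        · rw [h, Nat.cast_one]
          exact Real.one_le_rpow hx1 (by norm_num)
      · unfold ex at h
        rw [div_le_iff₀ hlx] at h
        rw [← Real.log_le_log_iff hdpos (by positivity), Real.log_rpow hx0]
        linarith
    exact_mod_cast key.trans (Nat.le_ceil _)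
  · intro d
    unfold cw
    split_ifs
    · exact gE_abs _ _ _
    · norm_num

theorem tv_mono (f : ℕ → ℝ) (hf : ∀ t, f t ≤ f (t + 1)) (h0 : ∀ t, 0 ≤ f t) (h1 : ∀ t, f t ≤ 1)
    (N : ℕ) : ∑ t ∈ range N, |f (t + 1) - f t| ≤ 1 := by
  have : ∑ t ∈ range N, |f (t + 1) - f t| = f N - f 0 := by
    rw [← sum_range_sub]
    exact sum_congr rfl fun t _ => abs_of_nonneg (sub_nonneg.2 (hf t))
  rw [this]
  linarith [h0 0, h1 N]

open Classical in
/-- indicator of `s > c` along a sequence -/
theorem tv_gt (s : ℕ → ℝ) (hs : ∀ t, s t ≤ s (t + 1)) (P : ℝ → Prop)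
    (hP : ∀ a b, a ≤ b → P a → P b) (N : ℕ) :
    ∑ t ∈ range N, |(if P (s (t + 1)) then (1 : ℝ) else 0) - (if P (s t) then 1 else 0)| ≤ 1 := by
  refine tv_mono (fun t => if P (s t) then (1 : ℝ) else 0) ?_ ?_ ?_ N
  · intro t
    by_cases h : P (s t)
    · simp only [if_pos h, if_pos (hP _ _ (hs t) h)]
      exact le_refl _
    · simp only [if_neg h]
      split_ifs <;> norm_num
  · intro t
    split_ifs <;> norm_num
  · intro t
    split_ifs <;> norm_num

open Classical in
theorem tv_three (s : ℕ → ℝ) (hs : ∀ t, s t ≤ s (t + 1)) (P Q R : ℝ → Prop)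
    (hP : ∀ a b, a ≤ b → P a → P b) (hQ : ∀ a b, a ≤ b → Q a → Q b)
    (hR : ∀ a b, a ≤ b → R a → R b) (c0 c1 c2 c3 : ℝ) (h1 : |c1| ≤ 1) (h2 : |c2| ≤ 1)
    (h3 : |c3| ≤ 1) (g : ℝ → ℝ) (hg : ∀ a, g a = c0 + c1 * (if P a then 1 else 0) +
      c2 * (if Q a then 1 else 0) + c3 * (if R a then 1 else 0)) (N : ℕ) :
    ∑ t ∈ range N, |g (s (t + 1)) - g (s t)| ≤ 3 := by
  have b1 := tv_gt s hs P hP N
  have b2 := tv_gt s hs Q hQ N
  have b3 := tv_gt s hs R hR N
  have : ∑ t ∈ range N, |g (s (t + 1)) - g (s t)| ≤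
      ∑ t ∈ range N, (|(if P (s (t + 1)) then (1 : ℝ) else 0) - (if P (s t) then 1 else 0)| +
        |(if Q (s (t + 1)) then (1 : ℝ) else 0) - (if Q (s t) then 1 else 0)| +
        |(if R (s (t + 1)) then (1 : ℝ) else 0) - (if R (s t) then 1 else 0)|) := by
    refine sum_le_sum fun t _ => ?_
    rw [hg, hg]
    set p := (if P (s (t + 1)) then (1 : ℝ) else 0) - (if P (s t) then 1 else 0)
    set q := (if Q (s (t + 1)) then (1 : ℝ) else 0) - (if Q (s t) then 1 else 0)
    set r := (if R (s (t + 1)) then (1 : ℝ) else 0) - (if R (s t) then 1 else 0)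
    have e : c0 + c1 * (if P (s (t + 1)) then (1 : ℝ) else 0) +
        c2 * (if Q (s (t + 1)) then 1 else 0) + c3 * (if R (s (t + 1)) then 1 else 0) -
        (c0 + c1 * (if P (s t) then (1 : ℝ) else 0) + c2 * (if Q (s t) then 1 else 0) +
          c3 * (if R (s t) then 1 else 0)) = c1 * p + c2 * q + c3 * r := by
      ring
    rw [e]
    refine (abs_add_le _ _).trans (add_le_add ((abs_add_le _ _).trans (add_le_add ?_ ?_)) ?_)
    · rw [abs_mul]
      exact mul_le_of_le_one_left (abs_nonneg _) h1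
    · rw [abs_mul]
      exact mul_le_of_le_one_left (abs_nonneg _) h2
    · rw [abs_mul]
      exact mul_le_of_le_one_left (abs_nonneg _) h3
  rw [sum_add_distrib, sum_add_distrib] at this
  linarith

theorem gE_tv (κ : ℝ) (h0 : 0 ≤ κ) (h1 : κ ≤ 1 / 100) (j : ℕ) (s : ℕ → ℝ)
    (hs : ∀ t, s t ≤ s (t + 1)) (N : ℕ) :
    ∑ t ∈ range N, |gE κ (j + 1) (s (t + 1)) - gE κ (j + 1) (s t)| ≤ 3 := by
  rcases j with _ | _ | _ | j
  · refine tv_three s hs (fun a => 5 / 12 < a) (fun a => 1 / 2 - κ < a) (fun a => 7 / 12 < a)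
      (fun a b h h' => lt_of_lt_of_le h' h) (fun a b h h' => lt_of_lt_of_le h' h)
      (fun a b h h' => lt_of_lt_of_le h' h) (-1) 1 (-1) 1 (by norm_num) (by norm_num)
      (by norm_num) (gE κ (0 + 1)) ?_ N
    intro a
    unfold gE
    rw [if_neg (by norm_num), if_pos (by norm_num)]
    by_cases a1 : 5 / 12 < a
    · by_cases a2 : 1 / 2 - κ < a
      · by_cases a3 : 7 / 12 < a
        · rw [if_neg (by rintro (h | h) <;> [linarith; linarith [h.2]]), if_pos a1, if_pos a2,
            if_pos a3]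
          norm_num
        · rw [if_pos (Or.inr ⟨a2, not_lt.1 a3⟩), if_pos a1, if_pos a2, if_neg a3]
          norm_num
      · have a3 : ¬ 7 / 12 < a := by
          intro h
          exact a2 (by linarith)
        rw [if_neg (by rintro (h | h) <;> [linarith; exact a2 h.1]), if_pos a1, if_neg a2,
          if_neg a3]
        norm_num
    · have a2 : ¬ 1 / 2 - κ < a := by
        intro h
        exact a1 (by linarith)
      have a3 : ¬ 7 / 12 < a := by
        intro h
        exact a1 (by linarith)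
      rw [if_pos (Or.inl (not_lt.1 a1)), if_neg a1, if_neg a2, if_neg a3]
      norm_num
  · refine tv_three s hs (fun a => 19 / 50 ≤ a) (fun a => 1 / 2 < a) (fun a => 7 / 12 - 2 * κ < a)
      (fun a b h h' => le_trans h' h) (fun a b h h' => lt_of_lt_of_le h' h)
      (fun a b h h' => lt_of_lt_of_le h' h) 1 (-1) 1 (-1) (by norm_num) (by norm_num)
      (by norm_num) (gE κ (0 + 1 + 1)) ?_ N
    intro a
    unfold gE
    rw [if_neg (by norm_num), if_neg (by norm_num), if_pos (by norm_num)]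
    by_cases a1 : 19 / 50 ≤ a
    · by_cases a2 : 1 / 2 < a
      · by_cases a3 : 7 / 12 - 2 * κ < a
        · rw [if_neg (by rintro (h | h) <;> [linarith; linarith [h.2]]), if_pos a1, if_pos a2,
            if_pos a3]
          norm_num
        · rw [if_pos (Or.inr ⟨a2, not_lt.1 a3⟩), if_pos a1, if_pos a2, if_neg a3]
          norm_num
      · have a3 : ¬ 7 / 12 - 2 * κ < a := by
          intro h
          exact a2 (by linarith)
        rw [if_neg (by rintro (h | h) <;> [linarith; exact a2 h.1]), if_pos a1, if_neg a2,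
          if_neg a3]
        norm_num
    · have a2 : ¬ 1 / 2 < a := by
        intro h
        exact a1 (by linarith)
      have a3 : ¬ 7 / 12 - 2 * κ < a := by
        intro h
        exact a1 (by linarith)
      rw [if_pos (Or.inl (not_le.1 a1)), if_neg a1, if_neg a2, if_neg a3]
      norm_num
  · refine tv_three s hs (fun a => 1 / 2 - κ < a) (fun a => 7 / 12 < a) (fun a => 7 / 12 < a)
      (fun a b h h' => lt_of_lt_of_le h' h) (fun a b h h' => lt_of_lt_of_le h' h)
      (fun a b h h' => lt_of_lt_of_le h' h) 0 (-1) 1 0 (by norm_num) (by norm_num)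
      (by norm_num) (gE κ (0 + 1 + 1 + 1)) ?_ N
    intro a
    unfold gE
    rw [if_neg (by norm_num), if_neg (by norm_num), if_neg (by norm_num), if_pos (by norm_num)]
    by_cases a2 : 1 / 2 - κ < a
    · by_cases a3 : 7 / 12 < a
      · rw [if_neg (by rintro h; linarith [h.2]), if_pos a2, if_pos a3]
        norm_num
      · rw [if_pos ⟨a2, not_lt.1 a3⟩, if_pos a2, if_neg a3]
        norm_num
    · have a3 : ¬ 7 / 12 < a := by
        intro h
        exact a2 (by linarith)
      rw [if_neg (by rintro h; exact a2 h.1), if_neg a2, if_neg a3]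
      norm_num
  · have : ∀ a, gE κ (j + 1 + 1 + 1 + 1) a = 0 := by
      intro a
      unfold gE
      rw [if_neg (by omega), if_neg (by omega), if_neg (by omega), if_neg (by omega)]
    simp only [this, sub_self, abs_zero, sum_const_zero]
    norm_num

theorem ex_mono (x d : ℕ) (t : ℕ) : ex x (d * t) ≤ ex x (d * (t + 1)) := by
  unfold ex
  refine div_le_div_of_nonneg_right ?_ (Real.log_natCast_nonneg x)
  rcases Nat.eq_zero_or_pos (d * t) with h | h
  · rw [h, Nat.cast_zero, Real.log_zero]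
    exact Real.log_natCast_nonneg _
  · refine Real.log_le_log (by exact_mod_cast h) ?_
    exact_mod_cast Nat.mul_le_mul_left d (Nat.le_succ t)

theorem cw_wte : ∃ x₁ : ℕ, ∀ x : ℕ, x₁ ≤ x → WtE (zx (5 / 6) x) 4 (cw x) (Ew x) := by
  refine ⟨4 ^ 100, fun x hx => ⟨?_, ?_, ?_⟩⟩
  · intro d t
    unfold Ew
    split_ifs
    · exact gE_abs _ _ _
    · norm_num
  · intro d p hd hr hp hz hpd
    have hcop : Nat.Coprime d p := ((Nat.Prime.coprime_iff_not_dvd hp).2 hpd).symm
    have hR : Rough (zx (5 / 6) x) d := ⟨hd, hr⟩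
    have hR' : Rough (zx (5 / 6) x) (d * p) := by
      refine ⟨(Nat.squarefree_mul hcop).2 ⟨hd, hp.squarefree⟩, fun p' hp' h' => ?_⟩
      rcases (Nat.Prime.dvd_mul hp').1 h' with h1 | h1
      · exact hr p' hp' h1
      · rw [(Nat.prime_dvd_prime_iff_eq hp' hp).1 h1]
        exact hz
    have hcard : (d * p).primeFactors.card = d.primeFactors.card + 1 := by
      rw [hcop.primeFactors_mul, hp.primeFactors, card_union_of_disjoint, card_singleton]
      rw [disjoint_singleton_right]
      exact fun h => hpd (Nat.dvd_of_mem_primeFactors h)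
    unfold Ew cw
    rw [if_pos hR, if_pos hR', hcard]
  · intro d N
    unfold Ew
    by_cases hR : Rough (zx (5 / 6) x) d
    · simp only [if_pos hR]
      have := gE_tv (kap x) kap_nonneg (kap_le hx) d.primeFactors.card (fun t => ex x (d * t))
        (ex_mono x d) N
      linarith
    · simp only [if_neg hR, sub_self, abs_zero, sum_const_zero]
      norm_num

end Pool.Agent.HS
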