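import Pool.Agent.Work.MP_92f640_nt.HS.Basic
import Pool.Agent.Work.MP_92f640_nt.HS.W.Wt
import Pool.Agent.Work.MP_92f640_nt.HS.W.LinU

/-! # Module W.Div: divisor sums as `Fr`, and the minorant property

`sum_gE`: induction on `l`: the divisors of `p m` are those of `m` and `p` times those of `m`.
`minor56`: `n` composite, `aa ≠ 0`: `n` squarefree `z`-rough, `n = p₁ ⋯ p_k` sorted, `2 ≤ k ≤ 5` (`z⁶ ≥ x`), `aa_eq`, `sum_gE`, `F2_le` - `F5_le`; `S = ex x n > 1 - 3/2 κ` as `n > x/8`. -/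

namespace Pool.Agent.HS

open Finset

namespace Dv

theorem ex_one' (x : ℕ) : ex x 1 = 0 := by
  unfold ex
  rw [Nat.cast_one, Real.log_one, zero_div]

theorem ex_mul' (x : ℕ) {m n : ℕ} (hm : m ≠ 0) (hn : n ≠ 0) : ex x (m * n) = ex x m + ex x n := by
  unfold ex
  rw [Nat.cast_mul, Real.log_mul (Nat.cast_ne_zero.2 hm) (Nat.cast_ne_zero.2 hn), add_div]

theorem prod_ne' {l : List ℕ} (hp : ∀ p ∈ l, p.Prime) : l.prod ≠ 0 :=
  List.prod_ne_zero fun h => Nat.not_prime_zero (hp 0 h)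

theorem ex_prod' (x : ℕ) (l : List ℕ) (hp : ∀ p ∈ l, p.Prime) :
    ex x l.prod = (l.map (ex x)).sum := by
  induction l with
  | nil => simp [ex_one']
  | cons a l ih =>
    have h1 : ∀ p ∈ l, p.Prime := fun p h => hp p (List.mem_cons_of_mem _ h)
    rw [List.prod_cons, List.map_cons, List.sum_cons,
      ex_mul' x (hp a (List.mem_cons_self ..)).ne_zero (prod_ne' h1), ih h1]

theorem card_pf_mul {d p : ℕ} (hp : p.Prime) (hpd : ¬ p ∣ d) :
    (d * p).primeFactors.card = d.primeFactors.card + 1 := by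
  have hcop : Nat.Coprime d p := ((Nat.Prime.coprime_iff_not_dvd hp).2 hpd).symm
  rw [hcop.primeFactors_mul, hp.primeFactors, card_union_of_disjoint, card_singleton]
  rw [disjoint_singleton_right, Nat.mem_primeFactors]
  exact fun h => hpd h.2.1

theorem not_dvd_prod' {a : ℕ} {l : List ℕ} (ha : a.Prime) (hp : ∀ p ∈ l, p.Prime) (h : a ∉ l) :
    ¬ a ∣ l.prod := by
  intro h1
  rw [(Nat.prime_iff.1 ha).dvd_prod_iff] at h1
  obtain ⟨b, hb, hab⟩ := h1
  rw [(Nat.prime_dvd_prime_iff_eq ha (hp b hb))] at hab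
  exact h (hab ▸ hb)

end Dv

open Dv

theorem sum_gE (κ : ℝ) (x : ℕ) (l : List ℕ) (hp : ∀ p ∈ l, p.Prime) (hd : l.Nodup) (j : ℕ) (s : ℝ) :
    ∑ d ∈ l.prod.divisors, gE κ (j + d.primeFactors.card) (s + ex x d) =
      Fr κ (l.map (ex x)) j s := by
  induction l generalizing j s with
  | nil => simp [ex_one', Fr]
  | cons a l ih =>
    have h1 : ∀ p ∈ l, p.Prime := fun p h => hp p (List.mem_cons_of_mem _ h)
    have ha : a.Prime := hp a (List.mem_cons_self ..)
    have hd' := List.nodup_cons.1 hd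
    have hnd := not_dvd_prod' ha h1 hd'.1
    rw [List.prod_cons, mul_comm, divisors_mul_prime (prod_ne' h1) ha hnd, sum_add_distrib,
      List.map_cons, Fr, ← ih h1 hd'.2, ← ih h1 hd'.2]
    congr 1
    refine sum_congr rfl fun d hdm => ?_
    have hdv := Nat.dvd_of_mem_divisors hdm
    have hd0 : d ≠ 0 := fun h => by
      rw [h, zero_dvd_iff] at hdv
      exact prod_ne' h1 hdv
    rw [card_pf_mul ha (fun h => hnd (h.trans hdv)), ex_mul' x hd0 ha.ne_zero]
    congr 1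
    · omega
    · ring

namespace Dv

theorem rough_prod {z : ℕ} {l : List ℕ} (hp : ∀ p ∈ l, p.Prime) (hz : ∀ p ∈ l, z ≤ p)
    (hd : l.Nodup) : Rough z l.prod := by
  induction l with
  | nil =>
    rw [List.prod_nil]
    refine ⟨squarefree_one, fun p h1 h2 => ?_⟩
    exact absurd (Nat.dvd_one.1 h2) h1.ne_one
  | cons a l ih =>
    have h1 : ∀ p ∈ l, p.Prime := fun p h => hp p (List.mem_cons_of_mem _ h)
    have ha : a.Prime := hp a (List.mem_cons_self ..)
    have hd' := List.nodup_cons.1 hd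
    have hnd := not_dvd_prod' ha h1 hd'.1
    obtain ⟨h2, h3⟩ := ih h1 (fun p h => hz p (List.mem_cons_of_mem _ h)) hd'.2
    rw [List.prod_cons]
    refine ⟨(Nat.squarefree_mul ((Nat.Prime.coprime_iff_not_dvd ha).2 hnd)).2 ⟨ha.squarefree, h2⟩,
      fun p h4 h5 => ?_⟩
    rcases (Nat.Prime.dvd_mul h4).1 h5 with h6 | h6
    · rw [(Nat.prime_dvd_prime_iff_eq h4 ha).1 h6]
      exact hz a (List.mem_cons_self ..)
    · exact h3 p h4 h6

theorem rough_dvd {z m d : ℕ} (h : Rough z m) (hd : d ∣ m) : Rough z d :=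
  ⟨Squarefree.squarefree_of_dvd hd h.1, fun p h1 h2 => h.2 p h1 (h2.trans hd)⟩

theorem cw_rough {x d : ℕ} (h : Rough (zx (5 / 6) x) d) :
    cw x d = gE (kap x) d.primeFactors.card (ex x d) := by
  unfold cw
  rw [if_pos h]

theorem Ew_rough {x d : ℕ} (h : Rough (zx (5 / 6) x) d) (t : ℕ) :
    Ew x d t = gE (kap x) (d.primeFactors.card + 1) (ex x (d * t)) := by
  unfold Ew
  rw [if_pos h]

/-- sum of the weights over the divisors of a rough squarefree integer -/
theorem sum_cw (x : ℕ) (l : List ℕ) (hp : ∀ p ∈ l, p.Prime) (hz : ∀ p ∈ l, zx (5 / 6) x ≤ p)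
    (hd : l.Nodup) : ∑ d ∈ l.prod.divisors, cw x d = Fr (kap x) (l.map (ex x)) 0 0 := by
  rw [← sum_gE (kap x) x l hp hd 0 0]
  refine sum_congr rfl fun d hdm => ?_
  rw [cw_rough (rough_dvd (rough_prod hp hz hd) (Nat.dvd_of_mem_divisors hdm)), zero_add, zero_add]

end Dv

/-- the density sum as `Fr` -/
theorem psi_Fr (x : ℕ) (l : List ℕ) (hp : ∀ p ∈ l, p.Prime) (hz : ∀ p ∈ l, zx (5 / 6) x ≤ p)
    (hd : l.Nodup) (t : ℕ) (ht : 1 ≤ t) :
    ∑ d ∈ l.prod.divisors, (cw x d + Ew x d t) = Fr (kap x) (ex x t :: l.map (ex x)) 0 0 := by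
  rw [sum_add_distrib, sum_cw x l hp hz hd, Fr, ← sum_gE (kap x) x l hp hd (0 + 1) (0 + ex x t)]
  congr 1
  refine sum_congr rfl fun d hdm => ?_
  have hR := rough_dvd (rough_prod hp hz hd) (Nat.dvd_of_mem_divisors hdm)
  rw [Ew_rough hR, ex_mul' x hR.1.ne_zero (by omega), zero_add, zero_add, add_comm (ex x d),
    add_comm _ 1]

namespace Dv

theorem ex_ge_sixth {x p : ℕ} (hx : 2 ≤ x) (hp : zx (5 / 6) x ≤ p) : 1 / 6 ≤ ex x p := by
  have hx1 : (1 : ℝ) < x := by exact_mod_cast (by omega : 1 < x)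
  have hL := Real.log_pos hx1
  have h1 : (x : ℝ) ^ (1 - (5 / 6 : ℝ)) ≤ p := by
    have h2 : (zx (5 / 6) x : ℝ) ≤ p := by exact_mod_cast hp
    exact (Nat.le_ceil _).trans h2
  have h3 : 0 < (x : ℝ) ^ (1 - (5 / 6 : ℝ)) := Real.rpow_pos_of_pos (by linarith) _
  unfold ex
  rw [le_div_iff₀ hL]
  calc 1 / 6 * Real.log x = Real.log ((x : ℝ) ^ (1 - (5 / 6 : ℝ))) := by
        rw [Real.log_rpow (by linarith)]
        ring
    _ ≤ Real.log p := Real.log_le_log h3 h1

theorem ex_le_one {x n : ℕ} (hx : 2 ≤ x) (hn : n ≤ x) : ex x n ≤ 1 := by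
  have hx1 : (1 : ℝ) < x := by exact_mod_cast (by omega : 1 < x)
  have hL := Real.log_pos hx1
  unfold ex
  rw [div_le_one hL]
  rcases Nat.eq_zero_or_pos n with h0 | h0
  · rw [h0, Nat.cast_zero, Real.log_zero]
    exact hL.le
  · exact Real.log_le_log (by exact_mod_cast h0) (by exact_mod_cast hn)

theorem ex_gt_of {x n : ℕ} (hx : 2 ≤ x) (hn : x / 8 < n) : 1 - 3 / 2 * kap x < ex x n := by
  have hx1 : (1 : ℝ) < x := by exact_mod_cast (by omega : 1 < x)
  have hL := Real.log_pos hx1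
  have h1 : (x : ℝ) < 8 * n := by exact_mod_cast (by omega : x < 8 * n)
  have hn0 : (0 : ℝ) < n := by exact_mod_cast (by omega : 0 < n)
  have h2 : Real.log x < Real.log 8 + Real.log n := by
    rw [← Real.log_mul (by norm_num) hn0.ne']
    exact Real.log_lt_log (by linarith) h1
  have h3 : Real.log 8 = 3 * Real.log 2 := by
    rw [show (8 : ℝ) = 2 ^ 3 by norm_num, Real.log_pow]
    norm_num
  have h4 : Real.log 4 = 2 * Real.log 2 := by
    rw [show (4 : ℝ) = 2 ^ 2 by norm_num, Real.log_pow]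
    norm_num
  unfold ex kap
  rw [show 1 - 3 / 2 * (Real.log 4 / Real.log x) = (Real.log x - 3 / 2 * Real.log 4) / Real.log x by
    field_simp]
  rw [div_lt_div_iff_of_pos_right hL]
  linarith

theorem kap_nn (x : ℕ) : 0 ≤ kap x := by
  unfold kap
  rcases Nat.eq_zero_or_pos x with h0 | h0
  · rw [h0, Nat.cast_zero, Real.log_zero, div_zero]
  · exact div_nonneg (Real.log_nonneg (by norm_num)) (Real.log_nonneg (by exact_mod_cast h0))

theorem kap_small (c : ℝ) (hc : 0 < c) : ∃ x₁ : ℕ, ∀ x : ℕ, x₁ ≤ x → kap x ≤ c := by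
  refine ⟨⌈Real.exp (Real.log 4 / c)⌉₊, fun x hx => ?_⟩
  have h4 : 0 < Real.log 4 := Real.log_pos (by norm_num)
  have h1 : Real.exp (Real.log 4 / c) ≤ x := by
    calc Real.exp (Real.log 4 / c) ≤ (⌈Real.exp (Real.log 4 / c)⌉₊ : ℝ) := Nat.le_ceil _
      _ ≤ x := by exact_mod_cast hx
  have h2 : Real.log 4 / c ≤ Real.log x := by
    rw [← Real.log_exp (Real.log 4 / c)]
    exact Real.log_le_log (Real.exp_pos _) h1
  have h3 : 0 < Real.log x := lt_of_lt_of_le (div_pos h4 hc) h2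
  unfold kap
  rw [div_le_iff₀ h3, mul_comm]
  rwa [div_le_iff₀ hc] at h2

theorem ex_mono' {x m n : ℕ} (hm : 1 ≤ m) (h : m ≤ n) : ex x m ≤ ex x n := by
  unfold ex
  rcases Nat.eq_zero_or_pos x with h0 | h0
  · rw [h0, Nat.cast_zero, Real.log_zero, div_zero, div_zero]
  · refine div_le_div_of_nonneg_right ?_ (Real.log_nonneg (by exact_mod_cast h0))
    exact Real.log_le_log (by exact_mod_cast hm) (by exact_mod_cast h)

theorem ex_lt {x m n : ℕ} (hx : 2 ≤ x) (hm : 1 ≤ m) (h : m < n) : ex x m < ex x n := by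
  have hx1 : (1 : ℝ) < x := by exact_mod_cast (by omega : 1 < x)
  have hL := Real.log_pos hx1
  unfold ex
  rw [div_lt_div_iff_of_pos_right hL]
  exact Real.log_lt_log (by exact_mod_cast hm) (by exact_mod_cast h)

theorem sum_ge_sixth {x : ℕ} (hx : 2 ≤ x) (l : List ℕ) (hz : ∀ p ∈ l, zx (5 / 6) x ≤ p) :
    0 ≤ (l.map (ex x)).sum := by
  refine List.sum_nonneg fun y hy => ?_
  obtain ⟨p, h1, rfl⟩ := List.mem_map.1 hy
  have := ex_ge_sixth hx (hz p h1)
  linarith

end Dv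

theorem minor56 : ∃ x₁ : ℕ, ∀ x : ℕ, x₁ ≤ x → ∀ n : ℕ, x / 8 < n → n ≤ x →
    aa (cw x) (zx (5 / 6) x) n ≤ if n.Prime then 1 else 0 := by
  obtain ⟨x1, hx1⟩ := cw_wt
  obtain ⟨x2, hx2⟩ := kap_small (1 / 1000) (by norm_num)
  refine ⟨x1 + x2 + 16, fun x hx n hn1 hn2 => ?_⟩
  have hW := hx1 x (by omega)
  have hκ := hx2 x (by omega)
  have hκ0 := kap_nn x
  have hx2' : 2 ≤ x := by omega
  by_cases h0 : aa (cw x) (zx (5 / 6) x) n = 0
  · rw [h0]
    split_ifs <;> norm_num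
  have hr := aa_rough _ _ _ hW n h0
  have hs : Squarefree n := by
    by_contra hs
    apply h0
    unfold aa
    rw [if_neg hs]
  have hn0 : n ≠ 0 := hs.ne_zero
  have hn1' : n ≠ 1 := by omega
  obtain ⟨l, hl⟩ : ∃ l, l = n.primeFactorsList := ⟨_, rfl⟩
  have hp : ∀ p ∈ l, p.Prime := fun p h => Nat.prime_of_mem_primeFactorsList (hl ▸ h)
  have hprod : l.prod = n := by rw [hl, Nat.prod_primeFactorsList hn0]
  have hnd : l.Nodup := hl ▸ hs.nodup_primeFactorsList
  have hz : ∀ p ∈ l, zx (5 / 6) x ≤ p := fun p h =>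
    hr p (hp p h) (Nat.dvd_of_mem_primeFactorsList (hl ▸ h))
  have hsort : l.Pairwise (· ≤ ·) := hl ▸ (Nat.primeFactorsList_sorted n).pairwise
  have hval : aa (cw x) (zx (5 / 6) x) n = Fr (kap x) (l.map (ex x)) 0 0 := by
    rw [aa_eq _ _ n hs hr, ← sum_cw x l hp hz hnd, hprod]
  have hS : 1 - 3 / 2 * kap x < (l.map (ex x)).sum := by
    rw [← ex_prod' x l hp, hprod]
    exact ex_gt_of hx2' hn1
  have hS1 : (l.map (ex x)).sum ≤ 1 := by
    rw [← ex_prod' x l hp, hprod]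
    exact ex_le_one hx2' hn2
  rw [hval]
  clear hval h0
  rcases l with _ | ⟨a, l⟩
  · exact absurd hprod.symm hn1'
  have ha := ex_ge_sixth hx2' (hz a (by simp))
  have ha1 := (hp a (by simp)).one_le
  rcases l with _ | ⟨b, l⟩
  · have hnp : n.Prime := by
      have h1 : a = n := by simpa using hprod
      rw [← h1]
      exact hp a (by simp)
    rw [if_pos hnp]
    simp only [List.map_cons, List.map_nil, Fr, gE]
    norm_num
    split_ifs <;> norm_num
  have hnp : ¬ n.Prime := by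
    rw [← hprod, List.prod_cons, List.prod_cons]
    refine Nat.not_prime_mul (hp a (by simp)).ne_one ?_
    intro h1
    exact (hp b (by simp)).ne_one (Nat.dvd_one.1 ⟨_, h1.symm⟩)
  rw [if_neg hnp]
  have hb := ex_ge_sixth hx2' (hz b (by simp))
  have hb1 := (hp b (by simp)).one_le
  have hab : a ≤ b := (List.pairwise_cons.1 hsort).1 b (by simp)
  have hab' := ex_mono' (x := x) ha1 hab
  rcases l with _ | ⟨c, l⟩
  · simp only [List.map_cons, List.map_nil, List.sum_cons, List.sum_nil, add_zero] at hS hS1 ⊢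
    exact F2_le (kap x) _ _ hκ0 hκ ha hab' hS hS1
  have hc := ex_ge_sixth hx2' (hz c (by simp))
  have hc1 := (hp c (by simp)).one_le
  have hs2 := (List.pairwise_cons.1 hsort).2
  have hbc : b ≤ c := (List.pairwise_cons.1 hs2).1 c (by simp)
  have hbc' := ex_mono' (x := x) hb1 hbc
  rcases l with _ | ⟨d, l⟩
  · simp only [List.map_cons, List.map_nil, List.sum_cons, List.sum_nil, add_zero] at hS hS1 ⊢
    exact F3_le (kap x) _ _ _ hκ0 hκ ha hab' hbc' (by linarith) (by linarith)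
  have hd := ex_ge_sixth hx2' (hz d (by simp))
  have hd1 := (hp d (by simp)).one_le
  have hs3 := (List.pairwise_cons.1 hs2).2
  have hcd : c ≤ d := (List.pairwise_cons.1 hs3).1 d (by simp)
  have hcd' := ex_mono' (x := x) hc1 hcd
  rcases l with _ | ⟨e, l⟩
  · simp only [List.map_cons, List.map_nil, List.sum_cons, List.sum_nil, add_zero] at hS hS1 ⊢
    exact F4_le (kap x) _ _ _ _ hκ0 hκ ha hab' hbc' hcd' (by linarith) (by linarith)
  have he := ex_ge_sixth hx2' (hz e (by simp))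
  have he1 := (hp e (by simp)).one_le
  have hs4 := (List.pairwise_cons.1 hs3).2
  have hde : d ≤ e := (List.pairwise_cons.1 hs4).1 e (by simp)
  have hde' := ex_mono' (x := x) hd1 hde
  rcases l with _ | ⟨f, l⟩
  · simp only [List.map_cons, List.map_nil, List.sum_cons, List.sum_nil, add_zero] at hS hS1 ⊢
    exact F5_le (kap x) _ _ _ _ _ hκ0 hκ ha hab' hbc' hcd' hde' (by linarith) (by linarith)
  exfalso
  have hf := ex_ge_sixth hx2' (hz f (by simp))
  have hs5 := (List.pairwise_cons.1 hs4).2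
  have hef : e ≤ f := (List.pairwise_cons.1 hs5).1 f (by simp)
  have hne : e ≠ f := by
    intro h
    have h1 : (e :: f :: l).Nodup := by
      have h2 := (List.nodup_cons.1 hnd).2
      have h3 := (List.nodup_cons.1 h2).2
      have h4 := (List.nodup_cons.1 h3).2
      exact (List.nodup_cons.1 h4).2
    exact (List.nodup_cons.1 h1).1 (by rw [h]; simp)
  have hef' := ex_lt (x := x) hx2' he1 (by omega : e < f)
  have hrest := sum_ge_sixth hx2' l (fun p h => hz p (by simp [h]))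
  simp only [List.map_cons, List.sum_cons] at hS1
  linarith

end Pool.Agent.HS
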