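import Pool.Agent.Work.MP_92f640_nt.HS.VLow
import Pool.Agent.Work.MP_92f640_nt.HS.W.Defs

/-! # Module W.Mer: uniform Mertens, Riemann sums, logarithms

`mer`: from `mertens_two` (HS/VLow). `mer_sum`: cover by the intervals of the list. `log_pade`: derivative. -/

namespace Pool.Agent.HS

open Finset Pool.Agent.HL

theorem ex_le_one {x p : ℕ} (hx : 2 ≤ x) (hp : p ∈ Icc 1 x) : ex x p ≤ 1 := by
  rw [mem_Icc] at hp
  have hlx : 0 < Real.log x := Real.log_pos (by exact_mod_cast (by omega : 1 < x))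
  unfold ex
  rw [div_le_one hlx]
  exact Real.log_le_log (by exact_mod_cast (by omega : 0 < p)) (by exact_mod_cast hp.2)

theorem mer (δ : ℝ) (hδ : 0 < δ) : ∃ x₁ : ℕ, ∀ x : ℕ, x₁ ≤ x → ∀ u v : ℝ, 1 / 6 ≤ u → u ≤ v →
    ∑ p ∈ PS x u v, (1 : ℝ) / p ≤ Real.log (v / u) + δ := by
  obtain ⟨C, hC, h⟩ := mertens_two
  have ev := evt_log (max 48 (6 * ((1 + C) / δ + 1)))
  obtain ⟨x₁, hx₁⟩ := Filter.eventually_atTop.1 ev
  refine ⟨max x₁ 2, fun x hx u v hu huv => ?_⟩
  have hL := hx₁ x ((le_max_left _ _).trans hx)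
  have hx2 : 2 ≤ x := (le_max_right _ _).trans hx
  have hx0 : (0 : ℝ) < x := by exact_mod_cast (by omega : 0 < x)
  have hx1 : (1 : ℝ) ≤ x := by exact_mod_cast (by omega : 1 ≤ x)
  have hL1 : 48 ≤ Real.log x := (le_max_left _ _).trans hL
  have hL2 : 6 * ((1 + C) / δ + 1) ≤ Real.log x := (le_max_right _ _).trans hL
  have hlx : 0 < Real.log x := by linarith
  have hu0 : 0 < u := by linarith
  have hv0 : 0 < v := by linarith
  have hlog : 0 ≤ Real.log (v / u) := Real.log_nonneg (by rwa [one_le_div hu0])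
  rcases lt_or_ge 1 u with h1u | hu1
  · have : PS x u v = ∅ := by
      rw [Finset.eq_empty_iff_forall_notMem]
      intro p hp
      unfold PS at hp
      rw [mem_filter] at hp
      have := ex_le_one hx2 hp.1
      linarith [hp.2.2.1]
    rw [this, sum_empty]
    linarith
  -- the bounds
  obtain ⟨w, hw⟩ : ∃ w, w = min v 1 := ⟨_, rfl⟩
  have hwv : w ≤ v := by rw [hw]; exact min_le_left _ _
  have huw : u ≤ w := by rw [hw]; exact le_min huv hu1
  have hw0 : 0 < w := by linarith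
  have elu : Real.log ((x : ℝ) ^ u) = u * Real.log x := Real.log_rpow hx0 u
  have elw : Real.log ((x : ℝ) ^ w) = w * Real.log x := Real.log_rpow hx0 w
  have huL : 8 ≤ u * Real.log x := by nlinarith
  have hxu : (4 : ℝ) ≤ (x : ℝ) ^ u := by
    have h1 := Real.add_one_le_exp (u * Real.log x)
    rw [← elu, Real.exp_log (by positivity), elu] at h1
    linarith
  have hxuw : (x : ℝ) ^ u ≤ (x : ℝ) ^ w := Real.rpow_le_rpow_of_exponent_le hx1 huw
  have hc1 : (x : ℝ) ^ u ≤ ⌈(x : ℝ) ^ u⌉₊ := Nat.le_ceil _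
  have hc2 : (⌈(x : ℝ) ^ u⌉₊ : ℝ) < (x : ℝ) ^ u + 1 := Nat.ceil_lt_add_one (by linarith)
  have hf1 : (⌊(x : ℝ) ^ w⌋₊ : ℝ) ≤ (x : ℝ) ^ w := Nat.floor_le (by linarith)
  have hf2 : (x : ℝ) ^ w < ⌊(x : ℝ) ^ w⌋₊ + 1 := Nat.lt_floor_add_one _
  obtain ⟨M, hM⟩ : ∃ M, ⌈(x : ℝ) ^ u⌉₊ = M + 1 := by
    have : 0 < ⌈(x : ℝ) ^ u⌉₊ := Nat.ceil_pos.2 (by linarith)
    exact ⟨⌈(x : ℝ) ^ u⌉₊ - 1, by omega⟩
  obtain ⟨N, hN⟩ : ∃ N, N = ⌊(x : ℝ) ^ w⌋₊ := ⟨_, rfl⟩
  have hsub : PS x u v ⊆ (Ioc M N).filter Nat.Prime := by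
    intro p hp
    unfold PS at hp
    rw [mem_filter] at hp
    have hp1 := mem_Icc.1 hp.1
    have hp0 : (0 : ℝ) < p := by exact_mod_cast (by omega : 0 < p)
    have h1 : u * Real.log x ≤ Real.log p := by
      have := hp.2.2.1
      unfold ex at this
      rwa [le_div_iff₀ hlx] at this
    have h2 : Real.log p ≤ w * Real.log x := by
      have h3 := hp.2.2.2
      have h4 := ex_le_one hx2 hp.1
      have h5 : ex x p ≤ w := by
        rw [hw]
        exact le_min h3 h4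
      unfold ex at h5
      rwa [div_le_iff₀ hlx] at h5
    rw [mem_filter, mem_Ioc]
    refine ⟨⟨?_, ?_⟩, hp.2.1⟩
    · have h3 : (x : ℝ) ^ u ≤ p := by
        rw [← elu] at h1
        exact (Real.log_le_log_iff (by positivity) hp0).1 h1
      have h4 : ⌈(x : ℝ) ^ u⌉₊ ≤ p := Nat.ceil_le.2 h3
      omega
    · have h3 : (p : ℝ) ≤ (x : ℝ) ^ w := by
        rw [← elw] at h2
        exact (Real.log_le_log_iff hp0 (by positivity)).1 h2
      rw [hN]
      exact Nat.le_floor h3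
  refine (Finset.sum_le_sum_of_subset_of_nonneg hsub fun p _ _ => by positivity).trans ?_
  rw [hM] at hc1 hc2
  rw [← hN] at hf1 hf2
  push_cast at hc1 hc2
  have hM2 : 2 ≤ M := by
    have : (2 : ℝ) < M := by linarith
    have h2 : 2 < M := by exact_mod_cast this
    omega
  have hMN : M ≤ N := by
    have : (M : ℝ) < N + 1 := by linarith
    have h2 : M < N + 1 := by exact_mod_cast this
    omega
  have hmain := (abs_le.1 (h M N hM2 hMN)).2
  have hM0 : (0 : ℝ) < M := by exact_mod_cast (by omega : 0 < M)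
  have hN0 : (0 : ℝ) < N := by exact_mod_cast (by omega : 0 < N)
  have hlog2 : Real.log 2 ≤ 1 := by
    rw [Real.log_le_iff_le_exp (by norm_num)]
    have := Real.add_one_le_exp (1 : ℝ)
    linarith
  have m1 : u * Real.log x - 1 ≤ Real.log M := by
    have h1 : (x : ℝ) ^ u ≤ 2 * M := by linarith
    have h2 := Real.log_le_log (by linarith) h1
    rw [elu, Real.log_mul (by norm_num) hM0.ne'] at h2
    linarith
  have n2 : Real.log N ≤ w * Real.log x := by
    rw [← elw]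
    exact Real.log_le_log hN0 hf1
  have hlM : 0 < Real.log M := by linarith
  have hlN : 0 < Real.log N := Real.log_pos (by exact_mod_cast (by omega : 1 < N))
  have k1 : Real.log (Real.log N) ≤ Real.log (w * Real.log x) := Real.log_le_log hlN n2
  have k2 : Real.log (u * Real.log x) - Real.log (Real.log M) ≤ 1 / Real.log M := by
    have h1 := Real.log_le_sub_one_of_pos (show 0 < (u * Real.log x) / Real.log M by positivity)
    rw [Real.log_div (by positivity) hlM.ne'] at h1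
    refine h1.trans ?_
    rw [div_sub_one hlM.ne']
    exact div_le_div_of_nonneg_right (by linarith) hlM.le
  have e1 : Real.log (w * Real.log x) - Real.log (u * Real.log x) = Real.log (w / u) := by
    rw [Real.log_mul hw0.ne' hlx.ne', Real.log_mul hu0.ne' hlx.ne', Real.log_div hw0.ne' hu0.ne']
    ring
  have k3 : Real.log (w / u) ≤ Real.log (v / u) :=
    Real.log_le_log (by positivity) (div_le_div_of_nonneg_right hwv hu0.le)
  have k4 : (1 + C) / Real.log M ≤ δ := by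
    rw [div_le_iff₀ hlM]
    have h1 : (1 + C) / δ ≤ Real.log M := by nlinarith
    rw [div_le_iff₀ hδ] at h1
    linarith
  have k5 : (1 + C) / Real.log M = 1 / Real.log M + C * (Real.log M)⁻¹ := by
    rw [add_div, div_eq_mul_inv C]
  linarith

theorem mer_sum_aux (x : ℕ) (δ : ℝ) (hm : ∀ u v : ℝ, 1 / 6 ≤ u → u ≤ v →
    ∑ p ∈ PS x u v, (1 : ℝ) / p ≤ Real.log (v / u) + δ)
    (P : List (ℝ × ℝ × ℝ)) (hP : ∀ e ∈ P, 1 / 6 ≤ e.1 ∧ e.1 ≤ e.2.1 ∧ 0 ≤ e.2.2)
    (s : Finset ℕ) (_hs : ∀ p ∈ s, p ∈ Icc 1 x ∧ p.Prime) :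
    ∑ p ∈ s, (P.map (fun e => if p ∈ PS x e.1 e.2.1 then e.2.2 / (p : ℝ) else 0)).sum ≤
      (P.map (fun e => (Real.log (e.2.1 / e.1) + δ) * e.2.2)).sum := by
  induction P with
  | nil => simp
  | cons e P ih =>
    simp only [List.map_cons, List.sum_cons]
    rw [Finset.sum_add_distrib]
    refine add_le_add ?_ (ih fun e' he' => hP e' (by simp [he']))
    have he := hP e (by simp)
    rw [← Finset.sum_filter]
    calc ∑ p ∈ s with p ∈ PS x e.1 e.2.1, e.2.2 / (p : ℝ)
        ≤ ∑ p ∈ PS x e.1 e.2.1, e.2.2 / (p : ℝ) := by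
          apply Finset.sum_le_sum_of_subset_of_nonneg
          · intro p hp
            exact (mem_filter.1 hp).2
          · intro p _ _
            exact div_nonneg he.2.2 (Nat.cast_nonneg _)
      _ = (∑ p ∈ PS x e.1 e.2.1, (1 : ℝ) / p) * e.2.2 := by
          rw [Finset.sum_mul]
          exact Finset.sum_congr rfl fun p _ => by ring
      _ ≤ (Real.log (e.2.1 / e.1) + δ) * e.2.2 :=
          mul_le_mul_of_nonneg_right (hm _ _ he.1 he.2.1) he.2.2

theorem list_ge {α : Type*} (P : List α) (g : α → ℝ) (hg : ∀ e ∈ P, 0 ≤ g e) {e : α} (he : e ∈ P) :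
    g e ≤ (P.map g).sum := by
  induction P with
  | nil => simp at he
  | cons a P ih =>
    simp only [List.map_cons, List.sum_cons]
    have h1 : 0 ≤ (P.map g).sum := List.sum_nonneg (by
      intro y hy
      obtain ⟨e', he', rfl⟩ := List.mem_map.1 hy
      exact hg e' (by simp [he']))
    have h2 := hg a (by simp)
    rcases List.mem_cons.1 he with rfl | h
    · linarith
    · have := ih (fun e' he' => hg e' (by simp [he'])) h
      linarith

/-- Riemann sums: `(lo, hi, c)` in the list `P`, `f ≤ c` on the primes with exponent in `[lo, hi]` -/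
theorem mer_sum (x : ℕ) (δ : ℝ) (hm : ∀ u v : ℝ, 1 / 6 ≤ u → u ≤ v →
    ∑ p ∈ PS x u v, (1 : ℝ) / p ≤ Real.log (v / u) + δ) (_hδ : 0 ≤ δ) (f : ℕ → ℝ)
    (P : List (ℝ × ℝ × ℝ)) (hP : ∀ e ∈ P, 1 / 6 ≤ e.1 ∧ e.1 ≤ e.2.1 ∧ 0 ≤ e.2.2)
    (s : Finset ℕ) (hs : ∀ p ∈ s, p ∈ Icc 1 x ∧ p.Prime)
    (hf : ∀ p ∈ s, ∃ e ∈ P, e.1 ≤ ex x p ∧ ex x p ≤ e.2.1 ∧ f p ≤ e.2.2) :
    ∑ p ∈ s, f p / p ≤ (P.map (fun e => (Real.log (e.2.1 / e.1) + δ) * e.2.2)).sum := by
  refine (Finset.sum_le_sum fun p hp => ?_).trans (mer_sum_aux x δ hm P hP s hs)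
  obtain ⟨e, he, h1, h2, h3⟩ := hf p hp
  have hmem : p ∈ PS x e.1 e.2.1 := by
    unfold PS
    exact mem_filter.2 ⟨(hs p hp).1, (hs p hp).2, h1, h2⟩
  refine le_trans ?_ (list_ge P (fun e => if p ∈ PS x e.1 e.2.1 then e.2.2 / (p : ℝ) else 0)
    (fun e' he' => ?_) he)
  · show f p / p ≤ if p ∈ PS x e.1 e.2.1 then e.2.2 / (p : ℝ) else 0
    rw [if_pos hmem]
    exact div_le_div_of_nonneg_right h3 (Nat.cast_nonneg _)
  · show 0 ≤ if p ∈ PS x e'.1 e'.2.1 then e'.2.2 / (p : ℝ) else 0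
    split_ifs
    · exact div_nonneg (hP e' he').2.2 (Nat.cast_nonneg _)
    · exact le_rfl

theorem log_pade (u : ℝ) (hu : 0 ≤ u) : Real.log (1 + u) ≤ u * (6 + u) / (6 + 4 * u) := by
  have hd : ∀ t : ℝ, 0 ≤ t → HasDerivAt
      (fun t : ℝ => t * (6 + t) / (6 + 4 * t) - Real.log (1 + t))
      (((6 + 2 * t) * (6 + 4 * t) - (t * (6 + t)) * 4) / (6 + 4 * t) ^ 2 - 1 / (1 + t)) t := by
    intro t ht
    have h1 : HasDerivAt (fun t : ℝ => t * (6 + t)) (6 + 2 * t) t := by
      have := (hasDerivAt_id t).mul ((hasDerivAt_id t).const_add 6)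
      refine this.congr_deriv ?_
      simp only [id]
      ring
    have h2 : HasDerivAt (fun t : ℝ => 6 + 4 * t) 4 t := by
      have := ((hasDerivAt_id t).const_mul 4).const_add 6
      refine this.congr_deriv ?_
      ring
    have h3 : HasDerivAt (fun t : ℝ => 1 + t) 1 t := (hasDerivAt_id t).const_add 1
    have h4 := h1.div h2 (by positivity)
    have h5 := h3.log (by positivity)
    exact h4.sub h5
  have hmono : MonotoneOn (fun t : ℝ => t * (6 + t) / (6 + 4 * t) - Real.log (1 + t))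
      (Set.Ici 0) := by
    apply monotoneOn_of_deriv_nonneg (convex_Ici 0)
    · intro t ht
      exact (hd t ht).continuousAt.continuousWithinAt
    · intro t ht
      rw [interior_Ici] at ht
      exact (hd t (le_of_lt ht)).differentiableAt.differentiableWithinAt
    · intro t ht
      rw [interior_Ici] at ht
      have ht0 : (0 : ℝ) < t := ht
      rw [(hd t ht0.le).deriv]
      have h1 : ((6 + 2 * t) * (6 + 4 * t) - (t * (6 + t)) * 4) / (6 + 4 * t) ^ 2 - 1 / (1 + t) =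
          4 * t ^ 3 / ((6 + 4 * t) ^ 2 * (1 + t)) := by
        have h2 : (6 + 4 * t) ≠ 0 := by positivity
        have h3 : (1 + t) ≠ 0 := by positivity
        field_simp
        ring
      rw [h1]
      positivity
  have h := hmono (Set.mem_Ici.2 le_rfl) (Set.mem_Ici.2 hu) hu
  simp only [zero_mul, zero_div, add_zero, Real.log_one, sub_zero] at h
  linarith

end Pool.Agent.HS
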