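import Pool.Agent.Work.MP_92f640_nt.HS.W.Mer
import Pool.Agent.Work.MP_92f640_nt.HL.Evt

/-! # Module W.Sum14: two and five prime factors

`L1`: three windows of width `16 κ → 0`: `mer`.
`L4` (true value about .0009): `p₃` largest, exponent `v`: the others have exponents in `[1/6, min(v, 1/2 - v)]`,
`∑_{p<p'<p''} ≤ (∑)³/6`: `L4 ≤ ∫_{1/6}^{1/4} (log 6v)³/6 dv/v + ∫_{1/4}^{1/3} (log(3-6v))³/6 dv/v ≈ .0019`. -/

namespace Pool.Agent.HS

open Finset

namespace Sum14

lemma kap_small (c : ℝ) (hc : 0 < c) : ∃ x₁ : ℕ, ∀ x : ℕ, x₁ ≤ x → 0 ≤ kap x ∧ kap x ≤ c := by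
  obtain ⟨x₁, h⟩ := Filter.eventually_atTop.1 (HL.evt_log (max 1 (Real.log 4 / c)))
  refine ⟨x₁, fun x hx => ?_⟩
  have h1 := h x hx
  have h2 : 1 ≤ Real.log x := (le_max_left _ _).trans h1
  have h3 : Real.log 4 / c ≤ Real.log x := (le_max_right _ _).trans h1
  have h4 : 0 ≤ Real.log 4 := Real.log_nonneg (by norm_num)
  unfold kap
  refine ⟨by positivity, ?_⟩
  rw [div_le_iff₀ (by linarith)]
  rw [div_le_iff₀ hc] at h3
  linarith

lemma log_ratio {u v : ℝ} (hu : 0 < u) (huv : u ≤ v) : Real.log (v / u) ≤ (v - u) / u := by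
  have h1 := Real.log_le_sub_one_of_pos (div_pos (hu.trans_le huv) hu)
  have h2 : v / u - 1 = (v - u) / u := by field_simp
  linarith

/-- nested sums of products -/
lemma nest2 (s : Finset ℕ) (f : ℕ → ℝ) (hf : ∀ i ∈ s, 0 ≤ f i) :
    ∑ i ∈ s, ∑ j ∈ s.filter (fun j => i < j), f i * f j ≤ (∑ i ∈ s, f i) ^ 2 / 2 := by
  induction s using Finset.induction_on_min with
  | empty => simp
  | insert a s ha ih =>
    have ha' : a ∉ s := fun h => lt_irrefl a (ha a h)
    have ih' := ih (fun i hi => hf i (mem_insert_of_mem hi))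
    have e1 : (insert a s).filter (fun j => a < j) = s := by
      ext j
      simp only [mem_filter, mem_insert]
      constructor
      · rintro ⟨rfl | h, h'⟩
        · exact absurd h' (lt_irrefl _)
        · exact h
      · intro h
        exact ⟨Or.inr h, ha j h⟩
    have e2 : ∀ i ∈ s, (insert a s).filter (fun j => i < j) = s.filter (fun j => i < j) := by
      intro i hi
      rw [filter_insert, if_neg (not_lt.2 (ha i hi).le)]
    rw [sum_insert ha', e1, sum_insert ha']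
    have e3 : ∑ i ∈ s, ∑ j ∈ (insert a s).filter (fun j => i < j), f i * f j =
        ∑ i ∈ s, ∑ j ∈ s.filter (fun j => i < j), f i * f j :=
      sum_congr rfl fun i hi => by rw [e2 i hi]
    rw [e3, ← mul_sum]
    have h0 : 0 ≤ f a := hf a (mem_insert_self a s)
    nlinarith [sq_nonneg (f a)]

lemma nest3 (s : Finset ℕ) (f : ℕ → ℝ) (hf : ∀ i ∈ s, 0 ≤ f i) :
    ∑ i ∈ s, ∑ j ∈ s.filter (fun j => i < j), ∑ k ∈ s.filter (fun k => j < k), f i * f j * f k ≤
      (∑ i ∈ s, f i) ^ 3 / 6 := by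
  induction s using Finset.induction_on_min with
  | empty => simp
  | insert a s ha ih =>
    have ha' : a ∉ s := fun h => lt_irrefl a (ha a h)
    have hf' : ∀ i ∈ s, 0 ≤ f i := fun i hi => hf i (mem_insert_of_mem hi)
    have ih' := ih hf'
    have n2 := nest2 s f hf'
    have e1 : (insert a s).filter (fun j => a < j) = s := by
      ext j
      simp only [mem_filter, mem_insert]
      constructor
      · rintro ⟨rfl | h, h'⟩
        · exact absurd h' (lt_irrefl _)
        · exact h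
      · intro h
        exact ⟨Or.inr h, ha j h⟩
    have e2 : ∀ i ∈ s, (insert a s).filter (fun j => i < j) = s.filter (fun j => i < j) := by
      intro i hi
      rw [filter_insert, if_neg (not_lt.2 (ha i hi).le)]
    rw [sum_insert ha', e1, sum_insert ha']
    have e3 : ∑ i ∈ s, ∑ j ∈ (insert a s).filter (fun j => i < j),
        ∑ k ∈ (insert a s).filter (fun k => j < k), f i * f j * f k =
        ∑ i ∈ s, ∑ j ∈ s.filter (fun j => i < j), ∑ k ∈ s.filter (fun k => j < k),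
          f i * f j * f k := by
      refine sum_congr rfl fun i hi => ?_
      rw [e2 i hi]
      refine sum_congr rfl fun j hj => ?_
      rw [e2 j (mem_filter.1 hj).1]
    have e4 : ∑ j ∈ s, ∑ k ∈ (insert a s).filter (fun k => j < k), f a * f j * f k =
        f a * ∑ j ∈ s, ∑ k ∈ s.filter (fun k => j < k), f j * f k := by
      rw [mul_sum]
      refine sum_congr rfl fun j hj => ?_
      rw [e2 j hj, mul_sum]
      refine sum_congr rfl fun k _ => ?_
      ring
    rw [e3, e4]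
    have h0 : 0 ≤ f a := hf a (mem_insert_self a s)
    have hS : 0 ≤ ∑ i ∈ s, f i := sum_nonneg hf'
    have h1 := mul_le_mul_of_nonneg_left n2 h0
    set A := ∑ i ∈ s, f i with hA
    have h2 : 0 ≤ f a ^ 2 * A := by positivity
    have h3 : 0 ≤ f a ^ 3 := by positivity
    nlinarith

lemma ex_mono {x : ℕ} (hx : 2 ≤ x) {p q : ℕ} (hp : 1 ≤ p) (h : p ≤ q) : ex x p ≤ ex x q := by
  unfold ex
  have : 0 < Real.log x := Real.log_pos (by exact_mod_cast hx)
  have h1 : Real.log p ≤ Real.log q :=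
    Real.log_le_log (by exact_mod_cast hp) (by exact_mod_cast h)
  gcongr

open Classical in
/-- the reciprocal on the primes with exponent at most `m` -/
noncomputable def ra (x : ℕ) (m : ℝ) (p : ℕ) : ℝ := if ex x p ≤ m then 1 / (p : ℝ) else 0

lemma ra_nonneg (x : ℕ) (m : ℝ) (p : ℕ) : 0 ≤ ra x m p := by
  unfold ra
  split_ifs <;> positivity

lemma ra_sum (x : ℕ) (m : ℝ) : ∑ p ∈ PP x, ra x m p ≤ ∑ p ∈ PS x (1 / 6) m, (1 : ℝ) / p := by
  unfold ra
  rw [← sum_filter]
  refine sum_le_sum_of_subset_of_nonneg ?_ (fun _ _ _ => by positivity)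
  intro p hp
  obtain ⟨h1, h2⟩ := mem_filter.1 hp
  unfold PP PS at h1
  obtain ⟨h3, h4, h5, h6⟩ := mem_filter.1 h1
  exact mem_filter.2 ⟨h3, h4, h5, h2⟩

/-- the sum over the three smaller primes -/
noncomputable def Tr (x : ℕ) (m : ℝ) : ℝ := ∑ p ∈ PP x, ∑ p' ∈ (PP x).filter (fun p' => p < p'),
  ∑ p'' ∈ (PP x).filter (fun p'' => p' < p''), ra x m p * ra x m p' * ra x m p''

lemma L4_swap (x : ℕ) (hx : 2 ≤ x) : L4 x ≤ ∑ q ∈ (PP x).filter (fun q => ex x q ≤ 1 / 3),
    Tr x (min (ex x q) (1 / 2 - ex x q)) / q := by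
  classical
  set Q := (PP x).filter (fun q => ex x q ≤ 1 / 3) with hQ
  have hPP : ∀ p ∈ PP x, 1 ≤ p ∧ 1 / 6 ≤ ex x p := by
    intro p hp
    unfold PP PS at hp
    obtain ⟨h3, h4, h5, h6⟩ := mem_filter.1 hp
    exact ⟨h4.pos, h5⟩
  have h1 : L4 x ≤ ∑ p ∈ PP x, ∑ p' ∈ (PP x).filter (fun p' => p < p'),
      ∑ p'' ∈ (PP x).filter (fun p'' => p' < p''), ∑ q ∈ Q,
        ra x (min (ex x q) (1 / 2 - ex x q)) p * ra x (min (ex x q) (1 / 2 - ex x q)) p' *
          ra x (min (ex x q) (1 / 2 - ex x q)) p'' / q := by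
    unfold L4
    refine sum_le_sum fun p hp => sum_le_sum fun p' hp' => sum_le_sum fun p'' hp'' => ?_
    obtain ⟨hp'1, hp'2⟩ := mem_filter.1 hp'
    obtain ⟨hp''1, hp''2⟩ := mem_filter.1 hp''
    have a1 := hPP p hp
    have a2 := hPP p' hp'1
    have a3 := hPP p'' hp''1
    have m1 := ex_mono hx a1.1 hp'2.le
    have m2 := ex_mono hx a2.1 hp''2.le
    have hsub : (PP x).filter (fun p₃ => p'' < p₃ ∧ ex x p + ex x p' + ex x p'' + ex x p₃ ≤ 5 / 6) ⊆
        Q := by
      intro q hq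
      obtain ⟨hq1, hq2, hq3⟩ := mem_filter.1 hq
      exact mem_filter.2 ⟨hq1, by linarith⟩
    calc ∑ p₃ ∈ (PP x).filter (fun p₃ => p'' < p₃ ∧ ex x p + ex x p' + ex x p'' + ex x p₃ ≤ 5 / 6),
          1 / ((p : ℝ) * p' * p'' * p₃)
        = ∑ q ∈ (PP x).filter (fun p₃ => p'' < p₃ ∧ ex x p + ex x p' + ex x p'' + ex x p₃ ≤ 5 / 6),
          ra x (min (ex x q) (1 / 2 - ex x q)) p * ra x (min (ex x q) (1 / 2 - ex x q)) p' *
          ra x (min (ex x q) (1 / 2 - ex x q)) p'' / q := by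
          refine sum_congr rfl fun q hq => ?_
          obtain ⟨hq1, hq2, hq3⟩ := mem_filter.1 hq
          have m3 := ex_mono hx a3.1 hq2.le
          have b3 : ex x p'' ≤ min (ex x q) (1 / 2 - ex x q) := le_min m3 (by linarith)
          have b2 := m2.trans b3
          have b1 := m1.trans b2
          unfold ra
          rw [if_pos b1, if_pos b2, if_pos b3]
          rw [div_mul_div_comm, div_mul_div_comm, div_div]
          norm_num
      _ ≤ _ := by
          refine sum_le_sum_of_subset_of_nonneg hsub fun q _ _ => ?_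
          have := ra_nonneg x (min (ex x q) (1 / 2 - ex x q))
          have n1 := this p
          have n2 := this p'
          have n3 := this p''
          positivity
  refine h1.trans (le_of_eq ?_)
  have e1 : ∀ p ∈ PP x, ∀ p' ∈ (PP x).filter (fun p' => p < p'),
      ∑ p'' ∈ (PP x).filter (fun p'' => p' < p''), ∑ q ∈ Q,
        ra x (min (ex x q) (1 / 2 - ex x q)) p * ra x (min (ex x q) (1 / 2 - ex x q)) p' *
          ra x (min (ex x q) (1 / 2 - ex x q)) p'' / q =
      ∑ q ∈ Q, ∑ p'' ∈ (PP x).filter (fun p'' => p' < p''),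
        ra x (min (ex x q) (1 / 2 - ex x q)) p * ra x (min (ex x q) (1 / 2 - ex x q)) p' *
          ra x (min (ex x q) (1 / 2 - ex x q)) p'' / q := fun p _ p' _ => sum_comm
  rw [sum_congr rfl fun p hp => (sum_congr rfl fun p' hp' => e1 p hp p' hp').trans sum_comm,
    sum_comm]
  refine sum_congr rfl fun q _ => ?_
  unfold Tr
  rw [sum_div]
  refine sum_congr rfl fun p _ => ?_
  rw [sum_div]
  refine sum_congr rfl fun p' _ => ?_
  rw [sum_div]

lemma Tr_le (x : ℕ) (m : ℝ) : Tr x m ≤ (∑ p ∈ PS x (1 / 6) m, (1 : ℝ) / p) ^ 3 / 6 := by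
  have h1 := nest3 (PP x) (ra x m) (fun p _ => ra_nonneg x m p)
  have h2 := ra_sum x m
  have h3 : 0 ≤ ∑ p ∈ PP x, ra x m p := sum_nonneg fun p _ => ra_nonneg x m p
  refine (h1 : Tr x m ≤ _).trans ?_
  gcongr

lemma PS_mono (x : ℕ) {m M : ℝ} (h : m ≤ M) :
    ∑ p ∈ PS x (1 / 6) m, (1 : ℝ) / p ≤ ∑ p ∈ PS x (1 / 6) M, (1 : ℝ) / p := by
  refine sum_le_sum_of_subset_of_nonneg ?_ (fun _ _ _ => by positivity)
  intro p hp
  obtain ⟨h1, h2, h3, h4⟩ := mem_filter.1 hp
  exact mem_filter.2 ⟨h1, h2, h3, h4.trans h⟩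

end Sum14

open Sum14

theorem L1_le : ∃ x₁ : ℕ, ∀ x : ℕ, x₁ ≤ x → L1 x ≤ 1 / 500 := by
  classical
  obtain ⟨x₁, h1⟩ := mer (1 / 5000) (by norm_num)
  obtain ⟨x₂, h2⟩ := kap_small (1 / 100000) (by norm_num)
  refine ⟨max x₁ x₂, fun x hx => ?_⟩
  have hm := h1 x ((le_max_left _ _).trans hx)
  obtain ⟨hk0, hk1⟩ := h2 x ((le_max_right _ _).trans hx)
  set κ := kap x with hκ
  have key : ∀ c : ℝ, 5 / 12 ≤ c → ∑ p ∈ PS x (c - 8 * κ) (c + 8 * κ), (1 : ℝ) / p ≤ 1 / 1500 := by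
    intro c hc
    refine (hm (c - 8 * κ) (c + 8 * κ) (by linarith) (by linarith)).trans ?_
    have h3 := log_ratio (u := c - 8 * κ) (v := c + 8 * κ) (by linarith) (by linarith)
    have h4 : (c + 8 * κ - (c - 8 * κ)) / (c - 8 * κ) ≤ 40 * κ := by
      rw [div_le_iff₀ (by linarith)]
      nlinarith
    linarith
  have h5 : L1 x ≤ ∑ p ∈ PS x (5 / 12 - 8 * κ) (5 / 12 + 8 * κ), (1 : ℝ) / p +
      ∑ p ∈ PS x (1 / 2 - 8 * κ) (1 / 2 + 8 * κ), (1 : ℝ) / p +
      ∑ p ∈ PS x (7 / 12 - 8 * κ) (7 / 12 + 8 * κ), (1 : ℝ) / p := by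
    unfold L1
    have e1 : ∑ p ∈ PP x, w1 (kap x) (ex x p) / p =
        ∑ p ∈ (PP x).filter (fun p => Win κ (ex x p)), (1 : ℝ) / p := by
      rw [sum_filter]
      refine sum_congr rfl fun p _ => ?_
      unfold w1
      rw [← hκ]
      split_ifs <;> simp
    rw [e1]
    have hsub : (PP x).filter (fun p => Win κ (ex x p)) ⊆
        (PS x (5 / 12 - 8 * κ) (5 / 12 + 8 * κ) ∪ PS x (1 / 2 - 8 * κ) (1 / 2 + 8 * κ)) ∪
          PS x (7 / 12 - 8 * κ) (7 / 12 + 8 * κ) := by
      intro p hp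
      obtain ⟨hp1, hp2⟩ := mem_filter.1 hp
      unfold PP PS at hp1
      obtain ⟨h3, h4, _, _⟩ := mem_filter.1 hp1
      simp only [mem_union]
      rcases hp2 with h | h | h
      · have := abs_le.1 h
        exact Or.inl (Or.inl (mem_filter.2 ⟨h3, h4, by linarith, by linarith⟩))
      · have := abs_le.1 h
        exact Or.inl (Or.inr (mem_filter.2 ⟨h3, h4, by linarith, by linarith⟩))
      · have := abs_le.1 h
        exact Or.inr (mem_filter.2 ⟨h3, h4, by linarith, by linarith⟩)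
    refine (sum_le_sum_of_subset_of_nonneg hsub fun _ _ _ => by positivity).trans ?_
    have u1 := sum_union_inter (s₁ := PS x (5 / 12 - 8 * κ) (5 / 12 + 8 * κ) ∪
      PS x (1 / 2 - 8 * κ) (1 / 2 + 8 * κ)) (s₂ := PS x (7 / 12 - 8 * κ) (7 / 12 + 8 * κ))
      (f := fun p : ℕ => (1 : ℝ) / p)
    have u2 := sum_union_inter (s₁ := PS x (5 / 12 - 8 * κ) (5 / 12 + 8 * κ))
      (s₂ := PS x (1 / 2 - 8 * κ) (1 / 2 + 8 * κ)) (f := fun p : ℕ => (1 : ℝ) / p)
    have n1 : 0 ≤ ∑ p ∈ (PS x (5 / 12 - 8 * κ) (5 / 12 + 8 * κ) ∪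
      PS x (1 / 2 - 8 * κ) (1 / 2 + 8 * κ)) ∩ PS x (7 / 12 - 8 * κ) (7 / 12 + 8 * κ),
      (1 : ℝ) / p := sum_nonneg fun _ _ => by positivity
    have n2 : 0 ≤ ∑ p ∈ PS x (5 / 12 - 8 * κ) (5 / 12 + 8 * κ) ∩
      PS x (1 / 2 - 8 * κ) (1 / 2 + 8 * κ), (1 : ℝ) / p := sum_nonneg fun _ _ => by positivity
    linarith
  have k1 := key (5 / 12) le_rfl
  have k2 := key (1 / 2) (by norm_num)
  have k3 := key (7 / 12) (by norm_num)
  linarith

theorem L4_le : ∃ x₁ : ℕ, ∀ x : ℕ, x₁ ≤ x → L4 x ≤ 1 / 250 := by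
  obtain ⟨x₁, h1⟩ := mer (1 / 10000) (by norm_num)
  refine ⟨max x₁ 2, fun x hx => ?_⟩
  have hm := h1 x ((le_max_left _ _).trans hx)
  have hx2 : 2 ≤ x := (le_max_right _ _).trans hx
  refine (L4_swap x hx2).trans ?_
  have g1 : Real.log (6 / 5) ≤ 1824 / 10000 := by
    have := log_pade (1 / 5) (by norm_num)
    norm_num at this ⊢
    linarith
  have g2 : Real.log (27 / 20) ≤ 3004 / 10000 := by
    have := log_pade (7 / 20) (by norm_num)
    norm_num at this ⊢
    linarith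
  have g3 : Real.log (3 / 2) ≤ 4063 / 10000 := by
    have := log_pade (1 / 2) (by norm_num)
    norm_num at this ⊢
    linarith
  have g4 : Real.log (9 / 8) ≤ 1179 / 10000 := by
    have := log_pade (1 / 8) (by norm_num)
    norm_num at this ⊢
    linarith
  have g5 : Real.log (10 / 9) ≤ 1055 / 10000 := by
    have := log_pade (1 / 9) (by norm_num)
    norm_num at this ⊢
    linarith
  have g6 : Real.log (11 / 10) ≤ 954 / 10000 := by
    have := log_pade (1 / 10) (by norm_num)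
    norm_num at this ⊢
    linarith
  have g7 : Real.log (12 / 11) ≤ 871 / 10000 := by
    have := log_pade (1 / 11) (by norm_num)
    norm_num at this ⊢
    linarith
  have T : ∀ (m M G c : ℝ), m ≤ M → 1 / 6 ≤ M → Real.log (6 * M) ≤ G → (G + 1 / 10000) ^ 3 / 6 ≤ c →
      Tr x m ≤ c := by
    intro m M G c hmM hM hG hc
    refine (Tr_le x m).trans ?_
    have h2 := (PS_mono x hmM).trans (hm (1 / 6) M le_rfl hM)
    have h3 : M / (1 / 6) = 6 * M := by ring
    rw [h3] at h2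
    have h4 : 0 ≤ ∑ p ∈ PS x (1 / 6) m, (1 : ℝ) / p := sum_nonneg fun _ _ => by positivity
    refine le_trans ?_ hc
    have h5 : ∑ p ∈ PS x (1 / 6) m, (1 : ℝ) / p ≤ G + 1 / 10000 := by linarith
    gcongr
  refine (mer_sum x (1 / 10000) hm (by norm_num)
    (fun q => Tr x (min (ex x q) (1 / 2 - ex x q)))
    [(1 / 6, 1 / 5, 102 / 100000), (1 / 5, 9 / 40, 453 / 100000), (9 / 40, 1 / 4, 1120 / 100000),
      (1 / 4, 11 / 40, 1120 / 100000), (11 / 40, 3 / 10, 453 / 100000),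
      (3 / 10, 1 / 3, 102 / 100000)] ?_ _ ?_ ?_).trans ?_
  · intro e he
    simp only [List.mem_cons, List.not_mem_nil, or_false] at he
    rcases he with rfl | rfl | rfl | rfl | rfl | rfl <;> norm_num
  · intro p hp
    have h2 := (mem_filter.1 hp).1
    unfold PP PS at h2
    obtain ⟨h3, h4, _, _⟩ := mem_filter.1 h2
    exact ⟨h3, h4⟩
  · intro p hp
    obtain ⟨h2, h2'⟩ := mem_filter.1 hp
    unfold PP PS at h2
    obtain ⟨_, _, h5, _⟩ := mem_filter.1 h2
    set v := ex x p with hv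
    rcases le_total v (1 / 5) with a1 | a1
    · refine ⟨(1 / 6, 1 / 5, 102 / 100000), by simp, h5, a1, ?_⟩
      refine T _ (1 / 5) (1824 / 10000) _ ((min_le_left _ _).trans a1) (by norm_num) ?_
        (by norm_num)
      norm_num at g1 ⊢
      exact g1
    rcases le_total v (9 / 40) with a2 | a2
    · refine ⟨(1 / 5, 9 / 40, 453 / 100000), by simp, a1, a2, ?_⟩
      refine T _ (9 / 40) (3004 / 10000) _ ((min_le_left _ _).trans a2) (by norm_num) ?_
        (by norm_num)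
      norm_num at g2 ⊢
      exact g2
    rcases le_total v (1 / 4) with a3 | a3
    · refine ⟨(9 / 40, 1 / 4, 1120 / 100000), by simp, a2, a3, ?_⟩
      refine T _ (1 / 4) (4063 / 10000) _ ((min_le_left _ _).trans a3) (by norm_num) ?_
        (by norm_num)
      norm_num at g3 ⊢
      exact g3
    rcases le_total v (11 / 40) with a4 | a4
    · refine ⟨(1 / 4, 11 / 40, 1120 / 100000), by simp, a3, a4, ?_⟩
      refine T _ (1 / 4) (4063 / 10000) _ ((min_le_right _ _).trans (by linarith)) (by norm_num) ?_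
        (by norm_num)
      norm_num at g3 ⊢
      exact g3
    rcases le_total v (3 / 10) with a5 | a5
    · refine ⟨(11 / 40, 3 / 10, 453 / 100000), by simp, a4, a5, ?_⟩
      refine T _ (9 / 40) (3004 / 10000) _ ((min_le_right _ _).trans (by linarith)) (by norm_num) ?_
        (by norm_num)
      norm_num at g2 ⊢
      exact g2
    · refine ⟨(3 / 10, 1 / 3, 102 / 100000), by simp, a5, h2', ?_⟩
      refine T _ (1 / 5) (1824 / 10000) _ ((min_le_right _ _).trans (by linarith)) (by norm_num) ?_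
        (by norm_num)
      norm_num at g1 ⊢
      exact g1
  · simp only [List.map_cons, List.map_nil, List.sum_cons, List.sum_nil]
    have r1 : (1 / 5 : ℝ) / (1 / 6) = 6 / 5 := by norm_num
    have r2 : (9 / 40 : ℝ) / (1 / 5) = 9 / 8 := by norm_num
    have r3 : (1 / 4 : ℝ) / (9 / 40) = 10 / 9 := by norm_num
    have r4 : (11 / 40 : ℝ) / (1 / 4) = 11 / 10 := by norm_num
    have r5 : (3 / 10 : ℝ) / (11 / 40) = 12 / 11 := by norm_num
    have r6 : (1 / 3 : ℝ) / (3 / 10) = 10 / 9 := by norm_num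
    rw [r1, r2, r3, r4, r5, r6]
    linarith

end Pool.Agent.HS
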