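import Pool.Agent.Work.MP_92f640_nt.HS.W.Mer

/-! # Module W.Sum2: three prime factors (exact value of the limit .7207; the bound is .815)

`p < p'`, exponents `a ≤ b`. The region where the weight is not zero is covered by rectangles
`[lo, hi] × [u, v]`; the sum over a rectangle is at most `(log (hi/lo) + δ) (log (v/u) + δ)` by `mer`.
(1) `a` in 30 cells of `[1/6, 5/12 + ε]`, `b ∈ [max(lo, 7/12 - ε - hi), 5/12 + ε]`;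
(2) `a` in 10 cells of `[1/6, 1/4 + ε]`, `b ∈ [max(lo, 5/12 - ε - hi), 1/2 + ε - lo]`;
(3) `b` in 10 cells of `[1/2 - ε, 7/12 + ε]`, `a ∈ [1/6, 5/6 - lo]` (weight 2 each);
(4) `a` in 5 cells of `[1/6, 5/24]`, `b ∈ [max(lo, 19/50 - ε - hi), 5/12 - lo]`;
(5) `b` in 4 cells of `[7/12, 31/50 + ε]`, `a ∈ [1/6, 5/6 - lo]` (weight 1 each). Total .8056. -/

namespace Pool.Agent.HS

open Finset

namespace Sum2

/-- the bound for a list of rectangles -/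
lemma region {x : ℕ} {δ : ℝ} (hm : ∀ u v : ℝ, 1 / 6 ≤ u → u ≤ v →
    ∑ p ∈ PS x u v, (1 : ℝ) / p ≤ Real.log (v / u) + δ) (n : ℕ) (lo hi u v : ℕ → ℝ)
    (h : ∀ i < n, 1 / 6 ≤ lo i ∧ lo i ≤ hi i ∧ 1 / 6 ≤ u i ∧ u i ≤ v i) (T : Finset (ℕ × ℕ))
    (hT : ∀ q ∈ T, (q.1 ∈ Icc 1 x ∧ q.1.Prime) ∧ (q.2 ∈ Icc 1 x ∧ q.2.Prime) ∧
      ∃ i < n, (lo i ≤ ex x q.1 ∧ ex x q.1 ≤ hi i) ∧ u i ≤ ex x q.2 ∧ ex x q.2 ≤ v i) :
    ∑ q ∈ T, (1 : ℝ) / (q.1 * q.2) ≤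
      ∑ i ∈ range n, (Real.log (hi i / lo i) + δ) * (Real.log (v i / u i) + δ) := by
  classical
  set B : ℕ → Finset (ℕ × ℕ) := fun i => PS x (lo i) (hi i) ×ˢ PS x (u i) (v i) with hB
  have h1 : ∀ q ∈ T, (1 : ℝ) / (q.1 * q.2) ≤
      ∑ i ∈ range n, if q ∈ B i then (1 : ℝ) / (q.1 * q.2) else 0 := by
    intro q hq
    obtain ⟨⟨a1, a2⟩, ⟨b1, b2⟩, i, hi, ⟨c1, c2⟩, c3, c4⟩ := hT q hq
    have h2 : q ∈ B i := by
      rw [hB, mem_product]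
      unfold PS
      exact ⟨mem_filter.2 ⟨a1, a2, c1, c2⟩, mem_filter.2 ⟨b1, b2, c3, c4⟩⟩
    have h3 : (if q ∈ B i then (1 : ℝ) / (q.1 * q.2) else 0) ≤
        ∑ i ∈ range n, if q ∈ B i then (1 : ℝ) / (q.1 * q.2) else 0 :=
      single_le_sum (f := fun i => if q ∈ B i then (1 : ℝ) / (q.1 * q.2) else 0)
        (fun i _ => by positivity) (mem_range.2 hi)
    rwa [if_pos h2] at h3
  refine (sum_le_sum h1).trans ?_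
  rw [sum_comm]
  refine sum_le_sum fun i hi' => ?_
  obtain ⟨g1, g2, g3, g4⟩ := h i (mem_range.1 hi')
  have e1 := hm _ _ g1 g2
  have e2 := hm _ _ g3 g4
  have n1 : 0 ≤ ∑ p ∈ PS x (lo i) (hi i), (1 : ℝ) / p := sum_nonneg fun _ _ => by positivity
  have n2 : 0 ≤ ∑ p ∈ PS x (u i) (v i), (1 : ℝ) / p := sum_nonneg fun _ _ => by positivity
  calc ∑ q ∈ T, (if q ∈ B i then (1 : ℝ) / (q.1 * q.2) else 0)
      = ∑ q ∈ T.filter (fun q => q ∈ B i), (1 : ℝ) / (q.1 * q.2) := by rw [sum_filter]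
    _ ≤ ∑ q ∈ B i, (1 : ℝ) / (q.1 * q.2) :=
        sum_le_sum_of_subset_of_nonneg (fun q hq => (mem_filter.1 hq).2)
          (fun _ _ _ => by positivity)
    _ = (∑ p ∈ PS x (lo i) (hi i), (1 : ℝ) / p) * ∑ p ∈ PS x (u i) (v i), (1 : ℝ) / p := by
        rw [hB, sum_product, sum_mul_sum]
        refine sum_congr rfl fun p _ => sum_congr rfl fun p' _ => ?_
        rw [div_mul_div_comm, one_mul]
    _ ≤ _ := mul_le_mul e1 e2 n2 (n1.trans e1)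

/-- a uniform grid -/
lemma grid {s h a : ℝ} (hh : 0 < h) {n : ℕ} (hn : 1 ≤ n) (h1 : s ≤ a) (h2 : a ≤ s + n * h) :
    ∃ i < n, s + (i : ℝ) * h ≤ a ∧ a ≤ s + ((i : ℝ) + 1) * h := by
  have h0 : 0 ≤ (a - s) / h := div_nonneg (by linarith) hh.le
  rcases h2.eq_or_lt with h3 | h3
  · refine ⟨n - 1, by omega, ?_, ?_⟩
    · rw [h3]
      have : ((n - 1 : ℕ) : ℝ) ≤ n := by exact_mod_cast Nat.sub_le _ _
      nlinarith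
    · rw [h3, Nat.cast_sub hn]
      apply le_of_eq
      push_cast
      ring
  · refine ⟨⌊(a - s) / h⌋₊, ?_, ?_, ?_⟩
    · rw [Nat.floor_lt h0, div_lt_iff₀ hh]
      linarith
    · have := Nat.floor_le h0
      rw [le_div_iff₀ hh] at this
      linarith
    · have := (Nat.lt_floor_add_one ((a - s) / h)).le
      rw [div_le_iff₀ hh] at this
      linarith

/-- upper bound for the logarithm of a quotient -/
noncomputable def pd (r : ℝ) : ℝ := (r - 1) * (5 + r) / (2 + 4 * r)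

lemma log_le_pd {r : ℝ} (hr : 1 ≤ r) : Real.log r ≤ pd r := by
  have h := log_pade (r - 1) (by linarith)
  have e1 : 1 + (r - 1) = r := by ring
  rw [e1] at h
  refine h.trans (le_of_eq ?_)
  unfold pd
  congr 1 <;> ring

lemma pd_nonneg {r : ℝ} (hr : 1 ≤ r) : 0 ≤ pd r := (Real.log_nonneg hr).trans (log_le_pd hr)

lemma sum_pd {δ : ℝ} (hδ : 0 ≤ δ) (n : ℕ) (lo hi u v : ℕ → ℝ)
    (h : ∀ i < n, 1 / 6 ≤ lo i ∧ lo i ≤ hi i ∧ 1 / 6 ≤ u i ∧ u i ≤ v i) :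
    ∑ i ∈ range n, (Real.log (hi i / lo i) + δ) * (Real.log (v i / u i) + δ) ≤
      ∑ i ∈ range n, (pd (hi i / lo i) + δ) * (pd (v i / u i) + δ) := by
  refine sum_le_sum fun i hi' => ?_
  obtain ⟨g1, g2, g3, g4⟩ := h i (mem_range.1 hi')
  have r1 : 1 ≤ hi i / lo i := by rw [le_div_iff₀ (by linarith)]; linarith
  have r2 : 1 ≤ v i / u i := by rw [le_div_iff₀ (by linarith)]; linarith
  have a1 := log_le_pd r1
  have a2 := log_le_pd r2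
  have b2 := Real.log_nonneg r2
  have c1 := pd_nonneg r1
  refine mul_le_mul (by linarith) (by linarith) (by linarith) (by linarith)

/-! the rectangles -/

noncomputable def lo1 (i : ℕ) : ℝ := 1 / 6 + (i : ℝ) * (251 / 30000)
noncomputable def hi1 (i : ℕ) : ℝ := 1 / 6 + ((i : ℝ) + 1) * (251 / 30000)
noncomputable def u1 (i : ℕ) : ℝ := if i < 15 then 7 / 12 - 1 / 1000 - hi1 i else lo1 i
noncomputable def v1 (_i : ℕ) : ℝ := 5 / 12 + 1 / 1000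

noncomputable def lo2 (i : ℕ) : ℝ := 1 / 6 + (i : ℝ) * (253 / 30000)
noncomputable def hi2 (i : ℕ) : ℝ := 1 / 6 + ((i : ℝ) + 1) * (253 / 30000)
noncomputable def u2 (i : ℕ) : ℝ := if i < 5 then 5 / 12 - 1 / 1000 - hi2 i else lo2 i
noncomputable def v2 (i : ℕ) : ℝ := 1 / 2 + 1 / 1000 - lo2 i

noncomputable def u3 (i : ℕ) : ℝ := 1 / 2 - 1 / 1000 + (i : ℝ) * (16 / 1875)
noncomputable def v3 (i : ℕ) : ℝ := 1 / 2 - 1 / 1000 + ((i : ℝ) + 1) * (16 / 1875)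
noncomputable def lo3 (_i : ℕ) : ℝ := 1 / 6
noncomputable def hi3 (i : ℕ) : ℝ := 5 / 6 - u3 i

noncomputable def lo4 (i : ℕ) : ℝ := 1 / 6 + (i : ℝ) * (1 / 120)
noncomputable def hi4 (i : ℕ) : ℝ := 1 / 6 + ((i : ℝ) + 1) * (1 / 120)
noncomputable def u4 (i : ℕ) : ℝ := if i < 3 then 19 / 50 - 1 / 1000 - hi4 i else lo4 i
noncomputable def v4 (i : ℕ) : ℝ := 5 / 12 - lo4 i

noncomputable def u5 (i : ℕ) : ℝ := 7 / 12 + (i : ℝ) * (113 / 12000)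
noncomputable def v5 (i : ℕ) : ℝ := 7 / 12 + ((i : ℝ) + 1) * (113 / 12000)
noncomputable def lo5 (_i : ℕ) : ℝ := 1 / 6
noncomputable def hi5 (i : ℕ) : ℝ := 5 / 6 - u5 i

set_option maxRecDepth 10000 in
lemma num1 : ∑ i ∈ range 30, (pd (hi1 i / lo1 i) + 1 / 20000) * (pd (v1 i / u1 i) + 1 / 20000) ≤
    409 / 2500 := by
  simp only [sum_range_succ, range_zero, sum_empty, pd, lo1, hi1, u1, v1]
  norm_num

lemma num2 : ∑ i ∈ range 10, (pd (hi2 i / lo2 i) + 1 / 20000) * (pd (v2 i / u2 i) + 1 / 20000) ≤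
    292 / 2500 := by
  simp only [sum_range_succ, range_zero, sum_empty, pd, lo2, hi2, u2, v2]
  norm_num

lemma num3 : ∑ i ∈ range 10, (pd (hi3 i / lo3 i) + 1 / 20000) * (pd (v3 i / u3 i) + 1 / 20000) ≤
    229 / 2500 := by
  simp only [sum_range_succ, range_zero, sum_empty, pd, lo3, hi3, u3, v3]
  norm_num

lemma num4 : ∑ i ∈ range 5, (pd (hi4 i / lo4 i) + 1 / 20000) * (pd (v4 i / u4 i) + 1 / 20000) ≤
    397 / 10000 := by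
  simp only [sum_range_succ, range_zero, sum_empty, pd, lo4, hi4, u4, v4]
  norm_num

lemma num5 : ∑ i ∈ range 4, (pd (hi5 i / lo5 i) + 1 / 20000) * (pd (v5 i / u5 i) + 1 / 20000) ≤
    219 / 10000 := by
  simp only [sum_range_succ, range_zero, sum_empty, pd, lo5, hi5, u5, v5]
  norm_num

lemma ok1 : ∀ i < 30, 1 / 6 ≤ lo1 i ∧ lo1 i ≤ hi1 i ∧ 1 / 6 ≤ u1 i ∧ u1 i ≤ v1 i := by
  intro i hi
  have h1 : (i : ℝ) ≤ 29 := by exact_mod_cast (by omega : i ≤ 29)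
  have h0 : (0 : ℝ) ≤ i := Nat.cast_nonneg i
  unfold u1 v1 lo1 hi1
  split_ifs with h
  · have h2 : (i : ℝ) ≤ 14 := by exact_mod_cast (by omega : i ≤ 14)
    refine ⟨?_, ?_, ?_, ?_⟩ <;> linarith
  · refine ⟨?_, ?_, ?_, ?_⟩ <;> linarith

lemma ok2 : ∀ i < 10, 1 / 6 ≤ lo2 i ∧ lo2 i ≤ hi2 i ∧ 1 / 6 ≤ u2 i ∧ u2 i ≤ v2 i := by
  intro i hi
  have h1 : (i : ℝ) ≤ 9 := by exact_mod_cast (by omega : i ≤ 9)
  have h0 : (0 : ℝ) ≤ i := Nat.cast_nonneg i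
  unfold u2 v2 lo2 hi2
  split_ifs with h
  · have h2 : (i : ℝ) ≤ 4 := by exact_mod_cast (by omega : i ≤ 4)
    refine ⟨?_, ?_, ?_, ?_⟩ <;> linarith
  · refine ⟨?_, ?_, ?_, ?_⟩ <;> linarith

lemma ok3 : ∀ i < 10, 1 / 6 ≤ lo3 i ∧ lo3 i ≤ hi3 i ∧ 1 / 6 ≤ u3 i ∧ u3 i ≤ v3 i := by
  intro i hi
  have h1 : (i : ℝ) ≤ 9 := by exact_mod_cast (by omega : i ≤ 9)
  have h0 : (0 : ℝ) ≤ i := Nat.cast_nonneg i
  unfold lo3 hi3 u3 v3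
  refine ⟨?_, ?_, ?_, ?_⟩ <;> linarith

lemma ok4 : ∀ i < 5, 1 / 6 ≤ lo4 i ∧ lo4 i ≤ hi4 i ∧ 1 / 6 ≤ u4 i ∧ u4 i ≤ v4 i := by
  intro i hi
  have h1 : (i : ℝ) ≤ 4 := by exact_mod_cast (by omega : i ≤ 4)
  have h0 : (0 : ℝ) ≤ i := Nat.cast_nonneg i
  unfold u4 v4 lo4 hi4
  split_ifs with h
  · have h2 : (i : ℝ) ≤ 2 := by exact_mod_cast (by omega : i ≤ 2)
    refine ⟨?_, ?_, ?_, ?_⟩ <;> linarith
  · refine ⟨?_, ?_, ?_, ?_⟩ <;> linarith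

lemma ok5 : ∀ i < 4, 1 / 6 ≤ lo5 i ∧ lo5 i ≤ hi5 i ∧ 1 / 6 ≤ u5 i ∧ u5 i ≤ v5 i := by
  intro i hi
  have h1 : (i : ℝ) ≤ 3 := by exact_mod_cast (by omega : i ≤ 3)
  have h0 : (0 : ℝ) ≤ i := Nat.cast_nonneg i
  unfold lo5 hi5 u5 v5
  refine ⟨?_, ?_, ?_, ?_⟩ <;> linarith

section cover

variable {κ a b : ℝ} (hκ' : 8 * κ ≤ 1 / 1000) (ha : 1 / 6 ≤ a) (hab : a ≤ b)
  (hs : a + b ≤ 5 / 6)

include hκ' ha hab in
lemma cover1 (h1 : b ≤ 5 / 12 + 2 * κ) (h2 : 7 / 12 - 4 * κ ≤ a + b) :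
    ∃ i < 30, (lo1 i ≤ a ∧ a ≤ hi1 i) ∧ u1 i ≤ b ∧ b ≤ v1 i := by
  obtain ⟨i, hi, g1, g2⟩ := grid (s := 1 / 6) (h := 251 / 30000) (a := a) (by norm_num)
    (n := 30) (by norm_num) ha (by push_cast; linarith)
  refine ⟨i, hi, ⟨g1, g2⟩, ?_, ?_⟩
  · unfold u1 hi1 lo1
    split_ifs
    · linarith
    · linarith
  · unfold v1
    linarith

include hκ' ha hab in
lemma cover2 (h1 : 5 / 12 - 2 * κ ≤ a + b) (h2 : a + b ≤ 1 / 2 + 2 * κ) :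
    ∃ i < 10, (lo2 i ≤ a ∧ a ≤ hi2 i) ∧ u2 i ≤ b ∧ b ≤ v2 i := by
  obtain ⟨i, hi, g1, g2⟩ := grid (s := 1 / 6) (h := 253 / 30000) (a := a) (by norm_num)
    (n := 10) (by norm_num) ha (by push_cast; linarith)
  refine ⟨i, hi, ⟨g1, g2⟩, ?_, ?_⟩
  · unfold u2 hi2 lo2
    split_ifs
    · linarith
    · linarith
  · unfold v2 lo2
    linarith

include hκ' ha hs in
lemma cover3 (h1 : 1 / 2 - 2 * κ ≤ b) (h2 : b ≤ 7 / 12 + 2 * κ) :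
    ∃ i < 10, (lo3 i ≤ a ∧ a ≤ hi3 i) ∧ u3 i ≤ b ∧ b ≤ v3 i := by
  obtain ⟨i, hi, g1, g2⟩ := grid (s := 1 / 2 - 1 / 1000) (h := 16 / 1875) (a := b) (by norm_num)
    (n := 10) (by norm_num) (by linarith) (by push_cast; linarith)
  refine ⟨i, hi, ⟨ha, ?_⟩, g1, g2⟩
  unfold hi3 u3
  linarith

include hκ' ha hab in
lemma cover4 (h1 : 19 / 50 - 2 * κ ≤ a + b) (h2 : a + b ≤ 5 / 12) :
    ∃ i < 5, (lo4 i ≤ a ∧ a ≤ hi4 i) ∧ u4 i ≤ b ∧ b ≤ v4 i := by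
  obtain ⟨i, hi, g1, g2⟩ := grid (s := 1 / 6) (h := 1 / 120) (a := a) (by norm_num)
    (n := 5) (by norm_num) ha (by push_cast; linarith)
  refine ⟨i, hi, ⟨g1, g2⟩, ?_, ?_⟩
  · unfold u4 hi4 lo4
    split_ifs
    · linarith
    · linarith
  · unfold v4 lo4
    linarith

include hκ' ha hs in
lemma cover5 (h1 : 7 / 12 ≤ b) (h2 : b ≤ 31 / 50 + 2 * κ) :
    ∃ i < 4, (lo5 i ≤ a ∧ a ≤ hi5 i) ∧ u5 i ≤ b ∧ b ≤ v5 i := by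
  obtain ⟨i, hi, g1, g2⟩ := grid (s := 7 / 12) (h := 113 / 12000) (a := b) (by norm_num)
    (n := 4) (by norm_num) (by linarith) (by push_cast; linarith)
  refine ⟨i, hi, ⟨ha, ?_⟩, g1, g2⟩
  unfold hi5 u5
  linarith

end cover

lemma kap_small : ∃ x₁ : ℕ, ∀ x : ℕ, x₁ ≤ x → 0 ≤ kap x ∧ 8 * kap x ≤ 1 / 1000 := by
  refine ⟨⌈Real.exp (8000 * Real.log 4)⌉₊, fun x hx => ?_⟩
  have h1 : Real.exp (8000 * Real.log 4) ≤ x := (Nat.le_ceil _).trans (by exact_mod_cast hx)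
  have h2 : 8000 * Real.log 4 ≤ Real.log x := by
    rw [Real.le_log_iff_exp_le (lt_of_lt_of_le (Real.exp_pos _) h1)]
    exact h1
  have h4 : 0 < Real.log 4 := Real.log_pos (by norm_num)
  have h5 : 0 < Real.log x := by linarith
  unfold kap
  refine ⟨by positivity, ?_⟩
  rw [← mul_div_assoc, div_le_iff₀ h5]
  linarith

open Classical in
/-- indicator of a proposition -/
noncomputable def ind (P : Prop) : ℝ := if P then 1 else 0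

lemma ind_pos {P : Prop} (h : P) : ind P = 1 := if_pos h

lemma ind_neg {P : Prop} (h : ¬ P) : ind P = 0 := if_neg h

lemma w2_le (κ a b : ℝ) : w2 κ a b ≤
    2 * ind (b ≤ 5 / 12 + 2 * κ ∧ 7 / 12 - 4 * κ ≤ a + b) +
    2 * ind (5 / 12 - 2 * κ ≤ a + b ∧ a + b ≤ 1 / 2 + 2 * κ) +
    2 * ind (1 / 2 - 2 * κ ≤ b ∧ b ≤ 7 / 12 + 2 * κ) +
    ind (19 / 50 - 2 * κ ≤ a + b ∧ a + b ≤ 5 / 12) +
    ind (7 / 12 ≤ b ∧ b ≤ 31 / 50 + 2 * κ) := by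
  unfold w2 ind
  by_cases h1 : b ≤ 5 / 12 + 2 * κ ∧ 7 / 12 - 4 * κ ≤ a + b <;>
  by_cases h2 : 5 / 12 - 2 * κ ≤ a + b ∧ a + b ≤ 1 / 2 + 2 * κ <;>
  by_cases h3 : 1 / 2 - 2 * κ ≤ b ∧ b ≤ 7 / 12 + 2 * κ <;>
  by_cases h4 : 19 / 50 - 2 * κ ≤ a + b ∧ a + b ≤ 5 / 12 <;>
  by_cases h5 : 7 / 12 ≤ b ∧ b ≤ 31 / 50 + 2 * κ <;>
  simp only [h1, h2, h3, h4, h5, true_or, or_true, false_or, or_false, if_true, if_false,
    or_self] <;> norm_num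

end Sum2

open Sum2 in
theorem L2_le : ∃ x₁ : ℕ, ∀ x : ℕ, x₁ ≤ x → L2 x ≤ 163 / 200 := by
  classical
  obtain ⟨x₁, hx₁⟩ := mer (1 / 20000) (by norm_num)
  obtain ⟨x₂, hx₂⟩ := kap_small
  refine ⟨max (max x₁ x₂) 3, fun x hx => ?_⟩
  have hm := hx₁ x ((le_max_left _ _).trans ((le_max_left _ _).trans hx))
  obtain ⟨hκ, hκ'⟩ := hx₂ x ((le_max_right _ _).trans ((le_max_left _ _).trans hx))
  have hx3 : 3 ≤ x := (le_max_right _ _).trans hx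
  set κ := kap x with hκdef
  obtain ⟨T, hT⟩ : ∃ T, T = (PP x ×ˢ PP x).filter
    (fun q => q.1 < q.2 ∧ ex x q.1 + ex x q.2 ≤ 5 / 6) := ⟨_, rfl⟩
  have hlog : 0 < Real.log x := Real.log_pos (by exact_mod_cast (by omega : 1 < x))
  have hTm : ∀ q ∈ T, ((q.1 ∈ Icc 1 x ∧ q.1.Prime) ∧ (q.2 ∈ Icc 1 x ∧ q.2.Prime)) ∧
      1 / 6 ≤ ex x q.1 ∧ ex x q.1 ≤ ex x q.2 ∧ ex x q.1 + ex x q.2 ≤ 5 / 6 := by
    intro q hq
    rw [hT, mem_filter, mem_product] at hq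
    obtain ⟨⟨h1, h2⟩, h3, h4⟩ := hq
    unfold PP PS at h1 h2
    rw [mem_filter] at h1 h2
    refine ⟨⟨⟨h1.1, h1.2.1⟩, ⟨h2.1, h2.2.1⟩⟩, h1.2.2.1, ?_, h4⟩
    unfold ex
    apply div_le_div_of_nonneg_right _ hlog.le
    exact Real.log_le_log (by exact_mod_cast h1.2.1.pos) (by exact_mod_cast h3.le)
  have h1 : L2 x = ∑ q ∈ T, w2 κ (ex x q.1) (ex x q.2) * (1 / ((q.1 : ℝ) * q.2)) := by
    unfold L2
    rw [hT, sum_filter, sum_product]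
    refine sum_congr rfl fun p _ => ?_
    rw [sum_filter]
    refine sum_congr rfl fun p' _ => ?_
    split_ifs
    · rw [mul_one_div]
    · rfl
  have h2 : ∀ (P : ℝ → ℝ → Prop) (n : ℕ) (lo hi u v : ℕ → ℝ)
      (_ : ∀ i < n, 1 / 6 ≤ lo i ∧ lo i ≤ hi i ∧ 1 / 6 ≤ u i ∧ u i ≤ v i)
      (_ : ∀ a b : ℝ, 1 / 6 ≤ a → a ≤ b → a + b ≤ 5 / 6 → P a b →
        ∃ i < n, (lo i ≤ a ∧ a ≤ hi i) ∧ u i ≤ b ∧ b ≤ v i) (R : ℝ)
      (_ : ∑ i ∈ range n, (pd (hi i / lo i) + 1 / 20000) * (pd (v i / u i) + 1 / 20000) ≤ R),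
      ∑ q ∈ T, ind (P (ex x q.1) (ex x q.2)) * (1 / ((q.1 : ℝ) * q.2)) ≤ R := by
    intro P n lo hi u v ok cov R hR
    have e1 : ∑ q ∈ T, ind (P (ex x q.1) (ex x q.2)) * (1 / ((q.1 : ℝ) * q.2)) =
        ∑ q ∈ T.filter (fun q => P (ex x q.1) (ex x q.2)), (1 : ℝ) / ((q.1 : ℝ) * q.2) := by
      rw [sum_filter]
      refine sum_congr rfl fun q _ => ?_
      split_ifs with h
      · rw [ind_pos h, one_mul]
      · rw [ind_neg h, zero_mul]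
    rw [e1]
    refine (region hm n lo hi u v ok _ ?_).trans ((sum_pd (by norm_num) n lo hi u v ok).trans hR)
    intro q hq
    rw [mem_filter] at hq
    obtain ⟨⟨a1, a2⟩, a3, a4, a5⟩ := hTm q hq.1
    exact ⟨a1, a2, cov _ _ a3 a4 a5 hq.2⟩
  have r1 := h2 (fun a b => b ≤ 5 / 12 + 2 * κ ∧ 7 / 12 - 4 * κ ≤ a + b) 30 lo1 hi1 u1 v1 ok1
    (fun a b g1 g2 _ g4 => cover1 hκ' g1 g2 g4.1 g4.2) _ num1
  have r2 := h2 (fun a b => 5 / 12 - 2 * κ ≤ a + b ∧ a + b ≤ 1 / 2 + 2 * κ) 10 lo2 hi2 u2 v2 ok2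
    (fun a b g1 g2 _ g4 => cover2 hκ' g1 g2 g4.1 g4.2) _ num2
  have r3 := h2 (fun _ b => 1 / 2 - 2 * κ ≤ b ∧ b ≤ 7 / 12 + 2 * κ) 10 lo3 hi3 u3 v3 ok3
    (fun a b g1 _ g3 g4 => cover3 hκ' g1 g3 g4.1 g4.2) _ num3
  have r4 := h2 (fun a b => 19 / 50 - 2 * κ ≤ a + b ∧ a + b ≤ 5 / 12) 5 lo4 hi4 u4 v4 ok4
    (fun a b g1 g2 _ g4 => cover4 hκ' g1 g2 g4.1 g4.2) _ num4
  have r5 := h2 (fun _ b => 7 / 12 ≤ b ∧ b ≤ 31 / 50 + 2 * κ) 4 lo5 hi5 u5 v5 ok5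
    (fun a b g1 _ g3 g4 => cover5 hκ' g1 g3 g4.1 g4.2) _ num5
  rw [h1]
  have h3 : ∑ q ∈ T, w2 κ (ex x q.1) (ex x q.2) * (1 / ((q.1 : ℝ) * q.2)) ≤
      2 * ∑ q ∈ T, ind (ex x q.2 ≤ 5 / 12 + 2 * κ ∧ 7 / 12 - 4 * κ ≤ ex x q.1 + ex x q.2) * (1 / ((q.1 : ℝ) * q.2)) +
      2 * ∑ q ∈ T, ind (5 / 12 - 2 * κ ≤ ex x q.1 + ex x q.2 ∧
        ex x q.1 + ex x q.2 ≤ 1 / 2 + 2 * κ) * (1 / ((q.1 : ℝ) * q.2)) +
      2 * ∑ q ∈ T, ind (1 / 2 - 2 * κ ≤ ex x q.2 ∧ ex x q.2 ≤ 7 / 12 + 2 * κ) * (1 / ((q.1 : ℝ) * q.2)) +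
      ∑ q ∈ T, ind (19 / 50 - 2 * κ ≤ ex x q.1 + ex x q.2 ∧ ex x q.1 + ex x q.2 ≤ 5 / 12) * (1 / ((q.1 : ℝ) * q.2)) +
      ∑ q ∈ T, ind (7 / 12 ≤ ex x q.2 ∧ ex x q.2 ≤ 31 / 50 + 2 * κ) * (1 / ((q.1 : ℝ) * q.2)) := by
    rw [mul_sum, mul_sum, mul_sum, ← sum_add_distrib, ← sum_add_distrib, ← sum_add_distrib,
      ← sum_add_distrib]
    refine sum_le_sum fun q _ => ?_
    have g := mul_le_mul_of_nonneg_right (w2_le κ (ex x q.1) (ex x q.2))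
      (by positivity : (0 : ℝ) ≤ 1 / ((q.1 : ℝ) * q.2))
    refine g.trans (le_of_eq ?_)
    ring
  linarith

end Pool.Agent.HS
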