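import Pool.Agent.Work.MP_92f640_nt.HS.W.Mer
import Pool.Agent.Work.MP_92f640_nt.HL.Evt

/-! # Module W.SumL3: four prime factors

`L3`: a sorted triple with a marked pair `s ∈ QQ` and the third prime with exponent in
`[1/6, 5/6 - s]`; windows are negligible. -/

namespace Pool.Agent.HS

open Finset

namespace SL3

open Classical

theorem mem_PS {x : ℕ} {u v : ℝ} {p : ℕ} :
    p ∈ PS x u v ↔ (1 ≤ p ∧ p ≤ x) ∧ p.Prime ∧ u ≤ ex x p ∧ ex x p ≤ v := by
  unfold PS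
  rw [mem_filter, mem_Icc]

theorem ex_mono {x p q : ℕ} (hx : 1 < x) (hp : 1 ≤ p) (h : p ≤ q) : ex x p ≤ ex x q := by
  unfold ex
  have h1 : 0 < Real.log x := Real.log_pos (by exact_mod_cast hx)
  apply div_le_div_of_nonneg_right _ h1.le
  exact Real.log_le_log (by exact_mod_cast hp) (by exact_mod_cast h)

/-- the hypothesis delivered by `mer` -/
def MerB (x : ℕ) (δ : ℝ) : Prop := ∀ u v : ℝ, 1 / 6 ≤ u → u ≤ v →
  ∑ p ∈ PS x u v, (1 : ℝ) / p ≤ Real.log (v / u) + δ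

theorem inner_le {x : ℕ} {δ : ℝ} (hm : MerB x δ) (hδ : 0 ≤ δ) {R : ℝ} (hR : 1 ≤ R)
    {s : Finset ℕ} {u v : ℝ} (hu : 1 / 6 ≤ u) (hs : s ⊆ PS x u v) (hv : v ≤ R * u) :
    ∑ p ∈ s, (1 : ℝ) / p ≤ Real.log R + δ := by
  have h0 : 0 ≤ Real.log R := Real.log_nonneg hR
  rcases le_or_gt u v with h | h
  · calc ∑ p ∈ s, (1 : ℝ) / p ≤ ∑ p ∈ PS x u v, (1 : ℝ) / p :=
          sum_le_sum_of_subset_of_nonneg hs (fun _ _ _ => by positivity)
      _ ≤ Real.log (v / u) + δ := hm u v hu h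
      _ ≤ Real.log R + δ := by
          have h1 : v / u ≤ R := by
            rw [div_le_iff₀ (by linarith)]
            exact hv
          have h2 : 0 < v / u := div_pos (by linarith) (by linarith)
          linarith [Real.log_le_log h2 h1]
  · have h1 : s = ∅ := by
      rw [eq_empty_iff_forall_notMem]
      intro p hp
      have := hs hp
      rw [mem_PS] at this
      linarith [this.2.2.1, this.2.2.2]
    rw [h1, sum_empty]
    linarith

theorem log_small {t : ℝ} (ht : 0 ≤ t) : Real.log (1 + t) ≤ t := by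
  have := Real.log_le_sub_one_of_pos (by linarith : (0 : ℝ) < 1 + t)
  linarith

/-- primes in a short band -/
theorem band_le {x : ℕ} {δ : ℝ} (hm : MerB x δ) (hδ : 0 ≤ δ) {base t h : ℝ} (hh : 0 ≤ h) :
    ∑ p ∈ (PP x).filter (fun p => |base + ex x p - t| ≤ h), (1 : ℝ) / p ≤ 12 * h + δ := by
  have h1 := inner_le hm hδ (R := 1 + 12 * h) (by linarith)
    (s := (PP x).filter (fun p => |base + ex x p - t| ≤ h)) (u := max (1 / 6) (t - base - h))
    (v := t - base + h) (le_max_left _ _) (by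
      intro p hp
      rw [mem_filter, PP, mem_PS, abs_le] at hp
      rw [mem_PS]
      refine ⟨hp.1.1, hp.1.2.1, max_le hp.1.2.2.1 ?_, ?_⟩
      · linarith [hp.2.1]
      · linarith [hp.2.2]) (by
      have h2 := le_max_left (1 / 6 : ℝ) (t - base - h)
      have h3 := le_max_right (1 / 6 : ℝ) (t - base - h)
      nlinarith)
  have h2 := log_small (by linarith : (0 : ℝ) ≤ 12 * h)
  linarith

/-- the windows -/
theorem win_le {x : ℕ} {δ κ : ℝ} (hm : MerB x δ) (hδ : 0 ≤ δ) (hκ : 0 ≤ κ) (base : ℝ) :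
    ∑ p ∈ PP x, w1 κ (base + ex x p) / p ≤ 288 * κ + 3 * δ := by
  have h1 : ∀ p ∈ PP x, w1 κ (base + ex x p) / p ≤
      (if |base + ex x p - 5 / 12| ≤ 8 * κ then (1 : ℝ) / p else 0) +
      (if |base + ex x p - 1 / 2| ≤ 8 * κ then (1 : ℝ) / p else 0) +
      (if |base + ex x p - 7 / 12| ≤ 8 * κ then (1 : ℝ) / p else 0) := by
    intro p _
    have hp : (0 : ℝ) ≤ 1 / p := by positivity
    unfold w1 Win
    split_ifs with h1 h2 h3 h4 h3 h4 h3 h4 <;> first | (exfalso; tauto) | (simp; try linarith)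
  refine (sum_le_sum h1).trans ?_
  rw [sum_add_distrib, sum_add_distrib, ← sum_filter, ← sum_filter, ← sum_filter]
  have h2 := band_le hm hδ (base := base) (t := 5 / 12) (h := 8 * κ) (by linarith)
  have h3 := band_le hm hδ (base := base) (t := 1 / 2) (h := 8 * κ) (by linarith)
  have h4 := band_le hm hδ (base := base) (t := 7 / 12) (h := 8 * κ) (by linarith)
  linarith

theorem T_le {x : ℕ} {δ : ℝ} (hm : MerB x δ) (hδ : 0 ≤ δ) (hδ1 : δ ≤ 1 / 10) :
    ∑ p ∈ PP x, (1 : ℝ) / p ≤ 2 := by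
  have h1 := inner_le hm hδ (R := 1 + 4) (by norm_num) (s := PP x) (u := 1 / 6) (v := 5 / 6)
    (le_refl _) (subset_refl _) (by norm_num)
  have h2 := log_pade 4 (by norm_num)
  norm_num at h2 h1 ⊢
  linarith

/-- pairs with a prescribed sum of exponents; the smaller exponent in `[α, β]` -/
theorem pairs_block {x : ℕ} {δ : ℝ} (hx : 1 < x) (hm : MerB x δ) (hδ : 0 ≤ δ) {lo hi α β R : ℝ}
    (hα : 1 / 6 ≤ α) (hαβ : α ≤ β) (hR : 1 ≤ R)
    (h : ∀ a, α ≤ a → a ≤ β → hi - a ≤ R * a ∨ hi - a ≤ R * (lo - a)) {s : Finset ℕ}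
    (hs : s ⊆ PP x) (hsa : ∀ p ∈ s, α ≤ ex x p ∧ ex x p ≤ β) :
    ∑ p ∈ s, ∑ p' ∈ PP x, (if p < p' ∧ lo ≤ ex x p + ex x p' ∧ ex x p + ex x p' ≤ hi then
      (1 : ℝ) / (p * p') else 0) ≤ (Real.log (β / α) + δ) * (Real.log R + δ) := by
  have h0 : 0 ≤ Real.log R := Real.log_nonneg hR
  have h1 : ∀ p ∈ s, ∑ p' ∈ PP x, (if p < p' ∧ lo ≤ ex x p + ex x p' ∧ ex x p + ex x p' ≤ hi then
      (1 : ℝ) / (p * p') else 0) ≤ 1 / p * (Real.log R + δ) := by
    intro p hp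
    obtain ⟨ha1, ha2⟩ := hsa p hp
    have hpP := hs hp
    rw [PP, mem_PS] at hpP
    have e1 : ∀ p' ∈ PP x, (if p < p' ∧ lo ≤ ex x p + ex x p' ∧ ex x p + ex x p' ≤ hi then
      (1 : ℝ) / (p * p') else 0) = 1 / p * (if p < p' ∧ lo ≤ ex x p + ex x p' ∧
        ex x p + ex x p' ≤ hi then (1 : ℝ) / p' else 0) := by
      intro p' _
      split_ifs
      · rw [one_div_mul_one_div]
      · rw [mul_zero]
    rw [sum_congr rfl e1, ← mul_sum, ← sum_filter]
    apply mul_le_mul_of_nonneg_left _ (by positivity)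
    apply inner_le hm hδ hR (u := max (ex x p) (lo - ex x p)) (v := hi - ex x p)
    · exact (hα.trans ha1).trans (le_max_left _ _)
    · intro p' hp'
      rw [mem_filter, PP, mem_PS] at hp'
      rw [mem_PS]
      refine ⟨hp'.1.1, hp'.1.2.1, max_le (ex_mono hx hpP.1.1 hp'.2.1.le) ?_, ?_⟩
      · linarith [hp'.2.2.1]
      · linarith [hp'.2.2.2]
    · rcases h _ ha1 ha2 with h2 | h2
      · exact h2.trans (mul_le_mul_of_nonneg_left (le_max_left _ _) (by linarith))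
      · exact h2.trans (mul_le_mul_of_nonneg_left (le_max_right _ _) (by linarith))
  refine (sum_le_sum h1).trans ?_
  rw [← sum_mul]
  apply mul_le_mul_of_nonneg_right _ (by linarith)
  refine (sum_le_sum_of_subset_of_nonneg (t := PS x α β) ?_ (fun _ _ _ => by positivity)).trans
    (hm α β hα hαβ)
  intro p hp
  have hpP := hs hp
  rw [PP, mem_PS] at hpP
  rw [mem_PS]
  exact ⟨hpP.1, hpP.2.1, hsa p hp⟩

/-- pair sums -/
noncomputable def SP (x : ℕ) (lo hi : ℝ) : ℝ := ∑ p ∈ PP x, ∑ p' ∈ PP x,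
  (if p < p' ∧ lo ≤ ex x p + ex x p' ∧ ex x p + ex x p' ≤ hi then (1 : ℝ) / (p * p') else 0)

theorem SP_zero {x : ℕ} (hx : 1 < x) {lo hi : ℝ} {p : ℕ} (hp : p ∈ PP x) (h : hi < 2 * ex x p) :
    ∑ p' ∈ PP x, (if p < p' ∧ lo ≤ ex x p + ex x p' ∧ ex x p + ex x p' ≤ hi then
      (1 : ℝ) / (p * p') else 0) = 0 := by
  refine sum_eq_zero fun p' _ => ?_
  rw [PP, mem_PS] at hp
  rw [if_neg]
  rintro ⟨h1, _, h2⟩
  have := ex_mono hx hp.1.1 h1.le
  linarith

theorem SA_le {x : ℕ} {δ κ : ℝ} (hx : 1 < x) (hm : MerB x δ) (hδ : 0 ≤ δ) (hδ1 : δ ≤ 1 / 10 ^ 8)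
    (hκ : 0 ≤ κ) (hκ1 : κ ≤ 1 / 10 ^ 8) : SP x (19 / 50 - 2 * κ) (5 / 12 + 2 * κ) ≤ 397 / 10000 := by
  have h1 := pairs_block hx hm hδ (lo := 19 / 50 - 2 * κ) (hi := 5 / 12 + 2 * κ) (α := 1 / 6)
    (β := 5 / 24 + κ) (R := 1 + 194 / 1000) (le_refl _) (by linarith) (by norm_num) (by
      intro a _ h2
      rcases le_or_gt (19 / 100) a with h3 | h3
      · left; linarith
      · right; linarith) (s := (PP x).filter (fun p => ex x p ≤ 5 / 24 + κ))
    (filter_subset _ _) (by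
      intro p hp
      rw [mem_filter, PP, mem_PS] at hp
      exact ⟨hp.1.2.2.1, hp.2⟩)
  have h2 : SP x (19 / 50 - 2 * κ) (5 / 12 + 2 * κ) =
      ∑ p ∈ (PP x).filter (fun p => ex x p ≤ 5 / 24 + κ), ∑ p' ∈ PP x,
        (if p < p' ∧ 19 / 50 - 2 * κ ≤ ex x p + ex x p' ∧ ex x p + ex x p' ≤ 5 / 12 + 2 * κ then
        (1 : ℝ) / (p * p') else 0) := by
    unfold SP
    rw [sum_filter]
    refine sum_congr rfl fun p hp => ?_
    split_ifs with h
    · rfl
    · exact SP_zero hx hp (by linarith)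
  rw [h2]
  refine h1.trans ?_
  have e1 : (5 / 24 + κ) / (1 / 6) = 1 + (1 / 4 + 6 * κ) := by ring
  rw [e1]
  have h3 := log_pade (1 / 4 + 6 * κ) (by linarith)
  have h3' : Real.log (1 + (1 / 4 + 6 * κ)) ≤ 22325 / 100000 := by
    refine h3.trans ?_
    rw [div_le_iff₀ (by linarith)]
    nlinarith
  have h4 := log_pade (194 / 1000) (by norm_num)
  have h4' : Real.log (1 + 194 / 1000) ≤ 1774 / 10000 := by
    refine h4.trans ?_
    norm_num
  have h5 : 0 ≤ Real.log (1 + (1 / 4 + 6 * κ)) := Real.log_nonneg (by linarith)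
  have h6 : 0 ≤ Real.log (1 + 194 / 1000) := Real.log_nonneg (by norm_num)
  calc (Real.log (1 + (1 / 4 + 6 * κ)) + δ) * (Real.log (1 + 194 / 1000) + δ)
      ≤ (22325 / 100000 + 1 / 10 ^ 8) * (1774 / 10000 + 1 / 10 ^ 8) := by gcongr
    _ ≤ _ := by norm_num

theorem SB_le {x : ℕ} {δ κ : ℝ} (hx : 1 < x) (hm : MerB x δ) (hδ : 0 ≤ δ) (hδ1 : δ ≤ 1 / 10 ^ 8)
    (hκ1 : κ ≤ 1 / 10 ^ 8) : SP x (7 / 12 - 4 * κ) (31 / 50) ≤ 674 / 10000 := by
  have h1 := pairs_block hx hm hδ (lo := 7 / 12 - 4 * κ) (hi := 31 / 50) (α := 1 / 6)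
    (β := 23 / 100) (R := 1 + 1038 / 10000) (le_refl _) (by norm_num) (by norm_num) (by
      intro a _ h2
      right; linarith) (s := (PP x).filter (fun p => ex x p ≤ 23 / 100))
    (filter_subset _ _) (by
      intro p hp
      rw [mem_filter, PP, mem_PS] at hp
      exact ⟨hp.1.2.2.1, hp.2⟩)
  have h1' := pairs_block hx hm hδ (lo := 7 / 12 - 4 * κ) (hi := 31 / 50) (α := 23 / 100)
    (β := 31 / 100) (R := 1 + 126 / 1000) (by norm_num) (by norm_num) (by norm_num) (by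
      intro a _ h2
      rcases le_or_gt (2917 / 10000) a with h3 | h3
      · left; linarith
      · right; linarith) (s := (PP x).filter (fun p => 23 / 100 < ex x p ∧ ex x p ≤ 31 / 100))
    (filter_subset _ _) (by
      intro p hp
      rw [mem_filter, PP, mem_PS] at hp
      exact ⟨hp.2.1.le, hp.2.2⟩)
  have h2 : SP x (7 / 12 - 4 * κ) (31 / 50) =
      ∑ p ∈ (PP x).filter (fun p => ex x p ≤ 23 / 100), ∑ p' ∈ PP x,
        (if p < p' ∧ 7 / 12 - 4 * κ ≤ ex x p + ex x p' ∧ ex x p + ex x p' ≤ 31 / 50 then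
        (1 : ℝ) / (p * p') else 0) +
      ∑ p ∈ (PP x).filter (fun p => 23 / 100 < ex x p ∧ ex x p ≤ 31 / 100), ∑ p' ∈ PP x,
        (if p < p' ∧ 7 / 12 - 4 * κ ≤ ex x p + ex x p' ∧ ex x p + ex x p' ≤ 31 / 50 then
        (1 : ℝ) / (p * p') else 0) := by
    unfold SP
    rw [sum_filter, sum_filter, ← sum_add_distrib]
    refine sum_congr rfl fun p hp => ?_
    by_cases h3 : ex x p ≤ 23 / 100
    · rw [if_pos h3, if_neg (by intro h; linarith [h.1]), add_zero]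
    · rw [if_neg h3, zero_add]
      push Not at h3
      by_cases h4 : ex x p ≤ 31 / 100
      · rw [if_pos ⟨h3, h4⟩]
      · rw [if_neg (by tauto)]
        push Not at h4
        exact SP_zero hx hp (by linarith)
  rw [h2]
  refine (add_le_add h1 h1').trans ?_
  have e1 : (23 / 100 : ℝ) / (1 / 6) = 1 + 38 / 100 := by norm_num
  have e2 : (31 / 100 : ℝ) / (23 / 100) = 1 + 8 / 23 := by norm_num
  rw [e1, e2]
  have a1 : Real.log (1 + 38 / 100) ≤ 3224 / 10000 :=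
    (log_pade (38 / 100) (by norm_num)).trans (by norm_num)
  have a2 : Real.log (1 + 1038 / 10000) ≤ 989 / 10000 :=
    (log_pade (1038 / 10000) (by norm_num)).trans (by norm_num)
  have a3 : Real.log (1 + 8 / 23) ≤ 2988 / 10000 :=
    (log_pade (8 / 23) (by norm_num)).trans (by norm_num)
  have a4 : Real.log (1 + 126 / 1000) ≤ 1187 / 10000 :=
    (log_pade (126 / 1000) (by norm_num)).trans (by norm_num)
  have b2 : 0 ≤ Real.log (1 + 1038 / 10000) := Real.log_nonneg (by norm_num)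
  have b4 : 0 ≤ Real.log (1 + 126 / 1000) := Real.log_nonneg (by norm_num)
  calc (Real.log (1 + 38 / 100) + δ) * (Real.log (1 + 1038 / 10000) + δ) +
      (Real.log (1 + 8 / 23) + δ) * (Real.log (1 + 126 / 1000) + δ)
      ≤ (3224 / 10000 + 1 / 10 ^ 8) * (989 / 10000 + 1 / 10 ^ 8) +
        (2988 / 10000 + 1 / 10 ^ 8) * (1187 / 10000 + 1 / 10 ^ 8) := by gcongr
    _ ≤ _ := by norm_num

theorem SC_le {x : ℕ} {δ κ : ℝ} (hm : MerB x δ) (hδ : 0 ≤ δ) (hδ1 : δ ≤ 1 / 10 ^ 8)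
    (hκ : 0 ≤ κ) (hκ1 : κ ≤ 1 / 10 ^ 8) : SP x (1 / 2 - 4 * κ) (1 / 2 + 4 * κ) ≤ 1 / 10 ^ 5 := by
  have h1 : ∀ p ∈ PP x, ∑ p' ∈ PP x, (if p < p' ∧ 1 / 2 - 4 * κ ≤ ex x p + ex x p' ∧
      ex x p + ex x p' ≤ 1 / 2 + 4 * κ then (1 : ℝ) / (p * p') else 0) ≤
      1 / p * (48 * κ + δ) := by
    intro p _
    have h2 := band_le hm hδ (base := ex x p) (t := 1 / 2) (h := 4 * κ) (by linarith)
    calc ∑ p' ∈ PP x, (if p < p' ∧ 1 / 2 - 4 * κ ≤ ex x p + ex x p' ∧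
      ex x p + ex x p' ≤ 1 / 2 + 4 * κ then (1 : ℝ) / (p * p') else 0) ≤
        ∑ p' ∈ PP x, 1 / p * (if |ex x p + ex x p' - 1 / 2| ≤ 4 * κ then (1 : ℝ) / p' else 0) := by
          refine sum_le_sum fun p' _ => ?_
          have hp : (0 : ℝ) ≤ 1 / (p * p') := by positivity
          by_cases hc : p < p' ∧ 1 / 2 - 4 * κ ≤ ex x p + ex x p' ∧ ex x p + ex x p' ≤ 1 / 2 + 4 * κ
          · rw [if_pos hc, if_pos (by rw [abs_le]; constructor <;> linarith [hc.2.1, hc.2.2]),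
              one_div_mul_one_div]
          · rw [if_neg hc]
            split_ifs <;> positivity
      _ = 1 / p * ∑ p' ∈ (PP x).filter (fun p' => |ex x p + ex x p' - 1 / 2| ≤ 4 * κ),
            (1 : ℝ) / p' := by rw [← mul_sum, sum_filter]
      _ ≤ 1 / p * (48 * κ + δ) := by
          apply mul_le_mul_of_nonneg_left _ (by positivity)
          linarith
  unfold SP
  refine (sum_le_sum h1).trans ?_
  rw [← sum_mul]
  have h2 := T_le hm hδ (by linarith)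
  have h3 : 0 ≤ 48 * κ + δ := by positivity
  calc (∑ p ∈ PP x, (1 : ℝ) / p) * (48 * κ + δ) ≤ 2 * (48 * κ + δ) :=
        mul_le_mul_of_nonneg_right h2 h3
    _ ≤ _ := by linarith

/-- the third prime -/
theorem third_le {x : ℕ} {δ : ℝ} (hm : MerB x δ) (hδ : 0 ≤ δ) {s R : ℝ} (hR : 1 ≤ R)
    (hs : 6 * (5 / 6 - s) ≤ R) :
    ∑ r ∈ PP x, (if ex x r ≤ 5 / 6 - s then (1 : ℝ) / r else 0) ≤ Real.log R + δ := by
  rw [← sum_filter]
  apply inner_le hm hδ hR (u := 1 / 6) (v := 5 / 6 - s) (le_refl _)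
  · intro p hp
    rw [mem_filter, PP, mem_PS] at hp
    rw [mem_PS]
    exact ⟨hp.1.1, hp.1.2.1, hp.1.2.2.1, hp.2⟩
  · linarith

theorem tri_prod (s : Finset ℕ) (f g h : ℕ → ℝ) :
    ∑ p ∈ s, ∑ q ∈ s, ∑ r ∈ s, f p * g q * h r = (∑ p ∈ s, f p) * (∑ q ∈ s, g q) * ∑ r ∈ s, h r := by
  rw [sum_mul_sum, sum_mul]
  refine sum_congr rfl fun p _ => ?_
  rw [sum_mul_sum]

/-- indicator of a sorted triple -/
noncomputable def tt (x p q r : ℕ) : ℝ :=
  if p < q ∧ q < r ∧ ex x p + ex x q + ex x r ≤ 5 / 6 then 1 else 0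

noncomputable def qq (κ s : ℝ) : ℝ := if QQ κ s then 1 else 0

theorem qq_nonneg (κ s : ℝ) : 0 ≤ qq κ s := by
  unfold qq
  split_ifs <;> norm_num

theorem w1_nonneg (κ s : ℝ) : 0 ≤ w1 κ s := by
  unfold w1
  split_ifs <;> norm_num

theorem tt_sum_le (x q q' r : ℕ) : tt x q q' r + tt x q r q' + tt x r q q' ≤
    if q < q' then (if ex x r ≤ 5 / 6 - (ex x q + ex x q') then 1 else 0) else 0 := by
  unfold tt
  by_cases h1 : q < q'
  · rw [if_pos h1]
    by_cases h2 : ex x r ≤ 5 / 6 - (ex x q + ex x q')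
    · rw [if_pos h2]
      rcases lt_trichotomy q' r with h3 | h3 | h3
      · rw [if_pos ⟨h1, h3, by linarith⟩, if_neg (by rintro ⟨_, h4, _⟩; omega),
          if_neg (by rintro ⟨h4, _, _⟩; omega)]
        norm_num
      · rw [if_neg (by rintro ⟨_, h4, _⟩; omega), if_neg (by rintro ⟨_, h4, _⟩; omega),
          if_neg (by rintro ⟨h4, _, _⟩; omega)]
        norm_num
      · rw [if_neg (by rintro ⟨_, h4, _⟩; omega)]
        rcases lt_trichotomy q r with h5 | h5 | h5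
        · rw [if_pos ⟨h5, h3, by linarith⟩, if_neg (by rintro ⟨h4, _, _⟩; omega)]
          norm_num
        · rw [if_neg (by rintro ⟨h4, _, _⟩; omega), if_neg (by rintro ⟨h4, _, _⟩; omega)]
          norm_num
        · rw [if_neg (by rintro ⟨h4, _, _⟩; omega), if_pos ⟨h5, h1, by linarith⟩]
          norm_num
    · rw [if_neg h2, if_neg (by rintro ⟨_, _, h4⟩; linarith), if_neg (by rintro ⟨_, _, h4⟩; linarith),
        if_neg (by rintro ⟨_, _, h4⟩; linarith)]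
      norm_num
  · rw [if_neg h1, if_neg (by rintro ⟨h4, _, _⟩; omega), if_neg (by rintro ⟨h4, h5, _⟩; omega),
      if_neg (by rintro ⟨_, h4, _⟩; omega)]
    norm_num

theorem qq_split {κ s gA gB gC G : ℝ} (hA : 0 ≤ gA) (hB : 0 ≤ gB) (hC : 0 ≤ gC)
    (h1 : 19 / 50 - 2 * κ ≤ s → s ≤ 5 / 12 + 2 * κ → G ≤ gA)
    (h2 : 7 / 12 - 4 * κ ≤ s → s ≤ 31 / 50 → G ≤ gB)
    (h3 : 1 / 2 - 4 * κ ≤ s → s ≤ 1 / 2 + 4 * κ → G ≤ gC) :
    qq κ s * G ≤ (if 19 / 50 - 2 * κ ≤ s ∧ s ≤ 5 / 12 + 2 * κ then gA else 0) +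
      (if 7 / 12 - 4 * κ ≤ s ∧ s ≤ 31 / 50 then gB else 0) +
      (if 1 / 2 - 4 * κ ≤ s ∧ s ≤ 1 / 2 + 4 * κ then gC else 0) := by
  have i1 : 0 ≤ (if 19 / 50 - 2 * κ ≤ s ∧ s ≤ 5 / 12 + 2 * κ then gA else 0) := by
    split_ifs <;> linarith
  have i2 : 0 ≤ (if 7 / 12 - 4 * κ ≤ s ∧ s ≤ 31 / 50 then gB else 0) := by
    split_ifs <;> linarith
  have i3 : 0 ≤ (if 1 / 2 - 4 * κ ≤ s ∧ s ≤ 1 / 2 + 4 * κ then gC else 0) := by
    split_ifs <;> linarith
  unfold qq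
  by_cases h : QQ κ s
  · rw [if_pos h, one_mul]
    unfold QQ at h
    rcases h with h | h | h
    · have := h1 h.1 h.2
      rw [if_pos h] at i1 ⊢
      linarith
    · have := h2 h.1 h.2
      rw [if_pos h] at i2 ⊢
      linarith
    · rw [abs_le] at h
      have h' : 1 / 2 - 4 * κ ≤ s ∧ s ≤ 1 / 2 + 4 * κ := ⟨by linarith [h.1], by linarith [h.2]⟩
      have := h3 h'.1 h'.2
      rw [if_pos h'] at i3 ⊢
      linarith
  · rw [if_neg h, zero_mul]
    linarith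

/-- the marked pairs -/
theorem S5_le {x : ℕ} {δ κ : ℝ} (hx : 1 < x) (hm : MerB x δ) (hδ : 0 ≤ δ) (hδ1 : δ ≤ 1 / 10 ^ 8)
    (hκ : 0 ≤ κ) (hκ1 : κ ≤ 1 / 10 ^ 8) : ∑ p ∈ PP x, ∑ p' ∈ PP x, ∑ p'' ∈ PP x, tt x p p' p'' *
      (qq κ (ex x p + ex x p') + qq κ (ex x p + ex x p'') + qq κ (ex x p' + ex x p'')) *
      (1 / ((p : ℝ) * p' * p'')) ≤ 685 / 10000 := by
  have e1 : ∑ p ∈ PP x, ∑ p' ∈ PP x, ∑ p'' ∈ PP x, tt x p p' p'' *
      (qq κ (ex x p + ex x p') + qq κ (ex x p + ex x p'') + qq κ (ex x p' + ex x p'')) *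
      (1 / ((p : ℝ) * p' * p'')) =
      ∑ q ∈ PP x, ∑ q' ∈ PP x, ∑ r ∈ PP x, (tt x q q' r + tt x q r q' + tt x r q q') *
        (qq κ (ex x q + ex x q') * (1 / ((q : ℝ) * q')) * (1 / r)) := by
    have a1 : ∑ p ∈ PP x, ∑ p' ∈ PP x, ∑ p'' ∈ PP x, tt x p p' p'' *
      (qq κ (ex x p + ex x p') + qq κ (ex x p + ex x p'') + qq κ (ex x p' + ex x p'')) *
      (1 / ((p : ℝ) * p' * p'')) =
      ∑ p ∈ PP x, ∑ p' ∈ PP x, ∑ p'' ∈ PP x, tt x p p' p'' *
        (qq κ (ex x p + ex x p') * (1 / ((p : ℝ) * p')) * (1 / p'')) +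
      ∑ p ∈ PP x, ∑ p' ∈ PP x, ∑ p'' ∈ PP x, tt x p p' p'' *
        (qq κ (ex x p + ex x p'') * (1 / ((p : ℝ) * p'')) * (1 / p')) +
      ∑ p ∈ PP x, ∑ p' ∈ PP x, ∑ p'' ∈ PP x, tt x p p' p'' *
        (qq κ (ex x p' + ex x p'') * (1 / ((p' : ℝ) * p'')) * (1 / p)) := by
      rw [← sum_add_distrib, ← sum_add_distrib]
      refine sum_congr rfl fun p _ => ?_
      rw [← sum_add_distrib, ← sum_add_distrib]
      refine sum_congr rfl fun p' _ => ?_
      rw [← sum_add_distrib, ← sum_add_distrib]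
      refine sum_congr rfl fun p'' _ => ?_
      simp only [one_div, mul_inv]
      ring
    have a2 : ∑ p ∈ PP x, ∑ p' ∈ PP x, ∑ p'' ∈ PP x, tt x p p' p'' *
        (qq κ (ex x p + ex x p'') * (1 / ((p : ℝ) * p'')) * (1 / p')) =
        ∑ q ∈ PP x, ∑ q' ∈ PP x, ∑ r ∈ PP x, tt x q r q' *
        (qq κ (ex x q + ex x q') * (1 / ((q : ℝ) * q')) * (1 / r)) :=
      sum_congr rfl fun p _ => sum_comm
    have a3 : ∑ p ∈ PP x, ∑ p' ∈ PP x, ∑ p'' ∈ PP x, tt x p p' p'' *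
        (qq κ (ex x p' + ex x p'') * (1 / ((p' : ℝ) * p'')) * (1 / p)) =
        ∑ q ∈ PP x, ∑ q' ∈ PP x, ∑ r ∈ PP x, tt x r q q' *
        (qq κ (ex x q + ex x q') * (1 / ((q : ℝ) * q')) * (1 / r)) := by
      rw [sum_comm]
      exact sum_congr rfl fun p _ => sum_comm
    rw [a1, a2, a3, ← sum_add_distrib, ← sum_add_distrib]
    refine sum_congr rfl fun p _ => ?_
    rw [← sum_add_distrib, ← sum_add_distrib]
    refine sum_congr rfl fun p' _ => ?_
    rw [← sum_add_distrib, ← sum_add_distrib]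
    refine sum_congr rfl fun p'' _ => ?_
    ring
  rw [e1]
  have hgA := log_pade (1721 / 1000) (by norm_num)
  have hgB := log_pade (50001 / 100000) (by norm_num)
  have hgC := log_pade (11 / 10) (by norm_num)
  have h1 : ∀ q ∈ PP x, ∀ q' ∈ PP x, ∑ r ∈ PP x, (tt x q q' r + tt x q r q' + tt x r q q') *
        (qq κ (ex x q + ex x q') * (1 / ((q : ℝ) * q')) * (1 / r)) ≤
      10314 / 10000 * (if q < q' ∧ 19 / 50 - 2 * κ ≤ ex x q + ex x q' ∧
        ex x q + ex x q' ≤ 5 / 12 + 2 * κ then (1 : ℝ) / (q * q') else 0) +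
      4064 / 10000 * (if q < q' ∧ 7 / 12 - 4 * κ ≤ ex x q + ex x q' ∧
        ex x q + ex x q' ≤ 31 / 50 then (1 : ℝ) / (q * q') else 0) +
      1 * (if q < q' ∧ 1 / 2 - 4 * κ ≤ ex x q + ex x q' ∧
        ex x q + ex x q' ≤ 1 / 2 + 4 * κ then (1 : ℝ) / (q * q') else 0) := by
    intro q _ q' _
    set s : ℝ := ex x q + ex x q' with hs
    set N : ℝ := (1 : ℝ) / (q * q') with hN
    have hN0 : 0 ≤ N := by rw [hN]; positivity
    set G : ℝ := ∑ r ∈ PP x, (if ex x r ≤ 5 / 6 - s then (1 : ℝ) / r else 0) with hG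
    have hG0 : 0 ≤ G := by
      rw [hG]
      refine sum_nonneg fun r _ => ?_
      split_ifs <;> positivity
    have h2 : ∑ r ∈ PP x, (tt x q q' r + tt x q r q' + tt x r q q') *
        (qq κ s * N * (1 / r)) ≤ if q < q' then (qq κ s * G) * N else 0 := by
      have h3 : ∀ r ∈ PP x, (tt x q q' r + tt x q r q' + tt x r q q') *
        (qq κ s * N * (1 / r)) ≤ if q < q' then qq κ s * N *
          (if ex x r ≤ 5 / 6 - s then (1 : ℝ) / r else 0) else 0 := by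
        intro r hr
        have h4 := tt_sum_le x q q' r
        have h5 : 0 ≤ qq κ s * N * (1 / (r : ℝ)) := by
          have := qq_nonneg κ s
          positivity
        refine (mul_le_mul_of_nonneg_right h4 h5).trans (le_of_eq ?_)
        rw [← hs]
        split_ifs <;> ring
      refine (sum_le_sum h3).trans (le_of_eq ?_)
      split_ifs
      · rw [← mul_sum]
        ring
      · simp
    refine h2.trans ?_
    by_cases hqq : q < q'
    · rw [if_pos hqq]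
      have h3 := qq_split (κ := κ) (s := s) (gA := 10314 / 10000) (gB := 4064 / 10000) (gC := 1)
        (by norm_num) (by norm_num) (by norm_num) (by
          intro h4 _
          have h5 := third_le hm hδ (s := s) (R := 1 + 1721 / 1000) (by norm_num) (by linarith)
          refine h5.trans ?_
          norm_num at hgA ⊢
          linarith) (by
          intro h4 _
          have h5 := third_le hm hδ (s := s) (R := 1 + 50001 / 100000) (by norm_num) (by linarith)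
          refine h5.trans ?_
          norm_num at hgB ⊢
          linarith) (by
          intro h4 _
          have h5 := third_le hm hδ (s := s) (R := 1 + 11 / 10) (by norm_num) (by linarith)
          refine h5.trans ?_
          norm_num at hgC ⊢
          linarith)
      refine (mul_le_mul_of_nonneg_right h3 hN0).trans (le_of_eq ?_)
      simp only [hqq, true_and]
      split_ifs <;> ring
    · rw [if_neg hqq]
      simp only [hqq, false_and, if_false]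
      norm_num
  refine (sum_le_sum fun q hq => sum_le_sum fun q' hq' => h1 q hq q' hq').trans ?_
  have hA := SA_le hx hm hδ hδ1 hκ hκ1
  have hB := SB_le hx hm hδ hδ1 hκ1
  have hC := SC_le hm hδ hδ1 hκ hκ1
  unfold SP at hA hB hC
  have e2 : ∑ q ∈ PP x, ∑ q' ∈ PP x, (10314 / 10000 * (if q < q' ∧ 19 / 50 - 2 * κ ≤ ex x q + ex x q' ∧
        ex x q + ex x q' ≤ 5 / 12 + 2 * κ then (1 : ℝ) / (q * q') else 0) +
      4064 / 10000 * (if q < q' ∧ 7 / 12 - 4 * κ ≤ ex x q + ex x q' ∧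
        ex x q + ex x q' ≤ 31 / 50 then (1 : ℝ) / (q * q') else 0) +
      1 * (if q < q' ∧ 1 / 2 - 4 * κ ≤ ex x q + ex x q' ∧
        ex x q + ex x q' ≤ 1 / 2 + 4 * κ then (1 : ℝ) / (q * q') else 0)) =
      10314 / 10000 * (∑ q ∈ PP x, ∑ q' ∈ PP x, (if q < q' ∧ 19 / 50 - 2 * κ ≤ ex x q + ex x q' ∧
        ex x q + ex x q' ≤ 5 / 12 + 2 * κ then (1 : ℝ) / (q * q') else 0)) +
      4064 / 10000 * (∑ q ∈ PP x, ∑ q' ∈ PP x, (if q < q' ∧ 7 / 12 - 4 * κ ≤ ex x q + ex x q' ∧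
        ex x q + ex x q' ≤ 31 / 50 then (1 : ℝ) / (q * q') else 0)) +
      1 * (∑ q ∈ PP x, ∑ q' ∈ PP x, (if q < q' ∧ 1 / 2 - 4 * κ ≤ ex x q + ex x q' ∧
        ex x q + ex x q' ≤ 1 / 2 + 4 * κ then (1 : ℝ) / (q * q') else 0)) := by
    simp only [mul_sum, ← sum_add_distrib]
  rw [e2]
  linarith

theorem L3_core {x : ℕ} {δ : ℝ} (hx : 1 < x) (hm : MerB x δ) (hδ : 0 ≤ δ) (hδ1 : δ ≤ 1 / 10 ^ 8)
    (hκ : 0 ≤ kap x) (hκ1 : kap x ≤ 1 / 10 ^ 8) : L3 x ≤ 7 / 100 := by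
  set κ := kap x with hκd
  have hT := T_le hm hδ (by linarith)
  have hT0 : 0 ≤ ∑ p ∈ PP x, (1 : ℝ) / p := sum_nonneg fun _ _ => by positivity
  have hW := win_le hm hδ hκ 0
  have hW0 : 0 ≤ ∑ p ∈ PP x, w1 κ (0 + ex x p) / p :=
    sum_nonneg fun p _ => div_nonneg (w1_nonneg _ _) (Nat.cast_nonneg p)
  have hpt : ∀ p ∈ PP x, ∀ p' ∈ PP x, ∀ p'' ∈ PP x,
      (if p < p' then (if p' < p'' ∧ ex x p + ex x p' + ex x p'' ≤ 5 / 6 then
        w3 κ (ex x p) (ex x p') (ex x p'') / (p * p' * p'') else 0) else 0) ≤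
      w1 κ (0 + ex x p) / p * (1 / p') * (1 / p'') + 1 / p * (w1 κ (0 + ex x p') / p') * (1 / p'') +
      1 / p * (1 / p') * (w1 κ (0 + ex x p'') / p'') +
      1 / p * (1 / p') * (w1 κ (ex x p + ex x p' + ex x p'') / p'') +
      tt x p p' p'' *
      (qq κ (ex x p + ex x p') + qq κ (ex x p + ex x p'') + qq κ (ex x p' + ex x p'')) *
      (1 / ((p : ℝ) * p' * p'')) := by
    intro p _ p' _ p'' _
    have a1 := w1_nonneg κ (0 + ex x p)
    have a2 := w1_nonneg κ (0 + ex x p')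
    have a3 := w1_nonneg κ (0 + ex x p'')
    have a4 := w1_nonneg κ (ex x p + ex x p' + ex x p'')
    have b1 := qq_nonneg κ (ex x p + ex x p')
    have b2 := qq_nonneg κ (ex x p + ex x p'')
    have b3 := qq_nonneg κ (ex x p' + ex x p'')
    have e1 : w1 κ (0 + ex x p) / p * (1 / p') * (1 / p'') + 1 / p * (w1 κ (0 + ex x p') / p') *
      (1 / p'') + 1 / p * (1 / p') * (w1 κ (0 + ex x p'') / p'') +
      1 / p * (1 / p') * (w1 κ (ex x p + ex x p' + ex x p'') / p'') =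
      (w1 κ (0 + ex x p) + w1 κ (0 + ex x p') + w1 κ (0 + ex x p'') +
        w1 κ (ex x p + ex x p' + ex x p'')) * (1 / ((p : ℝ) * p' * p'')) := by
      simp only [mul_inv, div_eq_mul_inv]
      ring
    rw [e1]
    have hN : (0 : ℝ) ≤ 1 / ((p : ℝ) * p' * p'') := by positivity
    have ht : 0 ≤ tt x p p' p'' := by unfold tt; split_ifs <;> norm_num
    by_cases hc : p < p' ∧ p' < p'' ∧ ex x p + ex x p' + ex x p'' ≤ 5 / 6
    · rw [if_pos hc.1, if_pos hc.2]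
      have e2 : tt x p p' p'' = 1 := by unfold tt; rw [if_pos hc]
      rw [e2]
      unfold w3 qq
      simp only [zero_add]
      rw [div_eq_mul_one_div]
      apply le_of_eq
      ring
    · have e3 : (if p < p' then (if p' < p'' ∧ ex x p + ex x p' + ex x p'' ≤ 5 / 6 then
        w3 κ (ex x p) (ex x p') (ex x p'') / (p * p' * p'') else 0) else 0) = 0 := by
        split_ifs with h1 h2
        · exact absurd ⟨h1, h2⟩ hc
        · rfl
        · rfl
      rw [e3]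
      positivity
  have e0 : L3 x = ∑ p ∈ PP x, ∑ p' ∈ PP x, ∑ p'' ∈ PP x,
      (if p < p' then (if p' < p'' ∧ ex x p + ex x p' + ex x p'' ≤ 5 / 6 then
        w3 κ (ex x p) (ex x p') (ex x p'') / (p * p' * p'') else 0) else 0) := by
    unfold L3
    refine sum_congr rfl fun p _ => ?_
    rw [sum_filter]
    refine sum_congr rfl fun p' _ => ?_
    split_ifs with h
    · rw [sum_filter]
    · simp
  rw [e0]
  refine (sum_le_sum fun p hp => sum_le_sum fun p' hp' => sum_le_sum fun p'' hp'' =>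
    hpt p hp p' hp' p'' hp'').trans ?_
  simp only [sum_add_distrib]
  have s1 := tri_prod (PP x) (fun p => w1 κ (0 + ex x p) / p) (fun p => (1 : ℝ) / p)
    (fun p => (1 : ℝ) / p)
  have s2 := tri_prod (PP x) (fun p => (1 : ℝ) / p) (fun p => w1 κ (0 + ex x p) / p)
    (fun p => (1 : ℝ) / p)
  have s3 := tri_prod (PP x) (fun p => (1 : ℝ) / p) (fun p => (1 : ℝ) / p)
    (fun p => w1 κ (0 + ex x p) / p)
  have s5 := S5_le hx hm hδ hδ1 hκ hκ1
  have s4 : ∑ p ∈ PP x, ∑ p' ∈ PP x, ∑ p'' ∈ PP x,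
      1 / (p : ℝ) * (1 / p') * (w1 κ (ex x p + ex x p' + ex x p'') / p'') ≤
      4 * (288 * κ + 3 * δ) := by
    have h1 : ∀ p ∈ PP x, ∀ p' ∈ PP x, ∑ p'' ∈ PP x,
      1 / (p : ℝ) * (1 / p') * (w1 κ (ex x p + ex x p' + ex x p'') / p'') ≤
      1 / (p : ℝ) * (1 / p') * (288 * κ + 3 * δ) := by
      intro p _ p' _
      rw [← mul_sum]
      exact mul_le_mul_of_nonneg_left (win_le hm hδ hκ _) (by positivity)
    refine (sum_le_sum fun p hp => sum_le_sum fun p' hp' => h1 p hp p' hp').trans ?_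
    have e2 : ∑ p ∈ PP x, ∑ p' ∈ PP x, 1 / (p : ℝ) * (1 / p') * (288 * κ + 3 * δ) =
        (∑ p ∈ PP x, (1 : ℝ) / p) * (∑ p ∈ PP x, (1 : ℝ) / p) * (288 * κ + 3 * δ) := by
      rw [sum_mul_sum, sum_mul]
      refine sum_congr rfl fun p _ => ?_
      rw [sum_mul]
    rw [e2]
    have : 0 ≤ 288 * κ + 3 * δ := by positivity
    calc (∑ p ∈ PP x, (1 : ℝ) / p) * (∑ p ∈ PP x, (1 : ℝ) / p) * (288 * κ + 3 * δ) ≤
        2 * 2 * (288 * κ + 3 * δ) := by gcongr
      _ = _ := by ring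
  have t1 : (∑ p ∈ PP x, w1 κ (0 + ex x p) / p) * (∑ p ∈ PP x, (1 : ℝ) / p) *
      (∑ p ∈ PP x, (1 : ℝ) / p) ≤ (288 * κ + 3 * δ) * 2 * 2 := by gcongr
  rw [s1, s2, s3]
  have t2 : (∑ p ∈ PP x, (1 : ℝ) / p) * (∑ p ∈ PP x, w1 κ (0 + ex x p) / p) *
      (∑ p ∈ PP x, (1 : ℝ) / p) ≤ (288 * κ + 3 * δ) * 2 * 2 := by
    refine le_trans (le_of_eq ?_) t1
    ring
  have t3 : (∑ p ∈ PP x, (1 : ℝ) / p) * (∑ p ∈ PP x, (1 : ℝ) / p) *
      (∑ p ∈ PP x, w1 κ (0 + ex x p) / p) ≤ (288 * κ + 3 * δ) * 2 * 2 := by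
    refine le_trans (le_of_eq ?_) t1
    ring
  linarith

end SL3

open SL3 in
theorem L3_le : ∃ x₁ : ℕ, ∀ x : ℕ, x₁ ≤ x → L3 x ≤ 7 / 100 := by
  obtain ⟨x1, h1⟩ := mer (1 / 10 ^ 8) (by norm_num)
  obtain ⟨x2, h2⟩ := Filter.eventually_atTop.1
    (Pool.Agent.HL.evt_log (max 1 (10 ^ 8 * Real.log 4)))
  refine ⟨x1 + x2 + 2, fun x hx => ?_⟩
  have h3 := h2 x (by omega)
  have h4 : 1 ≤ Real.log x := (le_max_left _ _).trans h3
  have h5 : 10 ^ 8 * Real.log 4 ≤ Real.log x := (le_max_right _ _).trans h3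
  have h6 : 0 ≤ Real.log 4 := Real.log_nonneg (by norm_num)
  apply L3_core (by omega) (fun u v hu hv => h1 x (by omega) u v hu hv) (by norm_num) (le_refl _)
  · unfold kap
    positivity
  · unfold kap
    rw [div_le_iff₀ (by linarith)]
    linarith

end Pool.Agent.HS
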