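import Pool.Agent.Work.MP_92f640_nt.HS.W.Defs

/-! # Module W.LinL: lower bounds (linear arithmetic); `t` is anywhere in the order

`F2`: `1 + g1 a + g1 t`, both counted only if `a` is in a window.
`F3`: `1 + ∑ h`, `h(a) = g1 a + g2 (S - a) ≥ -1`; `h = 1` for `a ∈ [5/12 + 2κ, 1/2 - 2κ]` and for `a > 31/50`; `h ≥ 0` for `a > 7/12`.
`F4`: `g1 a + g3 (S - a) ≥ -1 - [Win a]`; for `a = t`: `Win κ (a + b + c)`; `g2 s + g2 (S - s) ≥ 1 - [QQ s]`.
`F5`: five primes `≥ -1`, ten pairs `≥ 0`, ten triples `≥ -1`, quadruples `0` (sum `≥ 4/6`), all five: `0`. -/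

namespace Pool.Agent.HS

private lemma gE0 (κ s : ℝ) : gE κ 0 s = 1 := by simp [gE]

private lemma gE1 (κ s : ℝ) : (gE κ 1 s = -1 ∧ (s ≤ 5 / 12 ∨ (1 / 2 - κ < s ∧ s ≤ 7 / 12))) ∨
    (gE κ 1 s = 0 ∧ 5 / 12 < s ∧ (s ≤ 1 / 2 - κ ∨ 7 / 12 < s)) := by
  unfold gE
  rw [if_neg (by norm_num), if_pos rfl]
  by_cases h : s ≤ 5 / 12 ∨ (1 / 2 - κ < s ∧ s ≤ 7 / 12)
  · rw [if_pos h]
    exact Or.inl ⟨rfl, h⟩
  · rw [if_neg h]
    push Not at h
    refine Or.inr ⟨rfl, h.1, ?_⟩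
    by_cases h2 : 1 / 2 - κ < s
    · exact Or.inr (h.2 h2)
    · exact Or.inl (not_lt.1 h2)

private lemma gE2 (κ s : ℝ) : (gE κ 2 s = 1 ∧ (s < 19 / 50 ∨ (1 / 2 < s ∧ s ≤ 7 / 12 - 2 * κ))) ∨
    (gE κ 2 s = 0 ∧ 19 / 50 ≤ s ∧ (s ≤ 1 / 2 ∨ 7 / 12 - 2 * κ < s)) := by
  unfold gE
  rw [if_neg (by norm_num), if_neg (by norm_num), if_pos rfl]
  by_cases h : s < 19 / 50 ∨ (1 / 2 < s ∧ s ≤ 7 / 12 - 2 * κ)
  · rw [if_pos h]
    exact Or.inl ⟨rfl, h⟩
  · rw [if_neg h]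
    push Not at h
    refine Or.inr ⟨rfl, h.1, ?_⟩
    by_cases h2 : 1 / 2 < s
    · exact Or.inr (h.2 h2)
    · exact Or.inl (not_lt.1 h2)

private lemma gE3 (κ s : ℝ) : (gE κ 3 s = -1 ∧ 1 / 2 - κ < s ∧ s ≤ 7 / 12) ∨
    (gE κ 3 s = 0 ∧ (s ≤ 1 / 2 - κ ∨ 7 / 12 < s)) := by
  unfold gE
  rw [if_neg (by norm_num), if_neg (by norm_num), if_neg (by norm_num), if_pos rfl]
  by_cases h : 1 / 2 - κ < s ∧ s ≤ 7 / 12
  · rw [if_pos h]
    exact Or.inl ⟨rfl, h⟩
  · rw [if_neg h]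
    push Not at h
    refine Or.inr ⟨rfl, ?_⟩
    by_cases h2 : 1 / 2 - κ < s
    · exact Or.inr (h h2)
    · exact Or.inl (not_lt.1 h2)

private lemma gE4 (κ s : ℝ) : gE κ 4 s = 0 := by
  unfold gE
  norm_num

private lemma gE5 (κ s : ℝ) : gE κ 5 s = 0 := by
  unfold gE
  norm_num

private lemma gE1_ge (κ s : ℝ) : -1 ≤ gE κ 1 s := by
  rcases gE1 κ s with h | h <;> rw [h.1] <;> norm_num

private lemma gE2_ge (κ s : ℝ) : 0 ≤ gE κ 2 s := by
  rcases gE2 κ s with h | h <;> rw [h.1] <;> norm_num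

private lemma gE3_ge (κ s : ℝ) : -1 ≤ gE κ 3 s := by
  rcases gE3 κ s with h | h <;> rw [h.1] <;> norm_num

private lemma w1_nonneg (κ a : ℝ) : 0 ≤ w1 κ a := by
  unfold w1
  split_ifs <;> norm_num

private lemma w1_eq {κ a : ℝ} (h : Win κ a) : w1 κ a = 1 := by
  unfold w1
  rw [if_pos h]

/-- a summand and its complement among four or two -/
private lemma win_of (κ S a : ℝ) (h0 : 0 ≤ κ) (hS : 1 - 2 * κ < S) (hS1 : S ≤ 1)
    (h1 : a ≤ 5 / 12 ∨ (1 / 2 - κ < a ∧ a ≤ 7 / 12))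
    (h2 : 1 / 2 - κ < S - a ∧ S - a ≤ 7 / 12) : Win κ a := by
  unfold Win
  rcases h1 with h | h
  · left
    rw [abs_le]
    constructor <;> linarith [h2.2]
  · right; left
    rw [abs_le]
    constructor <;> linarith [h.1, h2.1]

private lemma win_of' (κ S a : ℝ) (h0 : 0 ≤ κ) (hS : 1 - 2 * κ < S) (hS1 : S ≤ 1)
    (h1 : S - a ≤ 5 / 12 ∨ (1 / 2 - κ < S - a ∧ S - a ≤ 7 / 12))
    (h2 : 1 / 2 - κ < a ∧ a ≤ 7 / 12) : Win κ a := by
  unfold Win
  rcases h1 with h | h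
  · right; right
    rw [abs_le]
    constructor <;> linarith [h2.2]
  · right; left
    rw [abs_le]
    constructor <;> linarith [h.1, h2.1]

theorem F2_ge (κ t a : ℝ) (h0 : 0 ≤ κ) (h1 : κ ≤ 1 / 1000) (ht : 1 / 6 ≤ t) (ha : 1 / 6 ≤ a)
    (hS : 1 - 2 * κ < t + a) (hS1 : t + a ≤ 1) : -w1 κ a ≤ Fr κ [t, a] 0 0 := by
  simp only [Fr, zero_add]
  rw [gE0]
  have e2 := gE2_ge κ (t + a)
  norm_num at e2 ⊢
  have w0 := w1_nonneg κ a
  rcases gE1 κ a with ⟨ha1, ha2⟩ | ⟨ha1, ha2⟩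
  · rcases gE1 κ t with ⟨ht1, ht2⟩ | ⟨ht1, ht2⟩
    · have hw : Win κ a := by
        rcases ha2 with h | h
        · rcases ht2 with h' | h'
          · exfalso; linarith
          · exact win_of κ (t + a) a h0 hS hS1 (Or.inl h) ⟨by linarith [h'.1], by linarith [h'.2]⟩
        · rcases ht2 with h' | h'
          · exact win_of' κ (t + a) a h0 hS hS1 (Or.inl (by linarith)) h
          · exact win_of' κ (t + a) a h0 hS hS1 (Or.inr ⟨by linarith [h'.1], by linarith [h'.2]⟩) h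
      rw [w1_eq hw]
      linarith
    · linarith
  · have := gE1_ge κ t
    linarith

/-- the weight `g2` vanishes on sums slightly above `7/12 - 2κ` -/
private lemma gE2_zero (κ s : ℝ) (h1 : κ ≤ 1 / 1000) (hs : 7 / 12 - 2 * κ < s) : gE κ 2 s = 0 := by
  rcases gE2 κ s with ⟨_, h | h⟩ | ⟨h, _⟩
  · exfalso; linarith
  · exfalso; linarith [h.2]
  · exact h

private lemma gE1_small (κ s : ℝ) (hs : s ≤ 5 / 12) : gE κ 1 s = -1 := by
  rcases gE1 κ s with ⟨h, _⟩ | ⟨_, h, _⟩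
  · exact h
  · exfalso; linarith

theorem F3_ge (κ t a b : ℝ) (h0 : 0 ≤ κ) (h1 : κ ≤ 1 / 1000) (ht : 1 / 6 ≤ t) (ha : 1 / 6 ≤ a)
    (hab : a ≤ b) (hS : 1 - 2 * κ < t + a + b) (hS1 : t + a + b ≤ 1) :
    -w2 κ a b ≤ Fr κ [t, a, b] 0 0 := by
  simp only [Fr, zero_add]
  rw [gE0]
  norm_num
  have e3 := gE3 κ (t + a + b)
  have e3' : gE κ 3 (t + a + b) = 0 := by
    rcases e3 with ⟨_, h⟩ | ⟨h, _⟩
    · exfalso; linarith [h.2]
    · exact h
  rw [e3']
  have ha5 : a ≤ 5 / 12 := by linarith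
  rw [gE1_small κ a ha5]
  -- the two parts of `w2`
  have wA : ((b ≤ 5 / 12 + 2 * κ ∧ 7 / 12 - 4 * κ ≤ a + b) ∨
      (5 / 12 - 2 * κ ≤ a + b ∧ a + b ≤ 1 / 2 + 2 * κ) ∨
      (1 / 2 - 2 * κ ≤ b ∧ b ≤ 7 / 12 + 2 * κ)) → 2 ≤ w2 κ a b := by
    intro h
    unfold w2
    rw [if_pos h]
    split_ifs <;> norm_num
  have wB : ((19 / 50 - 2 * κ ≤ a + b ∧ a + b ≤ 5 / 12) ∨
      (7 / 12 ≤ b ∧ b ≤ 31 / 50 + 2 * κ)) → 1 ≤ w2 κ a b := by
    intro h
    unfold w2
    rw [if_pos h]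
    split_ifs <;> norm_num
  have w0 : 0 ≤ w2 κ a b := by
    unfold w2
    split_ifs <;> norm_num
  by_cases hb5 : b ≤ 5 / 12
  · rw [gE1_small κ b hb5, gE2_zero κ (t + a) h1 (by linarith), gE2_zero κ (t + b) h1 (by linarith)]
    by_cases ht5 : t ≤ 5 / 12
    · rw [gE1_small κ t ht5]
      have := wA (Or.inl ⟨by linarith, by linarith⟩)
      have := gE2_ge κ (a + b)
      linarith
    · push Not at ht5
      rcases gE2 κ (a + b) with ⟨e, h⟩ | ⟨e, h⟩
      · rw [e]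
        rcases gE1 κ t with ⟨e', h'⟩ | ⟨e', h'⟩
        · rw [e']
          rcases h' with h' | h'
          · exfalso; linarith
          · have := wA (Or.inr (Or.inl ⟨by linarith [h'.2], by linarith [h'.1]⟩))
            linarith
        · rw [e']
          linarith
      · rw [e]
        rcases gE1 κ t with ⟨e', h'⟩ | ⟨e', h'⟩
        · rw [e']
          rcases h' with h' | h'
          · exfalso; linarith
          · have := wA (Or.inr (Or.inl ⟨by linarith [h'.2], by linarith [h'.1]⟩))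
            linarith
        · rw [e']
          rcases h'.2 with h2 | h2
          · rcases h.2 with h3 | h3
            · have := wA (Or.inr (Or.inl ⟨by linarith, by linarith⟩))
              linarith
            · have := wA (Or.inl ⟨by linarith, by linarith⟩)
              linarith
          · have := wB (Or.inl ⟨by linarith [h.1], by linarith⟩)
            linarith
  · push Not at hb5
    have ht5 : t ≤ 5 / 12 := by linarith
    rw [gE1_small κ t ht5, gE2_zero κ (a + b) h1 (by linarith), gE2_zero κ (t + b) h1 (by linarith)]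
    rcases gE1 κ b with ⟨e, h⟩ | ⟨e, h⟩
    · rw [e]
      rcases h with h | h
      · exfalso; linarith
      · have := wA (Or.inr (Or.inr ⟨by linarith [h.1], by linarith [h.2]⟩))
        have := gE2_ge κ (t + a)
        linarith
    · rw [e]
      rcases gE2 κ (t + a) with ⟨e', h'⟩ | ⟨e', h'⟩
      · rw [e']
        linarith
      · rw [e']
        rcases h.2 with h2 | h2
        · rcases h'.2 with h3 | h3
          · have := wA (Or.inr (Or.inr ⟨by linarith, by linarith⟩))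
            linarith
          · have := wA (Or.inl ⟨by linarith, by linarith⟩)
            linarith
        · have := wB (Or.inr ⟨by linarith, by linarith [h'.1]⟩)
          linarith

/-- a prime and its complementary triple -/
private lemma pair13 (κ S a : ℝ) (h0 : 0 ≤ κ) (hS : 1 - 2 * κ < S) (hS1 : S ≤ 1) :
    -1 - w1 κ a ≤ gE κ 1 a + gE κ 3 (S - a) := by
  have w0 := w1_nonneg κ a
  rcases gE3 κ (S - a) with ⟨e, h⟩ | ⟨e, _⟩
  · rcases gE1 κ a with ⟨e', h'⟩ | ⟨e', _⟩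
    · rw [e, e', w1_eq (win_of κ S a h0 hS hS1 h' h)]
      norm_num
    · rw [e, e']
      linarith
  · rw [e]
    have := gE1_ge κ a
    linarith

private lemma pair13' (κ S a : ℝ) (h0 : 0 ≤ κ) (hS : 1 - 2 * κ < S) (hS1 : S ≤ 1) :
    -1 - w1 κ a ≤ gE κ 1 (S - a) + gE κ 3 a := by
  have w0 := w1_nonneg κ a
  rcases gE3 κ a with ⟨e, h⟩ | ⟨e, _⟩
  · rcases gE1 κ (S - a) with ⟨e', h'⟩ | ⟨e', _⟩
    · rw [e, e', w1_eq (win_of' κ S a h0 hS hS1 h' h)]
      norm_num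
    · rw [e, e']
      linarith
  · rw [e]
    have := gE1_ge κ (S - a)
    linarith

open Classical in
/-- a pair and its complementary pair -/
private lemma pair22 (κ S s : ℝ) (h0 : 0 ≤ κ) (h1 : κ ≤ 1 / 1000) (hS : 1 - 2 * κ < S) (hS1 : S ≤ 1) :
    1 - (if QQ κ s then (1 : ℝ) else 0) ≤ gE κ 2 s + gE κ 2 (S - s) := by
  have g1 := gE2_ge κ s
  have g2 := gE2_ge κ (S - s)
  rcases gE2 κ s with ⟨e, _⟩ | ⟨e, h⟩
  · rw [e]
    split_ifs <;> linarith
  · rcases gE2 κ (S - s) with ⟨e', _⟩ | ⟨e', h'⟩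
    · rw [e']
      split_ifs <;> linarith
    · have hQ : QQ κ s := by
        unfold QQ
        rcases h.2 with h2 | h2
        · rcases h'.2 with h3 | h3
          · right; right
            rw [abs_le]
            constructor <;> linarith
          · left
            constructor <;> linarith [h.1]
        · right; left
          constructor <;> linarith [h'.1]
      rw [if_pos hQ, e, e']
      norm_num

theorem F4_ge (κ t a b c : ℝ) (h0 : 0 ≤ κ) (h1 : κ ≤ 1 / 1000) (ht : 1 / 6 ≤ t) (ha : 1 / 6 ≤ a)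
    (hb : 1 / 6 ≤ b) (hc : 1 / 6 ≤ c) (hS : 1 - 2 * κ < t + a + b + c) (hS1 : t + a + b + c ≤ 1) :
    -w3 κ a b c ≤ Fr κ [t, a, b, c] 0 0 := by
  simp only [Fr, zero_add]
  rw [gE0]
  norm_num
  have q1 := pair13 κ (t + a + b + c) a h0 hS hS1
  have q2 := pair13 κ (t + a + b + c) b h0 hS hS1
  have q3 := pair13 κ (t + a + b + c) c h0 hS hS1
  have q4 := pair13' κ (t + a + b + c) (a + b + c) h0 hS hS1
  have q5 := pair22 κ (t + a + b + c) (a + b) h0 h1 hS hS1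
  have q6 := pair22 κ (t + a + b + c) (a + c) h0 h1 hS hS1
  have q7 := pair22 κ (t + a + b + c) (b + c) h0 h1 hS hS1
  rw [show t + a + b + c - a = t + b + c by ring] at q1
  rw [show t + a + b + c - b = t + a + c by ring] at q2
  rw [show t + a + b + c - c = t + a + b by ring] at q3
  rw [show t + a + b + c - (a + b + c) = t by ring] at q4
  rw [show t + a + b + c - (a + b) = t + c by ring] at q5
  rw [show t + a + b + c - (a + c) = t + b by ring] at q6
  rw [show t + a + b + c - (b + c) = t + a by ring] at q7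
  have q8 := gE4 κ (t + a + b + c)
  unfold w3
  linarith

theorem F5_ge (κ t a b c d : ℝ) (ht : 1 / 6 ≤ t) (ha : 1 / 6 ≤ a) (hb : 1 / 6 ≤ b)
    (hc : 1 / 6 ≤ c) (hd : 1 / 6 ≤ d) : -14 ≤ Fr κ [t, a, b, c, d] 0 0 := by
  simp only [Fr, zero_add]
  rw [gE0]
  norm_num
  simp only [gE4, gE5]
  have p1 := gE1_ge κ t
  have p2 := gE1_ge κ a
  have p3 := gE1_ge κ b
  have p4 := gE1_ge κ c
  have p5 := gE1_ge κ d
  have r1 := gE2_ge κ (t + a)
  have r2 := gE2_ge κ (t + b)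
  have r3 := gE2_ge κ (t + c)
  have r4 := gE2_ge κ (t + d)
  have r5 := gE2_ge κ (a + b)
  have r6 := gE2_ge κ (a + c)
  have r7 := gE2_ge κ (a + d)
  have r8 := gE2_ge κ (b + c)
  have r9 := gE2_ge κ (b + d)
  have r10 := gE2_ge κ (c + d)
  have s1 := gE3_ge κ (t + a + b)
  have s2 := gE3_ge κ (t + a + c)
  have s3 := gE3_ge κ (t + a + d)
  have s4 := gE3_ge κ (t + b + c)
  have s5 := gE3_ge κ (t + b + d)
  have s6 := gE3_ge κ (t + c + d)
  have s7 := gE3_ge κ (a + b + c)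
  have s8 := gE3_ge κ (a + b + d)
  have s9 := gE3_ge κ (a + c + d)
  have s10 := gE3_ge κ (b + c + d)
  linarith

end Pool.Agent.HS
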