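import Pool.Agent.Work.MP_92f640_nt.HS.W.Div
import Pool.Agent.Work.MP_92f640_nt.HS.W.LinL
import Pool.Agent.Work.MP_92f640_nt.HL.Evt

/-! # Module W.Kd: lower bound for `KK`

`m ≤ n/z` squarefree `z`-rough has at most four prime factors (`z⁵ > x/z`), `ex x m ≤ 5/6`; `t = n/m ≥ z`, `n - m < m t ≤ n`, so `1 - 2κ < ex x m + ex x t ≤ 1`. `m = 1`: `1 + Ew x 1 n = 1`.
`ω(m) = j`: `psi_Fr`, `F(j+1)_ge`; the map (sorted tuple of primes) `↦` product covers these `m`, all summands `≥ 0`. -/

namespace Pool.Agent.HS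

open Finset Pool.Agent.HL Filter

lemma sum_cover {ι κ : Type*} [DecidableEq κ] {S : Finset ι} {T : Finset κ} {f : ι → ℝ} {g : κ → ℝ}
    (ψ : ι → κ) (h1 : ∀ i ∈ S, ψ i ∈ T) (h2 : Set.InjOn ψ S) (h3 : ∀ i ∈ S, f i ≤ g (ψ i))
    (h4 : ∀ k ∈ T, 0 ≤ g k) : ∑ i ∈ S, f i ≤ ∑ k ∈ T, g k := by
  calc ∑ i ∈ S, f i ≤ ∑ i ∈ S, g (ψ i) := sum_le_sum h3
    _ = ∑ k ∈ S.image ψ, g k := (sum_image h2).symm
    _ ≤ ∑ k ∈ T, g k :=
      sum_le_sum_of_subset_of_nonneg (image_subset_iff.2 h1) fun k hk _ => h4 k hk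

lemma w1_nonneg (κ a : ℝ) : 0 ≤ w1 κ a := by
  unfold w1
  split_ifs <;> norm_num

lemma w2_nonneg (κ a b : ℝ) : 0 ≤ w2 κ a b := by
  unfold w2
  apply add_nonneg <;> split_ifs <;> norm_num

open Classical in
lemma w3_nonneg (κ a b c : ℝ) : 0 ≤ w3 κ a b c := by
  unfold w3
  have h1 := w1_nonneg κ a
  have h2 := w1_nonneg κ b
  have h3 := w1_nonneg κ c
  have h4 := w1_nonneg κ (a + b + c)
  have h5 : (0 : ℝ) ≤ if QQ κ (a + b) then 1 else 0 := by split_ifs <;> norm_num
  have h6 : (0 : ℝ) ≤ if QQ κ (a + c) then 1 else 0 := by split_ifs <;> norm_num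
  have h7 : (0 : ℝ) ≤ if QQ κ (b + c) then 1 else 0 := by split_ifs <;> norm_num
  linarith

/-- logarithmic size of a product -/
lemma ex_mul (x : ℕ) {m n : ℕ} (hm : m ≠ 0) (hn : n ≠ 0) : ex x (m * n) = ex x m + ex x n := by
  unfold ex
  rw [Nat.cast_mul, Real.log_mul (by exact_mod_cast hm) (by exact_mod_cast hn), add_div]

/-- the data of `n`, `m` -/
structure KdOK (x n m : ℕ) : Prop where
  sf : Squarefree m
  pr : ∀ p : ℕ, p.Prime → p ∣ m → zx (5 / 6) x ≤ p
  pos : 1 ≤ m
  le : m ≤ n / zx (5 / 6) x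

/-- consequences for large `x` -/
structure KdLog (x n m : ℕ) : Prop where
  t1 : 1 ≤ n / m
  tz : 1 / 6 ≤ ex x (n / m)
  up : ex x m ≤ 5 / 6
  sum0 : 1 - 2 * kap x < ex x (n / m) + ex x m
  sum1 : ex x (n / m) + ex x m ≤ 1
  pex : ∀ p : ℕ, p.Prime → p ∣ m → 1 / 6 ≤ ex x p
  px : ∀ p : ℕ, p.Prime → p ∣ m → p ∈ PP x
  sm : m.primeFactorsList.length < 5

lemma log_z {x : ℕ} (hx : 1 ≤ x) : 1 / 6 * Real.log x ≤ Real.log (zx (5 / 6) x) := by
  have hx0 : (0 : ℝ) < x := by exact_mod_cast hx
  have h1 : (x : ℝ) ^ (1 - (5 / 6 : ℝ)) ≤ (zx (5 / 6) x : ℝ) := Nat.le_ceil _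
  have h2 := Real.log_le_log (by positivity) h1
  rw [Real.log_rpow hx0] at h2
  linarith

lemma prod_ge {z : ℕ} : ∀ l : List ℕ, (∀ p ∈ l, z ≤ p) → z ^ l.length ≤ l.prod := by
  intro l
  induction l with
  | nil => intro _; simp
  | cons a l ih =>
    intro h
    rw [List.length_cons, List.prod_cons, pow_succ']
    exact Nat.mul_le_mul (h a (by simp)) (ih fun p hp => h p (by simp [hp]))

theorem kdLog : ∃ x₁ : ℕ, ∀ x : ℕ, x₁ ≤ x → ∀ n : ℕ, x / 8 < n → n ≤ x → ∀ m : ℕ, KdOK x n m →
    KdLog x n m := by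
  have hz : ∀ᶠ x : ℕ in atTop, 4 * (Real.log x) ^ 0 ≤ (x : ℝ) ^ (1 - 5 / 6 : ℝ) :=
    evt_pow 4 0 (1 - 5 / 6) (by norm_num)
  obtain ⟨x₁, hx₁⟩ := eventually_atTop.1 ((hz.and (evt_log 1)).and (eventually_ge_atTop 2))
  refine ⟨x₁, fun x hx n hn1 hn2 m hm => ?_⟩
  obtain ⟨⟨hz4, hL⟩, hx2⟩ := hx₁ x hx
  set z := zx (5 / 6) x with hz
  set L := Real.log (x : ℝ) with hLdef
  have hL0 : 0 < L := by linarith
  have hzz : 4 ≤ z := by
    have h1 : (x : ℝ) ^ (1 - (5 / 6 : ℝ)) ≤ (z : ℝ) := Nat.le_ceil _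
    rw [pow_zero, mul_one] at hz4
    have : (4 : ℝ) ≤ z := hz4.trans h1
    exact_mod_cast this
  have hlz : 1 / 6 * L ≤ Real.log z := log_z (by omega)
  have hx0 : (0 : ℝ) < x := by
    have : 0 < x := by omega
    exact_mod_cast this
  have hmz : m * z ≤ n := (Nat.le_div_iff_mul_le (by omega)).1 hm.le
  have hmpos := hm.pos
  have hmn : m ≤ n := le_trans (Nat.le_mul_of_pos_right m (by omega)) hmz
  have htz : z ≤ n / m := (Nat.le_div_iff_mul_le (by omega)).2 (by rw [mul_comm]; exact hmz)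
  have ht1 : 1 ≤ n / m := by omega
  have hm0 : (0 : ℝ) < m := by exact_mod_cast hmpos
  have ht0 : (0 : ℝ) < ((n / m : ℕ) : ℝ) := by exact_mod_cast ht1
  have hz0 : (0 : ℝ) < z := by
    have : 0 < z := by omega
    exact_mod_cast this
  have hsum : ex x (n / m) + ex x m = Real.log (((n / m * m : ℕ)) : ℝ) / L := by
    rw [← ex_mul x (by omega) (by omega)]
    rfl
  have h16 : x < 16 * (n / m * m) := by
    have h1 : n < n / m * m + m := Nat.lt_div_mul_add (by omega)
    have h2 : 4 * m ≤ n := le_trans (by nlinarith) hmz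
    have h3 : x < 8 * n := by omega
    omega
  have hup : ex x m ≤ 5 / 6 := by
    unfold ex
    rw [div_le_iff₀ hL0]
    have h1 : Real.log (m : ℝ) + Real.log z ≤ L := by
      rw [← Real.log_mul hm0.ne' hz0.ne']
      apply Real.log_le_log (by positivity)
      exact_mod_cast hmz.trans hn2
    linarith
  refine ⟨ht1, ?_, hup, ?_, ?_, ?_, ?_, ?_⟩
  · unfold ex
    rw [le_div_iff₀ hL0]
    refine hlz.trans ?_
    apply Real.log_le_log hz0
    exact_mod_cast htz
  · rw [hsum, lt_div_iff₀ hL0]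
    unfold kap
    have e : (1 - 2 * (Real.log 4 / Real.log x)) * L = L - 2 * Real.log 4 := by
      rw [← hLdef]
      field_simp
    rw [e]
    have h1 : 2 * Real.log 4 = Real.log 16 := by
      rw [show (16 : ℝ) = 4 ^ 2 by norm_num, Real.log_pow]
      push_cast
      ring
    rw [h1]
    have h2 : L < Real.log (16 * (((n / m * m : ℕ)) : ℝ)) := by
      apply Real.log_lt_log hx0
      exact_mod_cast h16
    have h3 : (0 : ℝ) < ((n / m * m : ℕ) : ℝ) := by
      push_cast
      positivity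
    rw [Real.log_mul (by norm_num) h3.ne'] at h2
    linarith
  · rw [hsum, div_le_one hL0]
    have h3 : (0 : ℝ) < ((n / m * m : ℕ) : ℝ) := by
      push_cast
      positivity
    apply Real.log_le_log h3
    have : n / m * m ≤ x := (Nat.div_mul_le_self n m).trans hn2
    exact_mod_cast this
  · intro p hp hpm
    unfold ex
    rw [le_div_iff₀ hL0]
    refine hlz.trans ?_
    apply Real.log_le_log hz0
    exact_mod_cast hm.pr p hp hpm
  · intro p hp hpm
    have hple : p ≤ m := Nat.le_of_dvd (by omega) hpm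
    unfold PP PS
    rw [mem_filter, mem_Icc]
    refine ⟨⟨hp.one_le, by omega⟩, hp, ?_, ?_⟩
    · unfold ex
      rw [le_div_iff₀ hL0]
      refine hlz.trans ?_
      apply Real.log_le_log hz0
      exact_mod_cast hm.pr p hp hpm
    · refine le_trans ?_ hup
      unfold ex
      gcongr
      have : 0 < p := hp.pos
      exact_mod_cast this
  · by_contra hc
    push Not at hc
    set l := m.primeFactorsList with hl
    have h1 : ∀ p ∈ l, z ≤ p := fun p hp =>
      hm.pr p (Nat.prime_of_mem_primeFactorsList hp) (Nat.dvd_of_mem_primeFactorsList hp)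
    have hprod : l.prod = m := Nat.prod_primeFactorsList (by omega)
    -- five factors
    have h5 : z ^ 5 ≤ m := by
      have h2 := prod_ge l h1
      rw [hprod] at h2
      exact le_trans (Nat.pow_le_pow_right (by omega) hc) h2
    have h6 : z ^ 6 ≤ x := by
      calc z ^ 6 = z ^ 5 * z := by ring
        _ ≤ m * z := Nat.mul_le_mul_right z h5
        _ ≤ x := hmz.trans hn2
    -- some factor is larger than `z`
    have h7 : z ^ 5 < m := by
      obtain ⟨a, b, l', hl'⟩ : ∃ a b l', l = a :: b :: l' := by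
        match hh : l, hc with
        | a :: b :: l', _ => exact ⟨a, b, l', rfl⟩
      have hnd : l.Nodup := (Nat.squarefree_iff_nodup_primeFactorsList (by omega)).1 hm.sf
      have ha := h1 a (by rw [hl']; simp)
      have hb := h1 b (by rw [hl']; simp)
      have hne : a ≠ b := by
        rw [hl'] at hnd
        intro h
        rw [h] at hnd
        simp at hnd
      have hab : z * z < a * b := by
        rcases lt_or_gt_of_ne hne with h | h
        · exact Nat.mul_lt_mul_of_le_of_lt ha (by omega) (by omega)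
        · exact Nat.mul_lt_mul_of_lt_of_le (by omega) hb (by omega)
      have h8 : z ^ 3 ≤ l'.prod := by
        have h9 := prod_ge l' fun p hp => h1 p (by rw [hl']; simp [hp])
        rw [hl'] at hc
        simp only [List.length_cons] at hc
        exact le_trans (Nat.pow_le_pow_right (by omega) (by omega)) h9
      have h9 : a * b * l'.prod = m := by
        rw [← hprod, hl', List.prod_cons, List.prod_cons, mul_assoc]
      rw [← h9]
      calc z ^ 5 = z * z * z ^ 3 := by ring
        _ < a * b * l'.prod := Nat.mul_lt_mul_of_lt_of_le hab h8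
          (lt_of_lt_of_le (Nat.pow_pos (by omega)) h8)
    have h10 : z ^ 6 < x := by
      calc z ^ 6 = z ^ 5 * z := by ring
        _ < m * z := Nat.mul_lt_mul_of_pos_right h7 (by omega)
        _ ≤ x := hmz.trans hn2
    have h11 : (z : ℝ) ^ 6 < x := by exact_mod_cast h10
    have h12 : (x : ℝ) ≤ (z : ℝ) ^ 6 := by
      have h1 : (x : ℝ) ^ (1 - (5 / 6 : ℝ)) ≤ (z : ℝ) := Nat.le_ceil _
      calc (x : ℝ) = ((x : ℝ) ^ (1 - (5 / 6 : ℝ))) ^ 6 := by
            rw [← Real.rpow_natCast, ← Real.rpow_mul hx0.le]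
            norm_num
        _ ≤ (z : ℝ) ^ 6 := by gcongr
    linarith

/-- the sum over the divisors is `Fr` -/
lemma psi_list {x n m : ℕ} (hm : KdOK x n m) (ht : 1 ≤ n / m) :
    ∑ d ∈ m.divisors, (cw x d + Ew x d (n / m)) =
      Fr (kap x) (ex x (n / m) :: m.primeFactorsList.map (ex x)) 0 0 := by
  have hpos := hm.pos
  have hprod : m.primeFactorsList.prod = m := Nat.prod_primeFactorsList (by omega)
  have h := psi_Fr x m.primeFactorsList (fun p hp => Nat.prime_of_mem_primeFactorsList hp)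
    (fun p hp => hm.pr p (Nat.prime_of_mem_primeFactorsList hp) (Nat.dvd_of_mem_primeFactorsList hp))
    ((Nat.squarefree_iff_nodup_primeFactorsList (by omega)).1 hm.sf) (n / m) ht
  rw [hprod] at h
  exact h

/-- the list of the prime factors is strictly increasing -/
lemma list_lt {m : ℕ} (h0 : m ≠ 0) (hm : Squarefree m) : m.primeFactorsList.Pairwise (· < ·) := by
  have h1 := (Nat.primeFactorsList_sorted m).pairwise
  have h2 := (Nat.squarefree_iff_nodup_primeFactorsList h0).1 hm
  exact (h1.and h2).imp fun h => lt_of_le_of_ne h.1 h.2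

lemma fin_ineq {m F w : ℝ} (hm : 0 < m) (h : -w ≤ F) : -(1 / m * F) ≤ w / m := by
  rw [div_eq_mul_one_div w m]
  have h1 : 0 < 1 / m := by positivity
  nlinarith

lemma len_four {l : List ℕ} (h : l.length = 4) : ∃ a b c d, l = [a, b, c, d] := by
  match l, h with
  | [a, b, c, d], _ => exact ⟨a, b, c, d, rfl⟩

lemma z_le_n : ∃ x₁ : ℕ, ∀ x : ℕ, x₁ ≤ x → ∀ n : ℕ, x / 8 < n → zx (5 / 6) x ≤ n := by
  obtain ⟨x₁, hx₁⟩ := eventually_atTop.1 ((evt_pow 4 0 (1 - 5 / 6) (by norm_num)).and
    (eventually_ge_atTop 1))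
  refine ⟨x₁, fun x hx n hn => ?_⟩
  obtain ⟨h1, h2⟩ := hx₁ x hx
  have hx0 : (0 : ℝ) < x := by exact_mod_cast h2
  rw [pow_zero, mul_one] at h1
  set y : ℝ := (x : ℝ) ^ (1 - (5 / 6 : ℝ)) with hy
  have h3 : (x : ℝ) = y ^ 6 := by
    rw [hy, ← Real.rpow_natCast, ← Real.rpow_mul hx0.le]
    norm_num
  have h4 : (zx (5 / 6) x : ℝ) < y + 1 := Nat.ceil_lt_add_one (by positivity)
  have h5 : x < 8 * n := by omega
  have h6 : (x : ℝ) < 8 * n := by exact_mod_cast h5
  have h7 : (1024 : ℝ) * y ≤ y ^ 6 := by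
    have : (4 : ℝ) ^ 5 ≤ y ^ 5 := by gcongr
    calc (1024 : ℝ) * y = 4 ^ 5 * y := by norm_num
      _ ≤ y ^ 5 * y := by gcongr
      _ = y ^ 6 := by ring
  have h8 : (zx (5 / 6) x : ℝ) < n := by linarith
  exact le_of_lt (by exact_mod_cast h8)

theorem KK_low : ∃ x₁ : ℕ, ∀ x : ℕ, x₁ ≤ x → ∀ n : ℕ, x / 8 < n → n ≤ x →
    1 - L1 x - L2 x - L3 x - 14 * L4 x ≤ KK (cw x) (Ew x) (zx (5 / 6) x) n := by
  classical
  obtain ⟨x₀, hx₀⟩ := kdLog
  obtain ⟨x₀', hx₀'⟩ := z_le_n
  obtain ⟨x₁, hx₁⟩ := eventually_atTop.1 ((evt_log (1000 * Real.log 4)).and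
    ((eventually_ge_atTop x₀).and (eventually_ge_atTop x₀')))
  refine ⟨x₁, fun x hx n hn1 hn2 => ?_⟩
  obtain ⟨hL, hxx, hxx'⟩ := hx₁ x hx
  have hzn := hx₀' x hxx' n hn1
  have hl4 : 0 < Real.log 4 := Real.log_pos (by norm_num)
  have hL0 : 0 < Real.log (x : ℝ) := by linarith
  have hκ0 : 0 ≤ kap x := by
    unfold kap
    positivity
  have hκ1 : kap x ≤ 1 / 1000 := by
    unfold kap
    rw [div_le_div_iff₀ hL0 (by norm_num)]
    linarith
  set S : Finset ℕ := (Icc 1 (n / zx (5 / 6) x)).filter (fun m => Squarefree m ∧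
    ∀ p : ℕ, p.Prime → p ∣ m → zx (5 / 6) x ≤ p) with hS
  have hok : ∀ m ∈ S, KdOK x n m := by
    intro m hm
    rw [hS, mem_filter, mem_Icc] at hm
    exact ⟨hm.2.1, hm.2.2, hm.1.1, hm.1.2⟩
  have hlg : ∀ m ∈ S, KdLog x n m := fun m hm => hx₀ x hxx n hn1 hn2 m (hok m hm)
  set G : ℕ → ℝ := fun m => (1 / (m : ℝ)) * ∑ d ∈ m.divisors, (cw x d + Ew x d (n / m)) with hG
  set len : ℕ → ℕ := fun m => m.primeFactorsList.length with hlen
  have hKK : KK (cw x) (Ew x) (zx (5 / 6) x) n = ∑ m ∈ S, G m := by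
    unfold KK
    rfl
  have hfib : ∑ m ∈ S, G m = ∑ j ∈ range 5, ∑ m ∈ S.filter (fun m => len m = j), G m := by
    symm
    apply sum_fiberwise_of_maps_to
    intro m hm
    rw [mem_range]
    exact (hlg m hm).sm
  have hGF : ∀ m ∈ S, G m = (1 / (m : ℝ)) *
      Fr (kap x) (ex x (n / m) :: m.primeFactorsList.map (ex x)) 0 0 := by
    intro m hm
    simp only [hG]
    rw [psi_list (hok m hm) (hlg m hm).t1]
  have hinj : ∀ m ∈ S, ∀ m' ∈ S, m.primeFactorsList = m'.primeFactorsList → m = m' := by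
    intro m hm m' hm' h
    have h1 := (hok m hm).pos
    have h2 := (hok m' hm').pos
    rw [← Nat.prod_primeFactorsList (show m ≠ 0 by omega),
      ← Nat.prod_primeFactorsList (show m' ≠ 0 by omega), h]
  have hpr : ∀ m ∈ S, ∀ p ∈ m.primeFactorsList, p ∈ PP x ∧ 1 / 6 ≤ ex x p ∧ 0 < p := by
    intro m hm p hp
    have h1 := Nat.prime_of_mem_primeFactorsList hp
    have h2 := Nat.dvd_of_mem_primeFactorsList hp
    exact ⟨(hlg m hm).px p h1 h2, (hlg m hm).pex p h1 h2, h1.pos⟩
  have hprod : ∀ m ∈ S, m.primeFactorsList.prod = m := fun m hm =>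
    Nat.prod_primeFactorsList (by have := (hok m hm).pos; omega)
  have hlt : ∀ m ∈ S, m.primeFactorsList.Pairwise (· < ·) := fun m hm =>
    list_lt (by have := (hok m hm).pos; omega) (hok m hm).sf
  -- no prime factor
  have s0 : ∑ m ∈ S.filter (fun m => len m = 0), G m ≥ 1 := by
    have hz0 : 0 < zx (5 / 6) x := by
      unfold zx
      rw [Nat.ceil_pos]
      have : (0 : ℝ) < x := by
        by_contra hc
        push Not at hc
        have : (x : ℝ) = 0 := le_antisymm hc (Nat.cast_nonneg x)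
        rw [this, Real.log_zero] at hL0
        exact lt_irrefl _ hL0
      positivity
    have h1S : 1 ∈ S := by
      rw [hS, mem_filter, mem_Icc]
      refine ⟨⟨le_rfl, (Nat.le_div_iff_mul_le hz0).2 (by omega)⟩, squarefree_one, ?_⟩
      intro p hp hp1
      exact absurd (Nat.dvd_one.1 hp1) hp.one_lt.ne'
    have e : S.filter (fun m => len m = 0) = {1} := by
      ext m
      rw [mem_filter, mem_singleton]
      constructor
      · rintro ⟨h1, h2⟩
        rw [← hprod m h1, List.length_eq_zero_iff.1 h2]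
        rfl
      · rintro rfl
        exact ⟨h1S, by simp [hlen]⟩
    rw [e, sum_singleton, hGF 1 h1S]
    have h2 := (hlg 1 h1S).sum0
    have h3 : ex x 1 = 0 := by simp [ex]
    rw [h3, add_zero] at h2
    have h4 : (Nat.primeFactorsList 1).map (ex x) = [] := by simp
    rw [h4]
    unfold Fr
    unfold Fr
    unfold gE
    rw [if_pos rfl, if_neg (by norm_num), if_pos (by norm_num), if_neg]
    · norm_num
    · rw [zero_add]
      rintro (h | ⟨_, h⟩) <;> linarith
  -- one prime factor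
  have s1 : ∑ m ∈ S.filter (fun m => len m = 1), -G m ≤ L1 x := by
    unfold L1
    refine sum_cover (fun m => m.primeFactorsList.getD 0 0) ?_ ?_ ?_ ?_
    · intro m hm
      obtain ⟨h1, h2⟩ := mem_filter.1 hm
      obtain ⟨a, ha⟩ := List.length_eq_one_iff.1 h2
      have := hpr m h1 a (by rw [ha]; simp)
      simpa [ha] using this.1
    · intro m hm m' hm' h
      obtain ⟨h1, h2⟩ := mem_filter.1 (mem_coe.1 hm)
      obtain ⟨h1', h2'⟩ := mem_filter.1 (mem_coe.1 hm')
      obtain ⟨a, ha⟩ := List.length_eq_one_iff.1 h2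
      obtain ⟨a', ha'⟩ := List.length_eq_one_iff.1 h2'
      apply hinj m h1 m' h1'
      simp only [ha, ha', List.getD_cons_zero] at h
      rw [ha, ha', h]
    · intro m hm
      obtain ⟨h1, h2⟩ := mem_filter.1 hm
      obtain ⟨a, ha⟩ := List.length_eq_one_iff.1 h2
      have hlog := hlg m h1
      have hpa := hpr m h1 a (by rw [ha]; simp)
      have hma : a = m := by have := hprod m h1; rw [ha] at this; simpa using this
      have hm0 : (0 : ℝ) < m := by exact_mod_cast (hok m h1).pos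
      have hs0 := hlog.sum0
      have hs1 := hlog.sum1
      rw [hGF m h1, ha]
      simp only [List.map_cons, List.map_nil, List.getD_cons_zero]
      rw [← hma] at hs0 hs1 hm0 ⊢
      have hF := F2_ge (kap x) (ex x (n / a)) (ex x a) hκ0 hκ1 (by rw [hma]; exact hlog.tz) hpa.2.1
        hs0 hs1
      exact fin_ineq hm0 hF
    · intro p _
      exact div_nonneg (w1_nonneg _ _) (Nat.cast_nonneg p)
  have s2 : ∑ m ∈ S.filter (fun m => len m = 2), -G m ≤ L2 x := by
    unfold L2
    rw [sum_sigma']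
    refine sum_cover (fun m => (⟨m.primeFactorsList.getD 0 0, m.primeFactorsList.getD 1 0⟩ :
      Σ _ : ℕ, ℕ)) ?_ ?_ ?_ ?_
    · intro m hm
      obtain ⟨h1, h2⟩ := mem_filter.1 hm
      obtain ⟨a, b, ha⟩ := List.length_eq_two.1 h2
      have hpa := hpr m h1 a (by rw [ha]; simp)
      have hpb := hpr m h1 b (by rw [ha]; simp)
      have hl := hlt m h1
      have hp := hprod m h1
      rw [ha] at hl hp
      have hab : a < b := by simpa using hl
      have hup := (hlg m h1).up
      rw [← hp] at hup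
      simp only [List.prod_cons, List.prod_nil, mul_one] at hup
      rw [ex_mul x (by omega) (by omega)] at hup
      simp only [ha, List.getD_cons_zero, List.getD_cons_succ, mem_sigma, mem_filter]
      exact ⟨hpa.1, hpb.1, hab, hup⟩
    · intro m hm m' hm' h
      obtain ⟨h1, h2⟩ := mem_filter.1 (mem_coe.1 hm)
      obtain ⟨h1', h2'⟩ := mem_filter.1 (mem_coe.1 hm')
      obtain ⟨a, b, ha⟩ := List.length_eq_two.1 h2
      obtain ⟨a', b', ha'⟩ := List.length_eq_two.1 h2'
      apply hinj m h1 m' h1'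
      simp only [ha, ha', List.getD_cons_zero, List.getD_cons_succ, Sigma.mk.injEq,
        heq_eq_eq] at h
      rw [ha, ha', h.1, h.2]
    · intro m hm
      obtain ⟨h1, h2⟩ := mem_filter.1 hm
      obtain ⟨a, b, ha⟩ := List.length_eq_two.1 h2
      have hlog := hlg m h1
      have hpa := hpr m h1 a (by rw [ha]; simp)
      have hpb := hpr m h1 b (by rw [ha]; simp)
      have hl := hlt m h1
      have hp := hprod m h1
      rw [ha] at hl hp
      have hab : a < b := by simpa using hl
      simp only [List.prod_cons, List.prod_nil, mul_one] at hp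
      have hm0 : (0 : ℝ) < m := by exact_mod_cast (hok m h1).pos
      have hs0 := hlog.sum0
      have hs1 := hlog.sum1
      have hexm : ex x m = ex x a + ex x b := by
        rw [← hp]
        exact ex_mul x (by omega) (by omega)
      have hmR : ((a : ℝ) * b) = m := by exact_mod_cast hp
      have hexab : ex x a ≤ ex x b := by
        unfold ex
        have : (a : ℝ) ≤ b := by exact_mod_cast hab.le
        have h0 : (0 : ℝ) < a := by exact_mod_cast hpa.2.2
        gcongr
      rw [hGF m h1, ha]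
      simp only [List.map_cons, List.map_nil, List.getD_cons_zero, List.getD_cons_succ]
      rw [hmR]
      have hF := F3_ge (kap x) (ex x (n / m)) (ex x a) (ex x b) hκ0 hκ1 hlog.tz hpa.2.1
        hexab (by linarith) (by linarith)
      exact fin_ineq hm0 hF
    · intro p _
      exact div_nonneg (w2_nonneg _ _ _) (by positivity)
  have s3 : ∑ m ∈ S.filter (fun m => len m = 3), -G m ≤ L3 x := by
    unfold L3
    rw [sum_sigma', sum_sigma']
    refine sum_cover (fun m => (⟨⟨m.primeFactorsList.getD 0 0, m.primeFactorsList.getD 1 0⟩,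
      m.primeFactorsList.getD 2 0⟩ : Σ _ : (Σ _ : ℕ, ℕ), ℕ)) ?_ ?_ ?_ ?_
    · intro m hm
      obtain ⟨h1, h2⟩ := mem_filter.1 hm
      obtain ⟨a, b, c, ha⟩ := List.length_eq_three.1 h2
      have hpa := hpr m h1 a (by rw [ha]; simp)
      have hpb := hpr m h1 b (by rw [ha]; simp)
      have hpc := hpr m h1 c (by rw [ha]; simp)
      have hl := hlt m h1
      have hp := hprod m h1
      rw [ha] at hl hp
      have hab : (a < b ∧ a < c) ∧ b < c := by simpa using hl
      have hup := (hlg m h1).up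
      rw [← hp] at hup
      simp only [List.prod_cons, List.prod_nil, mul_one] at hup
      have h0 : b * c ≠ 0 := by
        have := Nat.mul_pos hpb.2.2 hpc.2.2
        omega
      rw [ex_mul x (by omega) h0, ex_mul x (by omega) (by omega)] at hup
      simp only [ha, List.getD_cons_zero, List.getD_cons_succ, mem_sigma, mem_filter]
      exact ⟨⟨hpa.1, hpb.1, hab.1.1⟩, hpc.1, hab.2, by linarith⟩
    · intro m hm m' hm' h
      obtain ⟨h1, h2⟩ := mem_filter.1 (mem_coe.1 hm)
      obtain ⟨h1', h2'⟩ := mem_filter.1 (mem_coe.1 hm')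
      obtain ⟨a, b, c, ha⟩ := List.length_eq_three.1 h2
      obtain ⟨a', b', c', ha'⟩ := List.length_eq_three.1 h2'
      apply hinj m h1 m' h1'
      simp only [ha, ha', List.getD_cons_zero, List.getD_cons_succ, Sigma.mk.injEq,
        heq_eq_eq] at h
      rw [ha, ha', h.1.1, h.1.2, h.2]
    · intro m hm
      obtain ⟨h1, h2⟩ := mem_filter.1 hm
      obtain ⟨a, b, c, ha⟩ := List.length_eq_three.1 h2
      have hlog := hlg m h1
      have hpa := hpr m h1 a (by rw [ha]; simp)
      have hpb := hpr m h1 b (by rw [ha]; simp)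
      have hpc := hpr m h1 c (by rw [ha]; simp)
      have hp := hprod m h1
      rw [ha] at hp
      simp only [List.prod_cons, List.prod_nil, mul_one] at hp
      have hm0 : (0 : ℝ) < m := by exact_mod_cast (hok m h1).pos
      have hs0 := hlog.sum0
      have hs1 := hlog.sum1
      have hexm : ex x m = ex x a + (ex x b + ex x c) := by
        have h0 : b * c ≠ 0 := by
          have := Nat.mul_pos hpb.2.2 hpc.2.2
          omega
        rw [← hp, ex_mul x (by omega) h0, ex_mul x (by omega) (by omega)]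
      have hmR : ((a : ℝ) * b * c) = m := by
        rw [mul_assoc]
        exact_mod_cast hp
      rw [hGF m h1, ha]
      simp only [List.map_cons, List.map_nil, List.getD_cons_zero, List.getD_cons_succ]
      rw [hmR]
      have hF := F4_ge (kap x) (ex x (n / m)) (ex x a) (ex x b) (ex x c) hκ0 hκ1 hlog.tz hpa.2.1
        hpb.2.1 hpc.2.1 (by linarith) (by linarith)
      exact fin_ineq hm0 hF
    · intro p _
      exact div_nonneg (w3_nonneg _ _ _ _) (by positivity)
  have s4 : ∑ m ∈ S.filter (fun m => len m = 4), -G m ≤ 14 * L4 x := by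
    unfold L4
    rw [sum_sigma', sum_sigma', sum_sigma', mul_sum]
    refine sum_cover (fun m => (⟨⟨⟨m.primeFactorsList.getD 0 0, m.primeFactorsList.getD 1 0⟩,
      m.primeFactorsList.getD 2 0⟩, m.primeFactorsList.getD 3 0⟩ :
      Σ _ : (Σ _ : (Σ _ : ℕ, ℕ), ℕ), ℕ)) ?_ ?_ ?_ ?_
    · intro m hm
      obtain ⟨h1, h2⟩ := mem_filter.1 hm
      obtain ⟨a, b, c, d, ha⟩ := len_four h2
      have hpa := hpr m h1 a (by rw [ha]; simp)
      have hpb := hpr m h1 b (by rw [ha]; simp)
      have hpc := hpr m h1 c (by rw [ha]; simp)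
      have hpd := hpr m h1 d (by rw [ha]; simp)
      have hl := hlt m h1
      have hp := hprod m h1
      rw [ha] at hl hp
      have hab : (a < b ∧ a < c ∧ a < d) ∧ (b < c ∧ b < d) ∧ c < d := by simpa using hl
      have hup := (hlg m h1).up
      rw [← hp] at hup
      simp only [List.prod_cons, List.prod_nil, mul_one] at hup
      have h0 : c * d ≠ 0 := by
        have := Nat.mul_pos hpc.2.2 hpd.2.2
        omega
      have h0' : b * (c * d) ≠ 0 := by
        have := Nat.mul_pos hpb.2.2 (Nat.pos_of_ne_zero h0)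
        omega
      rw [ex_mul x (by omega) h0', ex_mul x (by omega) h0, ex_mul x (by omega) (by omega)] at hup
      simp only [ha, List.getD_cons_zero, List.getD_cons_succ, mem_sigma, mem_filter]
      exact ⟨⟨⟨hpa.1, hpb.1, hab.1.1⟩, hpc.1, hab.2.1.1⟩, hpd.1, hab.2.2, by linarith⟩
    · intro m hm m' hm' h
      obtain ⟨h1, h2⟩ := mem_filter.1 (mem_coe.1 hm)
      obtain ⟨h1', h2'⟩ := mem_filter.1 (mem_coe.1 hm')
      obtain ⟨a, b, c, d, ha⟩ := len_four h2
      obtain ⟨a', b', c', d', ha'⟩ := len_four h2'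
      apply hinj m h1 m' h1'
      simp only [ha, ha', List.getD_cons_zero, List.getD_cons_succ, Sigma.mk.injEq,
        heq_eq_eq] at h
      rw [ha, ha', h.1.1.1, h.1.1.2, h.1.2, h.2]
    · intro m hm
      obtain ⟨h1, h2⟩ := mem_filter.1 hm
      obtain ⟨a, b, c, d, ha⟩ := len_four h2
      have hlog := hlg m h1
      have hpa := hpr m h1 a (by rw [ha]; simp)
      have hpb := hpr m h1 b (by rw [ha]; simp)
      have hpc := hpr m h1 c (by rw [ha]; simp)
      have hpd := hpr m h1 d (by rw [ha]; simp)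
      have hp := hprod m h1
      rw [ha] at hp
      simp only [List.prod_cons, List.prod_nil, mul_one] at hp
      have hm0 : (0 : ℝ) < m := by exact_mod_cast (hok m h1).pos
      have hmR : ((a : ℝ) * b * c * d) = m := by
        rw [mul_assoc, mul_assoc]
        exact_mod_cast hp
      rw [hGF m h1, ha]
      simp only [List.map_cons, List.map_nil, List.getD_cons_zero, List.getD_cons_succ]
      rw [hmR]
      have hF := F5_ge (kap x) (ex x (n / m)) (ex x a) (ex x b) (ex x c) (ex x d) hlog.tz hpa.2.1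
        hpb.2.1 hpc.2.1 hpd.2.1
      have h14 := fin_ineq hm0 hF
      rw [div_eq_mul_one_div (14 : ℝ) (m : ℝ)] at h14
      exact h14
    · intro p _
      positivity
  rw [sum_neg_distrib] at s1 s2 s3 s4
  rw [hKK, hfib]
  simp only [sum_range_succ, range_zero, sum_empty, zero_add]
  linarith

end Pool.Agent.HS
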