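import Pool.Agent.Work.MP_92f640_nt.HS.W.Mer
import Pool.Agent.Work.MP_92f640_nt.HS.W.Sum14
import Pool.Agent.Work.MP_92f640_nt.HS.W.SumL3

/-! # Module W.Sum3: two, four and five prime factors

`L1`: three windows of width `16 κ → 0`: `mer`.
`L3` (true value about .048): windows: `w1 κ a` etc.: small (`mer`, `Σ 1/p ≤ log 5 + δ`), `w1 κ (a+b+c)`: for fixed `p, p'` a window of width `16 κ` for `p''`. `QQ`: a sorted triple with a marked pair `s ∈ QQ` and the third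
prime with exponent in `[1/6, 5/6 - s]`: `≤ ∑_{p < p', s ∈ QQ} 1/(p p') (log(6(5/6 - s)) + δ)`. `s ∈ [.38 - 2κ, 5/12 + 2κ]`: third factor `≤ 1.003`, pairs: I4a + I4b (see Sum2) `≤ .0364` (2, 2 parts). `s ∈ [7/12 - 4κ, .62]`: third
factor `≤ .41`, pairs `∫_{1/6}^{7/24} log((.62-a)/(7/12-a)) da/a + ∫_{7/24}^{.31} log((.62-a)/a) da/a ≈ .0585`. `|s - 1/2| ≤ 4κ`: small.
`L4` (true value about .0009): `p₃` largest, exponent `v`: the others have exponents in `[1/6, min(v, 1/2 - v)]`, `∑_{p<p'<p''} ≤ (∑)³/6`: `L4 ≤ ∫_{1/6}^{1/4} (log 6v)³/6 dv/v + ∫_{1/4}^{1/3} (log(3-6v))³/6 dv/v ≈ .0019`. -/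

namespace Pool.Agent.HS

open Finset

end Pool.Agent.HS
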